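import Pool.Agent.Helper7_RU.Stm

set_option autoImplicit false

open scoped ENNReal Matrix.Norms.L2Operator Matrix
open Pool.Agent.W659.EC

noncomputable section

namespace Pool.Agent.Helper7_RU.R_POP

theorem sum_bound (X : Type) (f : X → ℂ) (φ : X → X) (C : ℝ) (hC : 0 ≤ C) (hf : ∀ x, ‖f x‖ ≤ C)
    (hinj : ∀ x y, f x ≠ 0 → f y ≠ 0 → φ x = φ y → x = y) (b : Hs X) (s : Finset X) :
    ∑ x ∈ s, ‖(starRingEnd ℂ) (f x) * (b : Hs X) (φ x)‖ ^ (2 : ℝ≥0∞).toReal ≤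
      (C * ‖b‖) ^ (2 : ℝ≥0∞).toReal := by
  classical
  have h2 : (2 : ℝ≥0∞).toReal = 2 := by norm_num
  have hb : ∀ t : Finset X, ∑ y ∈ t, ‖(b : Hs X) y‖ ^ (2 : ℝ≥0∞).toReal ≤
      ‖b‖ ^ (2 : ℝ≥0∞).toReal := fun t =>
    lp.sum_rpow_le_norm_rpow (by rw [h2]; norm_num) b t
  rw [h2] at hb ⊢
  simp only [Real.rpow_ofNat] at hb ⊢
  have e1 : ∑ x ∈ s, ‖(starRingEnd ℂ) (f x) * (b : Hs X) (φ x)‖ ^ 2 =
      ∑ x ∈ s.filter (fun x => f x ≠ 0), ‖(starRingEnd ℂ) (f x) * (b : Hs X) (φ x)‖ ^ 2 := by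
    rw [Finset.sum_filter]
    refine Finset.sum_congr rfl fun x _ => ?_
    by_cases hx : f x = 0
    · simp [hx]
    · simp [hx]
  rw [e1]
  have e2 : ∑ x ∈ s.filter (fun x => f x ≠ 0), ‖(starRingEnd ℂ) (f x) * (b : Hs X) (φ x)‖ ^ 2 ≤
      ∑ x ∈ s.filter (fun x => f x ≠ 0), C ^ 2 * ‖(b : Hs X) (φ x)‖ ^ 2 := by
    refine Finset.sum_le_sum fun x _ => ?_
    rw [norm_mul, mul_pow, RCLike.norm_conj]
    have := hf x
    gcongr
  refine e2.trans ?_
  rw [← Finset.mul_sum, mul_pow]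
  refine mul_le_mul_of_nonneg_left ?_ (sq_nonneg C)
  have e3 : ∑ x ∈ s.filter (fun x => f x ≠ 0), ‖(b : Hs X) (φ x)‖ ^ 2 =
      ∑ y ∈ (s.filter (fun x => f x ≠ 0)).image φ, ‖(b : Hs X) y‖ ^ 2 := by
    rw [Finset.sum_image]
    intro x hx y hy hxy
    simp only [Finset.coe_filter, Set.mem_setOf_eq] at hx hy
    exact hinj x y hx.2 hy.2 hxy
  rw [e3]
  exact hb _

theorem t_POP : StPOP := by
  intro X f φ C hC hf hinj
  have hmem : ∀ b : Hs X, Memℓp (fun x => (starRingEnd ℂ) (f x) * (b : Hs X) (φ x)) 2 := fun b =>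
    memℓp_gen' (sum_bound X f φ C hC hf hinj b)
  let S0 : Hs X →ₗ[ℂ] Hs X :=
    { toFun := fun b => ⟨fun x => (starRingEnd ℂ) (f x) * (b : Hs X) (φ x), hmem b⟩
      map_add' := by
        intro a b
        ext x
        show (starRingEnd ℂ) (f x) * ((a + b : Hs X) (φ x)) =
          (starRingEnd ℂ) (f x) * ((a : Hs X) (φ x)) + (starRingEnd ℂ) (f x) * ((b : Hs X) (φ x))
        rw [lp.coeFn_add, Pi.add_apply, mul_add]
      map_smul' := by
        intro c b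
        ext x
        show (starRingEnd ℂ) (f x) * ((c • b : Hs X) (φ x)) =
          c * ((starRingEnd ℂ) (f x) * ((b : Hs X) (φ x)))
        rw [lp.coeFn_smul, Pi.smul_apply, smul_eq_mul]
        ring }
  have hS0 : ∀ b : Hs X, ‖S0 b‖ ≤ C * ‖b‖ := fun b =>
    lp.norm_le_of_forall_sum_le (by norm_num) (by positivity) (sum_bound X f φ C hC hf hinj b)
  let S : Op X := S0.mkContinuous C hS0
  have hSn : ‖S‖ ≤ C := S0.mkContinuous_norm_le hC hS0
  let T : Op X := ContinuousLinearMap.adjoint S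
  have hTn : ‖T‖ ≤ C := by
    have : ‖T‖ = ‖S‖ := ContinuousLinearMap.adjoint.norm_map S
    rw [this]
    exact hSn
  have hT : ∀ x, T (dl x) = f x • dl (φ x) := by
    intro x
    refine ext_inner_right ℂ fun b => ?_
    rw [ContinuousLinearMap.adjoint_inner_left, inner_dl_left, inner_smul_left, inner_dl_left]
    rfl
  have hex : ∃ T : Op X, ∀ x, T (dl x) = f x • dl (φ x) := ⟨T, hT⟩
  have hpop : pop f φ = hex.choose := by
    unfold pop
    rw [dif_pos hex]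
  have hsp := hex.choose_spec
  rw [← hpop] at hsp
  have heq : pop f φ = T := by
    apply ent_ext
    intro x y
    unfold ent
    rw [hsp, hT]
  exact ⟨hsp, by rw [heq]; exact hTn⟩

end Pool.Agent.Helper7_RU.R_POP
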