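import Pool.Agent.Helper7_RU.Stm2
import Pool.Agent.W659.EC.CP2

set_option autoImplicit false

open scoped ENNReal Matrix.Norms.L2Operator Matrix
open Pool.Agent.W659.EC

noncomputable section

namespace Pool.Agent.Helper7_RU.R_AFB

/-! ## Compressions -/

theorem ent_star_mul {X : Type} (S T : Op X) (x y : X) :
    ent (star S * T) x y = inner ℂ (S (dl x)) (T (dl y)) := by
  unfold ent
  rw [← inner_dl_left, ContinuousLinearMap.mul_def, ContinuousLinearMap.comp_apply,
    ContinuousLinearMap.star_eq_adjoint, ContinuousLinearMap.adjoint_inner_right]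

/-- compression to the coordinates `p u` -/
def cmp {X : Type} {n : Type} (p : n → X) : Op X →ₗ[ℂ] Matrix n n ℂ where
  toFun T := Matrix.of fun u v => ent T (p u) (p v)
  map_add' S T := by ext u v; rfl
  map_smul' c T := by ext u v; rfl

theorem cmp_apply {X : Type} {n : Type} (p : n → X) (T : Op X) (u v : n) :
    cmp p T u v = ent T (p u) (p v) := rfl

open scoped ComplexOrder MatrixOrder in
theorem psd_factor {ι : Type} [Fintype ι] [DecidableEq ι] (G : Matrix ι ι ℂ)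
    (h : G.PosSemidef) : ∃ C : Matrix ι ι ℂ, G = Cᴴ * C := by
  obtain ⟨C, hC⟩ := CStarAlgebra.nonneg_iff_eq_star_mul_self.mp h.nonneg
  exact ⟨C, hC⟩

open scoped ComplexOrder in
theorem isCP_cmp {X : Type} {n : Type} [Fintype n] [DecidableEq n] (p : n → X) :
    IsCP (cmp p) := by
  intro k M
  -- the Gram matrix
  let G : Matrix (Fin k × n) (Fin k × n) ℂ :=
    ∑ l : Fin k, Matrix.gram ℂ fun a : Fin k × n => (M l a.1) (dl (p a.2))
  have hG : G.PosSemidef := by
    apply Matrix.posSemidef_sum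
    intro l _
    exact Matrix.posSemidef_gram _ _
  obtain ⟨C, hC⟩ := psd_factor G hG
  refine ⟨Matrix.of fun l j => Matrix.of fun u v => C (l, u) (j, v), ?_⟩
  ext i j u v
  have h1 : ((Mᴴ * M).map (cmp p)) i j u v = G (i, u) (j, v) := by
    simp only [G, Matrix.map_apply, Matrix.mul_apply, map_sum, Matrix.sum_apply]
    refine Finset.sum_congr rfl fun l _ => ?_
    rw [Matrix.conjTranspose_apply, cmp_apply, ent_star_mul, Matrix.gram_apply]
  rw [h1, hC, Matrix.mul_apply, Matrix.mul_apply, Matrix.sum_apply, Fintype.sum_prod_type]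
  refine Finset.sum_congr rfl fun l _ => ?_
  rw [Matrix.conjTranspose_apply, Matrix.star_eq_conjTranspose, Matrix.mul_apply]
  rfl

theorem isCP_pi' {A : Type} [NonUnitalCStarAlgebra A] (F : FDA) (ψ : A →ₗ[ℂ] F.alg)
    (h : ∀ i, IsCP ((LinearMap.proj i : F.alg →ₗ[ℂ] _) ∘ₗ ψ)) : IsCP ψ := by
  refine isCP_of_family (fun i =>
    ((Pi.evalStarAlgHom ℂ (fun i : F.ι => Matrix (F.n i) (F.n i) ℂ) i :
      F.alg →⋆ₐ[ℂ] Matrix (F.n i) (F.n i) ℂ) : F.alg →⋆ₙₐ[ℂ] Matrix (F.n i) (F.n i) ℂ))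
    (fun b hb => funext fun i => hb i) ψ fun i => ?_
  exact h i

theorem norm_one_le'' {A : Type} [CStarAlgebra A] : ‖(1 : A)‖ ≤ 1 := by
  rcases subsingleton_or_nontrivial A with h | h
  · rw [Subsingleton.elim (1 : A) 0, norm_zero]; exact zero_le_one
  · rw [CStarRing.norm_one]

/-! ## Entries of sums -/

/-- the entry as a linear map -/
def entL {X : Type} (x y : X) : Op X →ₗ[ℂ] ℂ where
  toFun T := ent T x y
  map_add' _ _ := rfl
  map_smul' _ _ := rfl

theorem ent_sum {X J : Type} (s : Finset J) (T : J → Op X) (x y : X) :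
    ent (∑ i ∈ s, T i) x y = ∑ i ∈ s, ent (T i) x y := map_sum (entL x y) T s

/-! ## Tiles and classes -/

section tiles

variable (τ : Z2 → Z2) (D : ℕ) (B : Finset (Op Z2))

open Classical in
/-- base point of a label -/
def bp (t : Z2) : Z2 := if h : ∃ x, τ x = t then h.choose else 0

/-- base point of the tile of a point -/
def bs (x : Z2) : Z2 := bp τ (τ x)

theorem tau_bs (x : Z2) : τ (bs τ x) = τ x := by
  have h : ∃ y, τ y = τ x := ⟨x, rfl⟩
  unfold bs bp
  rw [dif_pos h]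
  exact h.choose_spec

theorem bs_eq {x y : Z2} (h : τ x = τ y) : bs τ x = bs τ y := by
  unfold bs
  rw [h]

/-- the class of a tile with base point `z` -/
def cls (z : Z2) : (↥(bl 0 D) → Prop) × (↥B → ↥(bl 0 D) → ↥(bl 0 D) → ℂ) :=
  (fun v => τ (z + v.1) = τ z, fun b u v => ent b.1 (z + u.1) (z + v.1))

/-- the set of classes -/
def Cl : Set ((↥(bl 0 D) → Prop) × (↥B → ↥(bl 0 D) → ↥(bl 0 D) → ℂ)) :=
  Set.range fun x : Z2 => cls τ D B (bs τ x)

theorem finite_Cl (hB : ∀ b ∈ B, (Set.range fun p : Z2 × Z2 => ent b p.1 p.2).Finite) :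
    (Cl τ D B).Finite := by
  have h1 : {g : ↥B → ↥(bl 0 D) → ↥(bl 0 D) → ℂ | ∀ b, g b ∈
      {g1 : ↥(bl 0 D) → ↥(bl 0 D) → ℂ | ∀ u, g1 u ∈
        {g2 : ↥(bl 0 D) → ℂ | ∀ v, g2 v ∈ Set.range fun p : Z2 × Z2 => ent b.1 p.1 p.2}}}.Finite :=
    Set.Finite.pi' fun b => Set.Finite.pi' fun u => Set.Finite.pi' fun v => hB b.1 b.2
  refine ((Set.finite_univ (α := ↥(bl 0 D) → Prop)).prod h1).subset ?_
  rintro _ ⟨x, rfl⟩
  refine ⟨Set.mem_univ _, fun b u v => ?_⟩
  exact ⟨(bs τ x + u.1, bs τ x + v.1), rfl⟩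

/-- the class of the tile of a point -/
def kk (y : Z2) : ↥(Cl τ D B) := ⟨cls τ D B (bs τ y), ⟨y, rfl⟩⟩

/-- representative of a class -/
def rp (k : ↥(Cl τ D B)) : Z2 := bs τ k.2.choose

theorem cls_rp (k : ↥(Cl τ D B)) : cls τ D B (rp τ D B k) = k.1 := k.2.choose_spec

open Classical in
/-- the shape of a class -/
def T (k : ↥(Cl τ D B)) : Finset Z2 :=
  (bl 0 D).filter fun v => τ (rp τ D B k + v) = τ (rp τ D B k)

theorem mem_T (y v : Z2) :
    v ∈ T τ D B (kk τ D B y) ↔ v ∈ bl 0 D ∧ τ (bs τ y + v) = τ y := by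
  classical
  unfold T
  rw [Finset.mem_filter]
  refine and_congr_right fun hv => ?_
  have h := cls_rp τ D B (kk τ D B y)
  have h1 := congrFun (congrArg Prod.fst h) ⟨v, hv⟩
  have h2 : (τ (rp τ D B (kk τ D B y) + v) = τ (rp τ D B (kk τ D B y))) =
      (τ (bs τ y + v) = τ (bs τ y)) := h1
  rw [h2, tau_bs τ]

theorem ent_rp (y u v : Z2) (b : Op Z2) (hb : b ∈ B) (hu : u ∈ bl 0 D) (hv : v ∈ bl 0 D) :
    ent b (rp τ D B (kk τ D B y) + u) (rp τ D B (kk τ D B y) + v) =
      ent b (bs τ y + u) (bs τ y + v) := by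
  have h := cls_rp τ D B (kk τ D B y)
  have h1 := congrFun (congrFun (congrFun (congrArg Prod.snd h) ⟨b, hb⟩) ⟨u, hu⟩) ⟨v, hv⟩
  exact h1

theorem T_sub (k : ↥(Cl τ D B)) {v : Z2} (hv : v ∈ T τ D B k) : v ∈ bl 0 D := by
  classical
  unfold T at hv
  exact (Finset.mem_filter.1 hv).1

theorem kk_eq {x y : Z2} (h : τ x = τ y) : kk τ D B x = kk τ D B y := by
  unfold kk
  congr 1
  rw [bs_eq τ h]

variable {D}

theorem sub_mem (hD : ∀ x y, τ x = τ y → dd x y ≤ D) {x y : Z2} (h : τ x = τ y) :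
    x - bs τ y ∈ T τ D B (kk τ D B y) := by
  rw [mem_T, mem_bl]
  have h1 : bs τ y + (x - bs τ y) = x := by abel
  refine ⟨?_, by rw [h1, h]⟩
  rw [← dd_add_left (bs τ y), h1]
  exact hD _ _ (by rw [tau_bs τ, h])

theorem of_sub_mem {x y : Z2} (h : x - bs τ y ∈ T τ D B (kk τ D B y)) : τ x = τ y := by
  rw [mem_T] at h
  have h1 : bs τ y + (x - bs τ y) = x := by abel
  rw [h1] at h
  exact h.2

variable (D)

/-! ## The finite-dimensional algebra -/

/-- the algebra -/
abbrev FA [Fintype ↥(Cl τ D B)] : FDA where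
  ι := ↥(Cl τ D B)
  n k := ↥(T τ D B k)

variable [Fintype ↥(Cl τ D B)]

/-- the coefficients, extended by zero -/
def mx (m : (FA τ D B).alg) (k : ↥(Cl τ D B)) (u v : Z2) : ℂ :=
  if h : u ∈ T τ D B k ∧ v ∈ T τ D B k then m k ⟨u, h.1⟩ ⟨v, h.2⟩ else 0

theorem mx_pos (m : (FA τ D B).alg) (k : ↥(Cl τ D B)) (u v : Z2) (hu : u ∈ T τ D B k)
    (hv : v ∈ T τ D B k) : mx τ D B m k u v = m k ⟨u, hu⟩ ⟨v, hv⟩ := by
  unfold mx
  rw [dif_pos ⟨hu, hv⟩]

/-- the map to the finite-dimensional algebra -/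
def kap : Op Z2 →ₗ[ℂ] (FA τ D B).alg :=
  LinearMap.pi fun k : ↥(Cl τ D B) => cmp fun v : ↥(T τ D B k) => rp τ D B k + v.1

theorem isCPC_kap : IsCPC (kap τ D B) := by
  refine IsCP.isCPC (isCP_pi' _ _ fun k => ?_) ?_
  · exact isCP_cmp fun v : ↥(T τ D B k) => rp τ D B k + v.1
  · have h1 : kap τ D B 1 = 1 := by
      funext k
      ext u v
      change ent (1 : Op Z2) (rp τ D B k + u.1) (rp τ D B k + v.1) =
        (1 : Matrix ↥(T τ D B k) ↥(T τ D B k) ℂ) u v
      rw [ent_one, Matrix.one_apply]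
      by_cases h : u = v
      · rw [if_pos h, if_pos (by rw [h])]
      · rw [if_neg h, if_neg]
        intro h'
        exact h (Subtype.ext (add_left_cancel h'))
    rw [h1]
    exact norm_one_le''

open Classical in
/-- the coefficient functions -/
def cf (k : ↥(Cl τ D B)) (v y : Z2) : ℂ := if kk τ D B y = k ∧ y - bs τ y = v then 1 else 0

omit [Fintype ↥(Cl τ D B)] in
theorem cf_pos {k : ↥(Cl τ D B)} {v y : Z2} (h1 : kk τ D B y = k) (h2 : y - bs τ y = v) :
    cf τ D B k v y = 1 := by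
  unfold cf
  rw [if_pos ⟨h1, h2⟩]

omit [Fintype ↥(Cl τ D B)] in
theorem cf_neg {k : ↥(Cl τ D B)} {v y : Z2} (h : ¬ (kk τ D B y = k ∧ y - bs τ y = v)) :
    cf τ D B k v y = 0 := by
  unfold cf
  rw [if_neg h]

omit [Fintype ↥(Cl τ D B)] in
theorem adm_cf (k : ↥(Cl τ D B)) (u v : Z2) : Adm (cf τ D B k v) fun y => y - v + u := by
  refine ⟨⟨1, fun x => ?_⟩, fun x y _ _ h => ?_⟩
  · by_cases h : kk τ D B x = k ∧ x - bs τ x = v
    · rw [cf_pos τ D B h.1 h.2]; simp
    · rw [cf_neg τ D B h]; simp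
  · exact sub_left_injective (add_right_cancel h)

/-- the operator of an element of the algebra -/
def eS (m : (FA τ D B).alg) : Op Z2 :=
  ∑ k : ↥(Cl τ D B), ∑ u : ↥(T τ D B k), ∑ v : ↥(T τ D B k), m k u v •
    pop (cf τ D B k v.1) fun y => y - v.1 + u.1

theorem ent_eS (hPOP : StPOP) (hD : ∀ x y, τ x = τ y → dd x y ≤ D) (m : (FA τ D B).alg)
    (x y : Z2) : ent (eS τ D B m) x y =
      if τ x = τ y then mx τ D B m (kk τ D B y) (x - bs τ y) (y - bs τ y) else 0 := by
  have hy : y - bs τ y ∈ T τ D B (kk τ D B y) := sub_mem τ B hD rfl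
  have hpop : ∀ (k : ↥(Cl τ D B)) (u v : Z2),
      ent (pop (cf τ D B k v) fun y => y - v + u) x y =
      if x = y - v + u then cf τ D B k v y else 0 := by
    intro k u v
    exact ent_pop hPOP (adm_cf τ D B k u v) x y
  have h0 : ent (eS τ D B m) x y = ∑ k : ↥(Cl τ D B), ∑ u : ↥(T τ D B k), ∑ v : ↥(T τ D B k),
      m k u v * (if x = y - v.1 + u.1 then cf τ D B k v.1 y else 0) := by
    unfold eS
    rw [ent_sum]
    refine Finset.sum_congr rfl fun k _ => ?_
    rw [ent_sum]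
    refine Finset.sum_congr rfl fun u _ => ?_
    rw [ent_sum]
    refine Finset.sum_congr rfl fun v _ => ?_
    rw [ent_smul, hpop]
  rw [h0, Finset.sum_eq_single (kk τ D B y)]
  · have h1 : ∀ u : ↥(T τ D B (kk τ D B y)), ∑ v : ↥(T τ D B (kk τ D B y)),
        m (kk τ D B y) u v * (if x = y - v.1 + u.1 then cf τ D B (kk τ D B y) v.1 y else 0) =
        if x = bs τ y + u.1 then m (kk τ D B y) u ⟨y - bs τ y, hy⟩ else 0 := by
      intro u
      rw [Finset.sum_eq_single (⟨y - bs τ y, hy⟩ : ↥(T τ D B (kk τ D B y)))]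
      · have h2 : y - (y - bs τ y) + u.1 = bs τ y + u.1 := by abel
        rw [cf_pos τ D B rfl rfl]
        change m (kk τ D B y) u ⟨y - bs τ y, hy⟩ * (if x = y - (y - bs τ y) + u.1 then 1 else 0) = _
        rw [h2]
        by_cases h3 : x = bs τ y + u.1
        · rw [if_pos h3, if_pos h3, mul_one]
        · rw [if_neg h3, if_neg h3, mul_zero]
      · intro v _ hv
        have hv' : ¬ (kk τ D B y = kk τ D B y ∧ y - bs τ y = v.1) :=
          fun h => hv (Subtype.ext h.2.symm)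
        rw [cf_neg τ D B hv', ite_self, mul_zero]
      · intro h
        exact absurd (Finset.mem_univ _) h
    rw [Finset.sum_congr rfl fun u _ => h1 u]
    by_cases hxy : τ x = τ y
    · have hx : x - bs τ y ∈ T τ D B (kk τ D B y) := sub_mem τ B hD hxy
      rw [if_pos hxy, mx_pos τ D B m _ _ _ hx hy,
        Finset.sum_eq_single (⟨x - bs τ y, hx⟩ : ↥(T τ D B (kk τ D B y)))]
      · rw [if_pos]
        change x = bs τ y + (x - bs τ y)
        abel
      · intro u _ hu
        rw [if_neg]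
        intro h
        apply hu
        apply Subtype.ext
        change u.1 = x - bs τ y
        rw [h]
        abel
      · intro h
        exact absurd (Finset.mem_univ _) h
    · rw [if_neg hxy]
      apply Finset.sum_eq_zero
      intro u _
      rw [if_neg]
      intro h
      apply hxy
      apply of_sub_mem τ B (D := D)
      have h2 : x - bs τ y = u.1 := by rw [h]; abel
      rw [h2]
      exact u.2
  · intro k _ hk
    apply Finset.sum_eq_zero
    intro u _
    apply Finset.sum_eq_zero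
    intro v _
    have hk' : ¬ (kk τ D B y = k ∧ y - bs τ y = v.1) := fun h => hk h.1.symm
    rw [cf_neg τ D B hk', ite_self, mul_zero]
  · intro h
    exact absurd (Finset.mem_univ _) h

theorem eS_mul (hPOP : StPOP) (hD : ∀ x y, τ x = τ y → dd x y ≤ D) (m m' : (FA τ D B).alg) :
    eS τ D B (m * m') = eS τ D B m * eS τ D B m' := by
  classical
  apply ent_ext
  intro x y
  have hsum := ent_mul (eS τ D B m) (eS τ D B m') x y
  simp only [ent_eS τ D B hPOP hD] at hsum
  have hy : y - bs τ y ∈ T τ D B (kk τ D B y) := sub_mem τ B hD rfl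
  rw [ent_eS τ D B hPOP hD]
  by_cases hxy : τ x = τ y
  · rw [if_pos hxy]
    have hx : x - bs τ y ∈ T τ D B (kk τ D B y) := sub_mem τ B hD hxy
    have h1 : HasSum (fun z => (if τ z = τ y then
        mx τ D B m' (kk τ D B y) (z - bs τ y) (y - bs τ y) else 0) *
        if τ x = τ z then mx τ D B m (kk τ D B z) (x - bs τ z) (z - bs τ z) else 0)
        (∑ z ∈ (T τ D B (kk τ D B y)).image (fun w => bs τ y + w), (if τ z = τ y then
        mx τ D B m' (kk τ D B y) (z - bs τ y) (y - bs τ y) else 0) *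
        if τ x = τ z then mx τ D B m (kk τ D B z) (x - bs τ z) (z - bs τ z) else 0) := by
      apply hasSum_sum_of_ne_finset_zero
      intro z hz
      by_cases hzy : τ z = τ y
      · exfalso
        apply hz
        refine Finset.mem_image.2 ⟨z - bs τ y, sub_mem τ B hD hzy, ?_⟩
        abel
      · rw [if_neg hzy, zero_mul]
    rw [hsum.unique h1, mx_pos τ D B _ _ _ _ hx hy, Finset.sum_image (fun a _ b _ h =>
      add_left_cancel h)]
    change (m (kk τ D B y) * m' (kk τ D B y)) _ _ = _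
    rw [Matrix.mul_apply, ← Finset.sum_coe_sort (T τ D B (kk τ D B y))]
    refine Finset.sum_congr rfl fun w _ => ?_
    have hw : τ (bs τ y + w.1) = τ y := ((mem_T τ D B y w.1).1 w.2).2
    have hwb : bs τ (bs τ y + w.1) = bs τ y := bs_eq τ hw
    have hwk : kk τ D B (bs τ y + w.1) = kk τ D B y := kk_eq τ D B hw
    have hsub : bs τ y + w.1 - bs τ y = w.1 := by abel
    rw [if_pos hw, if_pos (hxy.trans hw.symm), hwb, hwk, hsub,
      mx_pos τ D B _ _ _ _ w.2 hy, mx_pos τ D B _ _ _ _ hx w.2, mul_comm]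
  · rw [if_neg hxy]
    have h1 : (fun z => (if τ z = τ y then
        mx τ D B m' (kk τ D B y) (z - bs τ y) (y - bs τ y) else 0) *
        if τ x = τ z then mx τ D B m (kk τ D B z) (x - bs τ z) (z - bs τ z) else 0) =
        fun _ => 0 := by
      funext z
      by_cases hzy : τ z = τ y
      · rw [if_neg (c := τ x = τ z), mul_zero]
        intro h
        exact hxy (h.trans hzy)
      · rw [if_neg hzy, zero_mul]
    rw [h1] at hsum
    exact hasSum_zero.unique hsum

theorem eS_add (hPOP : StPOP) (hD : ∀ x y, τ x = τ y → dd x y ≤ D) (m m' : (FA τ D B).alg) :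
    eS τ D B (m + m') = eS τ D B m + eS τ D B m' := by
  apply ent_ext
  intro x y
  rw [ent_add, ent_eS τ D B hPOP hD, ent_eS τ D B hPOP hD, ent_eS τ D B hPOP hD]
  have hy : y - bs τ y ∈ T τ D B (kk τ D B y) := sub_mem τ B hD rfl
  by_cases hxy : τ x = τ y
  · have hx : x - bs τ y ∈ T τ D B (kk τ D B y) := sub_mem τ B hD hxy
    rw [if_pos hxy, if_pos hxy, if_pos hxy, mx_pos τ D B _ _ _ _ hx hy,
      mx_pos τ D B _ _ _ _ hx hy, mx_pos τ D B _ _ _ _ hx hy]
    rfl
  · rw [if_neg hxy, if_neg hxy, if_neg hxy, add_zero]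

theorem eS_smul (hPOP : StPOP) (hD : ∀ x y, τ x = τ y → dd x y ≤ D) (c : ℂ)
    (m : (FA τ D B).alg) : eS τ D B (c • m) = c • eS τ D B m := by
  apply ent_ext
  intro x y
  rw [ent_smul, ent_eS τ D B hPOP hD, ent_eS τ D B hPOP hD]
  have hy : y - bs τ y ∈ T τ D B (kk τ D B y) := sub_mem τ B hD rfl
  by_cases hxy : τ x = τ y
  · have hx : x - bs τ y ∈ T τ D B (kk τ D B y) := sub_mem τ B hD hxy
    rw [if_pos hxy, if_pos hxy, mx_pos τ D B _ _ _ _ hx hy, mx_pos τ D B _ _ _ _ hx hy]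
    rfl
  · rw [if_neg hxy, if_neg hxy, mul_zero]

theorem eS_star (hPOP : StPOP) (hD : ∀ x y, τ x = τ y → dd x y ≤ D) (m : (FA τ D B).alg) :
    eS τ D B (star m) = star (eS τ D B m) := by
  apply ent_ext
  intro x y
  rw [ent_star, ent_eS τ D B hPOP hD, ent_eS τ D B hPOP hD]
  have hy : y - bs τ y ∈ T τ D B (kk τ D B y) := sub_mem τ B hD rfl
  by_cases hxy : τ x = τ y
  · have hx : x - bs τ y ∈ T τ D B (kk τ D B y) := sub_mem τ B hD hxy
    rw [if_pos hxy, if_pos hxy.symm, bs_eq τ hxy, kk_eq τ D B hxy,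
      mx_pos τ D B _ _ _ _ hx hy, mx_pos τ D B _ _ _ _ hy hx]
    rfl
  · rw [if_neg hxy, if_neg (fun h => hxy h.symm), map_zero]

/-- the homomorphism -/
def eH (hPOP : StPOP) (hD : ∀ x y, τ x = τ y → dd x y ≤ D) : (FA τ D B).alg →⋆ₙₐ[ℂ] Op Z2 where
  toFun := eS τ D B
  map_smul' c m := eS_smul τ D B hPOP hD c m
  map_zero' := by
    have h := eS_smul τ D B hPOP hD 0 0
    rw [zero_smul, zero_smul] at h
    exact h
  map_add' m m' := eS_add τ D B hPOP hD m m'
  map_mul' m m' := eS_mul τ D B hPOP hD m m'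
  map_star' m := eS_star τ D B hPOP hD m

theorem eS_mem (hPOP : StPOP) (hD : ∀ x y, τ x = τ y → dd x y ≤ D) (m : (FA τ D B).alg) :
    eS τ D B m ∈ uRoe Z2 := by
  refine finProp_mem D fun x y h => ?_
  rw [ent_eS τ D B hPOP hD, if_neg]
  intro h'
  exact absurd (hD x y h') (not_le.2 h)

theorem eS_kap (hPOP : StPOP) (hD : ∀ x y, τ x = τ y → dd x y ≤ D) (b : Op Z2) (hb : b ∈ B)
    (hb0 : ∀ x y, τ x ≠ τ y → ent b x y = 0) : eS τ D B (kap τ D B b) = b := by
  apply ent_ext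
  intro x y
  rw [ent_eS τ D B hPOP hD]
  have hy : y - bs τ y ∈ T τ D B (kk τ D B y) := sub_mem τ B hD rfl
  by_cases hxy : τ x = τ y
  · have hx : x - bs τ y ∈ T τ D B (kk τ D B y) := sub_mem τ B hD hxy
    rw [if_pos hxy, mx_pos τ D B _ _ _ _ hx hy]
    change ent b (rp τ D B (kk τ D B y) + (x - bs τ y)) (rp τ D B (kk τ D B y) + (y - bs τ y)) = _
    rw [ent_rp τ D B y _ _ b hb (T_sub τ D B _ hx) (T_sub τ D B _ hy)]
    congr 1 <;> abel
  · rw [if_neg hxy, hb0 x y hxy]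

end tiles

theorem t_AFB (hPOP : StPOP) : StAFB := by
  intro τ D hD B hB hB0
  have : Fintype ↥(Cl τ D B) := (finite_Cl τ D B hB).fintype
  exact ⟨FA τ D B, kap τ D B, eH τ D B hPOP hD, isCPC_kap τ D B,
    fun m => eS_mem τ D B hPOP hD m, fun b hb => eS_kap τ D B hPOP hD b hb (hB0 b hb)⟩

end Pool.Agent.Helper7_RU.R_AFB
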