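import Pool.Agent.Helper7_RU.Stm

set_option autoImplicit false

open scoped ENNReal Matrix.Norms.L2Operator Matrix
open Pool.Agent.W659.EC

noncomputable section

namespace Pool.Agent.Helper7_RU.R_CMB

theorem dd_sc (M : ℕ) (ζ ζ' : Z2) : dd (sc M ζ) (sc M ζ') = M * dd ζ ζ' := by
  simp only [dd, sc]
  rw [← mul_sub, ← mul_sub, Int.natAbs_mul, Int.natAbs_mul, Int.natAbs_natCast]
  rcases le_total (ζ.1 - ζ'.1).natAbs (ζ.2 - ζ'.2).natAbs with h | h
  · rw [max_eq_right h, max_eq_right (Nat.mul_le_mul_left M h)]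
  · rw [max_eq_left h, max_eq_left (Nat.mul_le_mul_left M h)]

/-- the nearest scaled point -/
def home (M : ℕ) (x : Z2) : Z2 := (x.1 / (M : ℤ), x.2 / (M : ℤ))

theorem dd_home {M : ℕ} (hM : 0 < M) (x : Z2) : dd (sc M (home M x)) x ≤ M := by
  have hM' : (0 : ℤ) < M := by exact_mod_cast hM
  simp only [dd, sc, home]
  have h1 := Int.emod_add_mul_ediv x.1 (M : ℤ)
  have h2 := Int.emod_nonneg x.1 hM'.ne'
  have h3 := Int.emod_lt_of_pos x.1 hM'
  have h4 := Int.emod_add_mul_ediv x.2 (M : ℤ)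
  have h5 := Int.emod_nonneg x.2 hM'.ne'
  have h6 := Int.emod_lt_of_pos x.2 hM'
  omega

/-- the tiles -/
theorem exists_tiles (M : ℕ) (hM : 0 < M) (R : Z2 → ℕ) (hR : ∀ ζ, M ≤ R ζ) :
    ∃ τ : Z2 → Z2, (∀ x, dd (sc M (τ x)) x ≤ R (τ x)) ∧
      ∀ x ζ, dd (sc M ζ) x ≤ R ζ → Encodable.encode (τ x) ≤ Encodable.encode ζ := by
  classical
  have h : ∀ x : Z2, ∃ ζ : Z2, dd (sc M ζ) x ≤ R ζ ∧
      ∀ ζ', dd (sc M ζ') x ≤ R ζ' → Encodable.encode ζ ≤ Encodable.encode ζ' := by
    intro x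
    have hne : ∃ a : ℕ, ∃ ζ : Z2, Encodable.encode ζ = a ∧ dd (sc M ζ) x ≤ R ζ :=
      ⟨_, home M x, rfl, (dd_home hM x).trans (hR _)⟩
    obtain ⟨ζ, h1, h2⟩ := Nat.find_spec hne
    refine ⟨ζ, h2, fun ζ' h3 => ?_⟩
    rw [h1]
    exact Nat.find_min' hne ⟨ζ', rfl, h3⟩
  choose τ h1 h2 using h
  exact ⟨τ, h1, h2⟩

/-- (a) -/
theorem bdry_ann {M : ℕ} {R : Z2 → ℕ} {τ : Z2 → Z2} (h1 : ∀ x, dd (sc M (τ x)) x ≤ R (τ x))
    (h2 : ∀ x ζ, dd (sc M ζ) x ≤ R ζ → Encodable.encode (τ x) ≤ Encodable.encode ζ)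
    {W : ℕ} {x : Z2} (hx : x ∈ bdry τ W) :
    ∃ ζ, R ζ ≤ dd (sc M ζ) x + W ∧ dd (sc M ζ) x ≤ R ζ + W := by
  obtain ⟨y, hy, hne⟩ := hx
  have hne' : Encodable.encode (τ y) ≠ Encodable.encode (τ x) := fun h =>
    hne (Encodable.encode_injective h)
  rcases lt_or_gt_of_ne hne' with h | h
  · refine ⟨τ y, ?_, ?_⟩
    · by_contra hcon
      have := h2 x (τ y) (by omega)
      omega
    · have e1 := dd_tri (sc M (τ y)) y x
      have e2 := dd_comm x y
      have e3 := h1 y
      omega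
  · refine ⟨τ x, ?_, ?_⟩
    · by_contra hcon
      have e1 := dd_tri (sc M (τ x)) x y
      have := h2 y (τ x) (by omega)
      omega
    · have := h1 x
      omega

open Classical in
/-- the number of points of a type near a centre -/
def KK {Ty : Type} (P : Z2 → Ty) (M : ℕ) (ζ : Z2) (p : Ty) : ℕ :=
  ((bl (sc M ζ) (3 * M)).filter fun x => P x = p).card

open Classical in
/-- the bad points of a type near a centre -/
def BB {Ty : Type} (P : Z2 → Ty) (M w b : ℕ) (k : Z2 → ℕ) (ζ : Z2) (p : Ty) : Finset Z2 :=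
  (bl (sc M ζ) (3 * M)).filter fun x => (∃ ζ', x ∈ Ann M w b ζ' (k ζ')) ∧ P x = p

open Classical in
/-- the candidates -/
def CC {Ty : Type} (P : Z2 → Ty) (M w b : ℕ) (k : Z2 → ℕ) (x : Z2) : Finset Z2 :=
  (bl (sc M (home M x)) (3 * M)).filter fun y => ¬ (∃ ζ', y ∈ Ann M w b ζ' (k ζ')) ∧ P y = P x

theorem card_CC_add {Ty : Type} (P : Z2 → Ty) (M w b : ℕ) (k : Z2 → ℕ) (x : Z2) :
    (CC P M w b k x).card + (BB P M w b k (home M x) (P x)).card = KK P M (home M x) (P x) := by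
  classical
  unfold CC BB KK
  have h := Finset.card_filter_add_card_filter_not
    (s := (bl (sc M (home M x)) (3 * M)).filter fun y => P y = P x)
    (fun y => ¬ (∃ ζ', y ∈ Ann M w b ζ' (k ζ')))
  rw [Finset.filter_filter, Finset.filter_filter] at h
  rw [← h]
  congr 1
  · congr 1
    ext y
    simp only [Finset.mem_filter]
    tauto
  · congr 1
    ext y
    simp only [Finset.mem_filter, not_not]
    tauto

/-- (c) -/
theorem m_card_BB {Ty : Type} [Fintype Ty] (P : Z2 → Ty) (M w b m : ℕ) (hM : 0 < M)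
    (k : Z2 → ℕ) (hR : ∀ ζ, M + k ζ * w + b ≤ 2 * M)
    (hk : ∀ ζ ζ' : Z2, dd ζ ζ' ≤ 5 → ∀ p : Ty,
      m * (open Classical in ((bl (sc M ζ') (3 * M)).filter
        fun x => x ∈ Ann M w b ζ (k ζ) ∧ P x = p).card) ≤
        121 * Fintype.card Ty * (open Classical in
          ((bl (sc M ζ') (3 * M)).filter fun x => P x = p).card))
    (ζ' : Z2) (p : Ty) :
    m * (BB P M w b k ζ' p).card ≤ 121 ^ 2 * Fintype.card Ty * KK P M ζ' p := by
  classical
  have hsub : BB P M w b k ζ' p ⊆ (bl ζ' 5).biUnion fun ζ =>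
      (bl (sc M ζ') (3 * M)).filter fun x => x ∈ Ann M w b ζ (k ζ) ∧ P x = p := by
    intro x hx
    unfold BB at hx
    rw [Finset.mem_filter] at hx
    obtain ⟨hx1, ⟨ζ, hζ⟩, hx3⟩ := hx
    rw [Finset.mem_biUnion]
    refine ⟨ζ, ?_, Finset.mem_filter.2 ⟨hx1, hζ, hx3⟩⟩
    rw [mem_bl] at hx1 ⊢
    have e1 : dd (sc M ζ) x ≤ 2 * M := hζ.2.trans (hR ζ)
    have e2 := dd_tri (sc M ζ') x (sc M ζ)
    rw [dd_comm x (sc M ζ), dd_sc] at e2
    have e3 : M * dd ζ' ζ ≤ M * 5 := by omega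
    exact Nat.le_of_mul_le_mul_left e3 hM
  have h1 : (BB P M w b k ζ' p).card ≤ ∑ ζ ∈ bl ζ' 5,
      ((bl (sc M ζ') (3 * M)).filter fun x => x ∈ Ann M w b ζ (k ζ) ∧ P x = p).card :=
    (Finset.card_le_card hsub).trans Finset.card_biUnion_le
  calc m * (BB P M w b k ζ' p).card
      ≤ m * ∑ ζ ∈ bl ζ' 5,
        ((bl (sc M ζ') (3 * M)).filter fun x => x ∈ Ann M w b ζ (k ζ) ∧ P x = p).card :=
        Nat.mul_le_mul_left m h1
    _ = ∑ ζ ∈ bl ζ' 5, m *
        ((bl (sc M ζ') (3 * M)).filter fun x => x ∈ Ann M w b ζ (k ζ) ∧ P x = p).card :=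
        Finset.mul_sum _ _ _
    _ ≤ ∑ ζ ∈ bl ζ' 5, 121 * Fintype.card Ty * KK P M ζ' p := by
        refine Finset.sum_le_sum fun ζ hζ => ?_
        rw [mem_bl, dd_comm] at hζ
        have := hk ζ ζ' hζ p
        unfold KK
        convert this using 2
    _ = 121 ^ 2 * Fintype.card Ty * KK P M ζ' p := by
        rw [Finset.sum_const, card_bl, smul_eq_mul]
        ring

theorem t_CMB (hGRD : StGRD) (hRAD : StRAD) : StCMB := by
  intro Ty hTy P n W E
  classical
  have _ : Fintype Ty := Fintype.ofFinite Ty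
  set q : ℕ := Fintype.card Ty with hq
  set b : ℕ := W + E with hb
  set w : ℕ := 2 * b + 1 with hw
  set c0 : ℕ := (2 * E + 1) ^ 2 with hc0
  set m : ℕ := 121 ^ 2 * q * (1 + c0 * n * 225 * q) + 1 with hm
  have hmpos : 0 < m := by omega
  set M : ℕ := m * w with hM
  have hwM : w ≤ M := Nat.le_mul_of_pos_left w hmpos
  have hMpos : 0 < M := by omega
  obtain ⟨k, hkm, hk⟩ := hRAD Ty P M w b m hmpos (by omega)
  have hR2 : ∀ ζ, M + k ζ * w + b ≤ 2 * M := by
    intro ζ
    have h1 : (k ζ + 1) * w ≤ m * w := Nat.mul_le_mul_right w (hkm ζ)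
    rw [add_mul, one_mul] at h1
    omega
  obtain ⟨τ, hτ1, hτ2⟩ := exists_tiles M hMpos (fun ζ => M + k ζ * w) (fun ζ => by simp)
  -- (b)
  have hAnn : ∀ x' x : Z2, dd x' x ≤ E → x ∈ bdry τ W → ∃ ζ, x' ∈ Ann M w b ζ (k ζ) := by
    intro x' x hd hx
    obtain ⟨ζ, h1, h2⟩ := bdry_ann hτ1 hτ2 hx
    refine ⟨ζ, ?_, ?_⟩
    · have e1 := dd_tri (sc M ζ) x' x
      omega
    · have e1 := dd_tri (sc M ζ) x x'
      have e2 := dd_comm x x'
      omega
  have hBB := m_card_BB P M w b m hMpos k hR2 hk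
  -- the greedy choice
  let Cd : {d : Fin n × Z2 // d.2 ∈ bdry τ W} → Finset (Fin n × Z2) := fun d =>
    (Finset.univ : Finset (Fin n)) ×ˢ
      (((bl (home M d.1.2) 7) ×ˢ (Finset.univ : Finset Ty)).filter
        fun z => KK P M z.1 z.2 ≤ KK P M (home M d.1.2) (P d.1.2)).biUnion
        fun z => BB P M w b k z.1 z.2
  have hx_bl : ∀ x : Z2, x ∈ bl (sc M (home M x)) (3 * M) := by
    intro x
    rw [mem_bl]
    have := dd_home hMpos x
    omega
  have hgreedy := hGRD {d : Fin n × Z2 // d.2 ∈ bdry τ W} Z2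
    (fun d => CC P M w b k d.1.2) (fun y y' => dd y y' ≤ E) c0
    (fun d => KK P M (home M d.1.2) (P d.1.2))
    (fun d => (Cd d).subtype fun d => d.2 ∈ bdry τ W)
    (fun y y' h => by rw [dd_comm]; exact h)
    (fun y' => ⟨bl y' E, by rw [card_bl], fun y hy => by rw [mem_bl]; exact hy⟩)
    (by
      intro d d' _ hrank hex
      obtain ⟨y, hy, y', hy', hyy⟩ := hex
      rw [Finset.mem_subtype]
      simp only [Cd]
      rw [Finset.mem_product]
      refine ⟨Finset.mem_univ _, ?_⟩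
      rw [Finset.mem_biUnion]
      refine ⟨(home M d'.1.2, P d'.1.2), ?_, ?_⟩
      · rw [Finset.mem_filter, Finset.mem_product]
        refine ⟨⟨?_, Finset.mem_univ _⟩, hrank⟩
        rw [mem_bl]
        simp only [CC, Finset.mem_filter, mem_bl] at hy hy'
        have e1 := dd_tri (sc M (home M d.1.2)) y (sc M (home M d'.1.2))
        have e2 := dd_tri y y' (sc M (home M d'.1.2))
        have e3 := dd_comm y y'
        have e4 := dd_comm y' (sc M (home M d'.1.2))
        rw [dd_sc] at e1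
        have e5 := hy.1
        have e6 := hy'.1
        have e7 : M * dd (home M d.1.2) (home M d'.1.2) ≤ M * 7 := by omega
        exact Nat.le_of_mul_le_mul_left e7 hMpos
      · simp only [BB, Finset.mem_filter]
        exact ⟨hx_bl _, hAnn _ _ (by rw [dd_self]; omega) d'.2, trivial⟩)
    (by
      intro d
      set K : ℕ := KK P M (home M d.1.2) (P d.1.2) with hK
      have hK1 : 1 ≤ K := by
        rw [hK, KK, Nat.one_le_iff_ne_zero, Ne, Finset.card_eq_zero]
        intro hemp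
        have : d.1.2 ∈ (bl (sc M (home M d.1.2)) (3 * M)).filter fun x => P x = P d.1.2 :=
          Finset.mem_filter.2 ⟨hx_bl _, rfl⟩
        rw [hemp] at this
        exact absurd this (Finset.notMem_empty _)
      have hcard := card_CC_add P M w b k d.1.2
      rw [← hK] at hcard
      have hbad := hBB (home M d.1.2) (P d.1.2)
      rw [← hK, ← hq] at hbad
      have hA : m * ((Cd d).subtype fun d => d.2 ∈ bdry τ W).card
          ≤ n * 225 * q * (121 ^ 2 * q) * K := by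
        have h1 : ((Cd d).subtype fun d => d.2 ∈ bdry τ W).card ≤ (Cd d).card := by
          rw [Finset.card_subtype]
          exact Finset.card_filter_le _ _
        have h2 : (Cd d).card ≤ n * ∑ z ∈ ((bl (home M d.1.2) 7) ×ˢ
            (Finset.univ : Finset Ty)).filter
            (fun z => KK P M z.1 z.2 ≤ KK P M (home M d.1.2) (P d.1.2)),
            (BB P M w b k z.1 z.2).card := by
          simp only [Cd]
          rw [Finset.card_product, Finset.card_univ, Fintype.card_fin]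
          exact Nat.mul_le_mul_left n Finset.card_biUnion_le
        have h3 : m * ∑ z ∈ ((bl (home M d.1.2) 7) ×ˢ
            (Finset.univ : Finset Ty)).filter
            (fun z => KK P M z.1 z.2 ≤ KK P M (home M d.1.2) (P d.1.2)),
            (BB P M w b k z.1 z.2).card ≤ 225 * q * (121 ^ 2 * q * K) := by
          rw [Finset.mul_sum]
          calc ∑ z ∈ ((bl (home M d.1.2) 7) ×ˢ
                (Finset.univ : Finset Ty)).filter
                (fun z => KK P M z.1 z.2 ≤ KK P M (home M d.1.2) (P d.1.2)),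
                m * (BB P M w b k z.1 z.2).card
              ≤ ∑ z ∈ ((bl (home M d.1.2) 7) ×ˢ
                (Finset.univ : Finset Ty)).filter
                (fun z => KK P M z.1 z.2 ≤ KK P M (home M d.1.2) (P d.1.2)),
                121 ^ 2 * q * K := by
                refine Finset.sum_le_sum fun z hz => ?_
                have h4 := (Finset.mem_filter.1 hz).2
                exact (hBB z.1 z.2).trans (Nat.mul_le_mul_left _ h4)
            _ ≤ ∑ z ∈ (bl (home M d.1.2) 7) ×ˢ (Finset.univ : Finset Ty), 121 ^ 2 * q * K :=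
                Finset.sum_le_sum_of_subset (Finset.filter_subset _ _)
            _ = 225 * q * (121 ^ 2 * q * K) := by
                rw [Finset.sum_const, Finset.card_product, card_bl, Finset.card_univ, smul_eq_mul,
                  ← hq, show (2 * 7 + 1) ^ 2 = 225 from by norm_num]
        calc m * ((Cd d).subtype fun d => d.2 ∈ bdry τ W).card ≤ m * (n * _) :=
              Nat.mul_le_mul_left m (h1.trans h2)
          _ = n * (m * _) := by ring
          _ ≤ n * (225 * q * (121 ^ 2 * q * K)) := Nat.mul_le_mul_left n h3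
          _ = n * 225 * q * (121 ^ 2 * q) * K := by ring
      refine Nat.lt_of_mul_lt_mul_left (a := m) ?_
      have e1 : m * (CC P M w b k d.1.2).card + m * (BB P M w b k (home M d.1.2) (P d.1.2)).card
          = m * K := by rw [← mul_add, hcard]
      have e2 : m * K = 121 ^ 2 * q * K + c0 * (n * 225 * q * (121 ^ 2 * q) * K) + K := by
        rw [hm]; ring
      have e3 : m * (c0 * ((Cd d).subtype fun d => d.2 ∈ bdry τ W).card)
          ≤ c0 * (n * 225 * q * (121 ^ 2 * q) * K) := by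
        rw [mul_left_comm]
        exact Nat.mul_le_mul_left c0 hA
      omega)
  obtain ⟨f, hf1, hf2⟩ := hgreedy
  refine ⟨6 * M, τ, fun j x => if h : j < n ∧ x ∈ bdry τ W then f ⟨(⟨j, h.1⟩, x), h.2⟩ else 0,
    ?_, ?_, ?_⟩
  · intro x y hxy
    have e1 := hτ1 x
    have e2 := hτ1 y
    rw [← hxy] at e2
    have e3 := dd_tri x (sc M (τ x)) y
    have e4 := dd_comm x (sc M (τ x))
    have e5 := hR2 (τ x)
    omega
  · intro x hx j hj
    have hσ : (fun (j : ℕ) (x : Z2) => if h : j < n ∧ x ∈ bdry τ W then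
        f ⟨(⟨j, h.1⟩, x), h.2⟩ else 0) j x = f ⟨(⟨j, hj⟩, x), hx⟩ := by
      simp only
      rw [dif_pos ⟨hj, hx⟩]
    rw [hσ]
    have h1 := hf1 ⟨(⟨j, hj⟩, x), hx⟩
    simp only [CC, Finset.mem_filter, mem_bl] at h1
    obtain ⟨h2, h3, h4⟩ := h1
    refine ⟨h4, ?_, ?_⟩
    · have e1 := dd_home hMpos x
      have e2 := dd_tri x (sc M (home M x)) (f ⟨(⟨j, hj⟩, x), hx⟩)
      have e3 := dd_comm x (sc M (home M x))
      omega
    · intro v hv
      by_contra hcon
      exact h3 (hAnn _ v (by omega) hv)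
  · intro x hx y hy i hi j hj hne
    have hσ : ∀ (i : ℕ) (hi : i < n) (x : Z2) (hx : x ∈ bdry τ W),
        (fun (j : ℕ) (x : Z2) => if h : j < n ∧ x ∈ bdry τ W then
        f ⟨(⟨j, h.1⟩, x), h.2⟩ else 0) i x = f ⟨(⟨i, hi⟩, x), hx⟩ := by
      intro i hi x hx
      simp only
      rw [dif_pos ⟨hi, hx⟩]
    rw [hσ i hi x hx, hσ j hj y hy]
    have h1 := hf2 ⟨(⟨i, hi⟩, x), hx⟩ ⟨(⟨j, hj⟩, y), hy⟩ (by
      intro h
      apply hne
      simp only [Subtype.mk.injEq, Prod.mk.injEq, Fin.mk.injEq] at h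
      exact Prod.ext h.1 h.2)
    omega

end Pool.Agent.Helper7_RU.R_CMB
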