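import Pool.Agent.Helper7_RU.Stm2

/-! # Density of the finite sums of weighted translations with coefficients of finite range -/

set_option autoImplicit false

open scoped ENNReal Matrix.Norms.L2Operator Matrix
open Pool.Agent.W659.EC

noncomputable section

namespace Pool.Agent.Helper7_RU.R_DEN

theorem exists_round {X : Type} (f0 : X → ℂ) (C : ℝ) (hC : ∀ x, ‖f0 x‖ ≤ C) {δ : ℝ}
    (hδ : 0 < δ) : ∃ f : X → ℂ, (Set.range f).Finite ∧ ∀ x, ‖f0 x - f x‖ ≤ δ := by
  obtain ⟨t, ht, hcov⟩ := Metric.totallyBounded_iff.1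
    (isCompact_closedBall (0 : ℂ) C).totallyBounded δ hδ
  have h1 : ∀ x, ∃ z ∈ t, dist (f0 x) z < δ := by
    intro x
    have hx : f0 x ∈ Metric.closedBall (0 : ℂ) C := by
      rw [mem_closedBall_zero_iff]; exact hC x
    have := hcov hx
    simpa only [Set.mem_iUnion, Metric.mem_ball, exists_prop] using this
  choose f hf hfd using h1
  refine ⟨f, ht.subset ?_, fun x => ?_⟩
  · rintro _ ⟨x, rfl⟩
    exact hf x
  · rw [← dist_eq_norm]
    exact (hfd x).le

theorem ent_sum {X ι : Type} (s : Finset ι) (F : ι → Op X) (x y : X) :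
    ent (∑ g ∈ s, F g) x y = ∑ g ∈ s, ent (F g) x y := by
  classical
  induction s using Finset.induction_on with
  | empty => simp
  | insert i s hi ih => rw [Finset.sum_insert hi, Finset.sum_insert hi, ent_add, ih]

theorem t_DEN (hPOP : StPOP) : StDEN := by
  intro a ha ε hε
  rw [mem_uRoe] at ha
  obtain ⟨T, ⟨R, hR⟩, hT⟩ := Metric.mem_closure_iff.1 ha (ε / 2) (half_pos hε)
  refine ⟨⌈R⌉₊, fun ρ hρ => ?_⟩
  have hRρ : R ≤ ρ := (Nat.le_ceil R).trans (by exact_mod_cast hρ)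
  have hc : (0 : ℝ) < 2 * ((bl 0 ρ).card + 1) := by positivity
  have hδ : 0 < ε / (2 * ((bl 0 ρ).card + 1)) := div_pos hε hc
  have hb : ∀ g x : Z2, ‖ent T x (x - g)‖ ≤ ‖T‖ := fun g x => norm_ent_le T _ _
  have hex : ∀ g : Z2, ∃ f : Z2 → ℂ, (Set.range f).Finite ∧
      ∀ x, ‖ent T x (x - g) - f x‖ ≤ ε / (2 * ((bl 0 ρ).card + 1)) := fun g =>
    exists_round (fun x => ent T x (x - g)) ‖T‖ (hb g) hδ
  choose f hfin hfd using hex
  refine ⟨f, hfin, ?_⟩
  have hBf0 : ∀ g : Z2, Bd fun x : Z2 => ent T x (x - g) := fun g => ⟨‖T‖, hb g⟩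
  have hBd : ∀ g : Z2, Bd fun x : Z2 => ent T x (x - g) - f g x := fun g => ⟨_, hfd g⟩
  have hBf : ∀ g : Z2, Bd (f g) := by
    intro g
    refine ⟨‖T‖ + ε / (2 * ((bl 0 ρ).card + 1)), fun x => ?_⟩
    have e : f g x = ent T x (x - g) - (ent T x (x - g) - f g x) := by ring
    calc ‖f g x‖ = ‖ent T x (x - g) - (ent T x (x - g) - f g x)‖ := by rw [← e]
      _ ≤ ‖ent T x (x - g)‖ + ‖ent T x (x - g) - f g x‖ := norm_sub_le _ _
      _ ≤ _ := add_le_add (hb g x) (hfd g x)
  have key : T = ∑ g ∈ bl 0 ρ, mulc (fun x => ent T x (x - g)) * lam g := by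
    apply ent_ext
    intro x y
    rw [ent_sum]
    have h1 : ∀ g ∈ bl 0 ρ, ent (mulc (fun x => ent T x (x - g)) * lam g) x y =
        if x - y = g then ent T x y else 0 := by
      intro g _
      rw [ent_mulc_mul hPOP (hBf0 g), ent_lam hPOP]
      by_cases h : x - y = g
      · subst h
        rw [if_pos (by abel), if_pos rfl, mul_one]
        congr 1
        abel
      · rw [if_neg h, if_neg, mul_zero]
        rintro rfl
        exact h (by abel)
    rw [Finset.sum_congr rfl h1, Finset.sum_ite_eq]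
    split_ifs with hm
    · rfl
    · rw [mem_bl] at hm
      apply hR
      rw [dist_eq]
      have h2 : dd 0 (x - y) = dd x y := by
        simp only [dd, Prod.fst_sub, Prod.snd_sub, Prod.fst_zero, Prod.snd_zero]
        omega
      rw [h2] at hm
      push Not at hm
      calc R ≤ (ρ : ℝ) := hRρ
        _ < (dd x y : ℝ) := by exact_mod_cast hm
  have hterm : ∀ g, mulc (fun x => ent T x (x - g)) * lam g - mulc (f g) * lam g =
      mulc (fun x => ent T x (x - g) - f g x) * lam g := by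
    intro g
    apply ent_ext
    intro x y
    rw [ent_sub, ent_mulc_mul hPOP (hBf0 g), ent_mulc_mul hPOP (hBf g),
      ent_mulc_mul hPOP (hBd g)]
    ring
  have hdec : a - ∑ g ∈ bl 0 ρ, mulc (f g) * lam g =
      (a - T) + ∑ g ∈ bl 0 ρ, mulc (fun x => ent T x (x - g) - f g x) * lam g := by
    rw [← Finset.sum_congr rfl fun g _ => hterm g, Finset.sum_sub_distrib, ← key]
    abel
  rw [hdec]
  refine (norm_add_le _ _).trans ?_
  have h1 : ‖a - T‖ ≤ ε / 2 := by
    rw [← dist_eq_norm]; exact hT.le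
  have h2 : ‖∑ g ∈ bl 0 ρ, mulc (fun x => ent T x (x - g) - f g x) * lam g‖ ≤
      (bl 0 ρ).card • (ε / (2 * ((bl 0 ρ).card + 1))) := by
    refine (norm_sum_le _ _).trans (Finset.sum_le_card_nsmul _ _ _ fun g _ => ?_)
    calc ‖mulc (fun x => ent T x (x - g) - f g x) * lam g‖
        ≤ ‖mulc (fun x => ent T x (x - g) - f g x)‖ * ‖lam g‖ := norm_mul_le _ _
      _ ≤ (ε / (2 * ((bl 0 ρ).card + 1))) * 1 :=
          mul_le_mul (norm_mulc_le hPOP hδ.le (hfd g)) (norm_lam_le hPOP g) (norm_nonneg _) hδ.le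
      _ = _ := mul_one _
  have h3 : (bl 0 ρ).card • (ε / (2 * ((bl 0 ρ).card + 1))) ≤ ε / 2 := by
    rw [nsmul_eq_mul, mul_div_assoc', div_le_div_iff₀ hc two_pos]
    have : (0 : ℝ) ≤ (bl 0 ρ).card := Nat.cast_nonneg _
    nlinarith
  linarith

end Pool.Agent.Helper7_RU.R_DEN
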