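import Pool.Agent.Helper7_RU.Stm2

set_option autoImplicit false

open scoped ENNReal Matrix.Norms.L2Operator Matrix
open Pool.Agent.W659.EC

noncomputable section

namespace Pool.Agent.Helper7_RU.R_GEO

/-- the indicator function of the points `x` with `x - v ∈ N` -/
def chi (N : Set Z2) (v : Z2) (x : Z2) : ℂ := by
  classical exact if x - v ∈ N then 1 else 0

theorem chi_ne {N : Set Z2} {v x : Z2} (h : chi N v x ≠ 0) : x - v ∈ N := by
  classical
  by_contra hx
  exact h (if_neg hx)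

theorem chi_norm (N : Set Z2) (v x : Z2) : ‖chi N v x‖ ≤ 1 := by
  classical
  unfold chi
  split_ifs <;> simp

theorem Vop_eq (N : Set Z2) (σ : Z2 → Z2) (w : Z2 → ℝ) (s : Finset Z2) :
    Vop N σ w s = ∑ v ∈ s, (w v : ℂ) • pop (chi N v) fun x => σ (x - v) + v := rfl

/-- the maps of the operator are injective -/
def Inj (N : Set Z2) (σ : Z2 → Z2) (s : Finset Z2) : Prop :=
  ∀ y ∈ N, ∀ y' ∈ N, ∀ v ∈ s, ∀ v' ∈ s, σ y + v = σ y' + v' → y = y'

theorem adm {N : Set Z2} {σ : Z2 → Z2} {s : Finset Z2} (h : Inj N σ s) {v : Z2} (hv : v ∈ s) :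
    Adm (chi N v) fun x => σ (x - v) + v := by
  refine ⟨⟨1, chi_norm N v⟩, fun x y hx hy e => ?_⟩
  have := h (x - v) (chi_ne hx) (y - v) (chi_ne hy) v hv v hv e
  exact sub_left_injective this

theorem ent_sum {ι' : Type} (s : Finset ι') (T : ι' → Op Z2) (x y : Z2) :
    ent (∑ v ∈ s, T v) x y = ∑ v ∈ s, ent (T v) x y := by
  classical
  induction s using Finset.induction_on with
  | empty => simp
  | insert a s ha ih => rw [Finset.sum_insert ha, Finset.sum_insert ha, ent_add, ih]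

theorem ent_Vop_ne (hPOP : StPOP) {N : Set Z2} {σ : Z2 → Z2} {s : Finset Z2} (h : Inj N σ s)
    (w : Z2 → ℝ) (x y : Z2) (hne : ent (Vop N σ w s) x y ≠ 0) :
    ∃ v ∈ s, y - v ∈ N ∧ x = σ (y - v) + v := by
  by_contra hcon
  apply hne
  rw [Vop_eq, ent_sum]
  apply Finset.sum_eq_zero
  intro v hv
  rw [ent_smul, ent_pop hPOP (adm h hv)]
  split_ifs with e
  · by_cases hc : chi N v y = 0
    · rw [hc, mul_zero]
    · exact absurd ⟨v, hv, chi_ne hc, e⟩ hcon
  · rw [mul_zero]

theorem card_box (r : ℕ) : (box r).card = r ^ 2 := by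
  simp [box, Finset.card_product, pow_two]

theorem dd_box {r : ℕ} {v v' : Z2} (h : v ∈ box r) (h' : v' ∈ box r) : dd v v' ≤ r := by
  simp only [box, Finset.mem_product, Finset.mem_Ico] at h h'
  simp only [dd]
  omega

theorem cm_mulc (hPOP : StPOP) {F : Z2 → ℂ} (hF : Bd F) (W : Op Z2)
    (h : ∀ x y, ent W x y ≠ 0 → F x = F y) : cm (mulc F) W = 0 := by
  apply ent_ext
  intro x y
  rw [cm, ent_sub, ent_mulc_mul hPOP hF, ent_mul_mulc hPOP hF, ent_zero]
  by_cases hW : ent W x y = 0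
  · rw [hW]; simp
  · rw [h x y hW]; simp

theorem cm_mulc_star (hPOP : StPOP) {F : Z2 → ℂ} (hF : Bd F) (W : Op Z2)
    (h : ∀ x y, ent W x y ≠ 0 → F x = F y) : cm (mulc F) (star W) = 0 := by
  apply cm_mulc hPOP hF
  intro x y hxy
  rw [ent_star] at hxy
  refine (h y x fun h0 => hxy ?_).symm
  rw [h0, map_zero]

theorem norm_cm_lam (hPOP : StPOP) {u : Z2 → ℝ} (hu : Bd u) {g : Z2} {κ : ℝ} (hκ : 0 ≤ κ)
    (h : ∀ x, |u (x - g) - u x| ≤ κ) : ‖cm (lam g) (mu u)‖ ≤ κ := by
  have hb : Bd fun x => ((u (x - g) - u x : ℝ) : ℂ) := Bd.ofReal (bd_of_le h)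
  have h1 : cm (lam g) (mu u) = mulc (fun x => ((u (x - g) - u x : ℝ) : ℂ)) * lam g := by
    apply ent_ext
    intro x y
    rw [cm, ent_sub, ent_mul_mu hPOP hu, ent_mu_mul hPOP hu, ent_mulc_mul hPOP hb, ent_lam hPOP]
    split_ifs with e
    · subst e
      rw [add_sub_cancel_right]
      push_cast
      ring
    · simp
  rw [h1]
  calc ‖mulc (fun x => ((u (x - g) - u x : ℝ) : ℂ)) * lam g‖
      ≤ ‖mulc (fun x => ((u (x - g) - u x : ℝ) : ℂ))‖ * ‖lam g‖ := norm_mul_le _ _
    _ ≤ κ * 1 := by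
        apply mul_le_mul _ (norm_lam_le hPOP g) (norm_nonneg _) hκ
        apply norm_mulc_le hPOP hκ
        intro x
        simpa only [Complex.norm_real, Real.norm_eq_abs] using h x
    _ = κ := mul_one κ

theorem cm_one {X : Type} (S : Op X) : cm S 1 = 0 := by
  rw [cm, mul_one, one_mul, sub_self]

/-- the operators -/
def VV (n r : ℕ) (N : Set Z2) (σ : ℕ → Z2 → Z2) (l : ℕ) : Op Z2 := by
  classical exact if l = 0 ∨ n < l then 1 else Vop N (σ (l - 1)) (fun _ => 1 / (r : ℝ)) (box r)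

theorem VV_one {n r : ℕ} {N : Set Z2} {σ : ℕ → Z2 → Z2} {l : ℕ} (h : l = 0 ∨ n < l) :
    VV n r N σ l = 1 := if_pos h

theorem VV_Vop {n r : ℕ} {N : Set Z2} {σ : ℕ → Z2 → Z2} {l : ℕ} (h : ¬ (l = 0 ∨ n < l)) :
    VV n r N σ l = Vop N (σ (l - 1)) (fun _ => 1 / (r : ℝ)) (box r) := if_neg h

theorem t_GEO (hPOP : StPOP) (hGEOA : StGEOA) (hVR : StVR2) (hVN : StVN) (hVC : StVC) : StGEO := by
  intro q f hf ρ n κ hκ
  obtain ⟨r0, hr0⟩ := exists_nat_ge (4 * (ρ : ℝ) / κ ^ 2)
  obtain ⟨r, hr, hrκ⟩ : ∃ r : ℕ, 0 < r ∧ 4 * (ρ : ℝ) / r ≤ κ ^ 2 := by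
    refine ⟨r0 + 1, Nat.succ_pos _, ?_⟩
    have h1 : (0 : ℝ) < ((r0 + 1 : ℕ) : ℝ) := by positivity
    have h2 : (0 : ℝ) < κ ^ 2 := by positivity
    rw [div_le_iff₀ h1]
    rw [div_le_iff₀ h2] at hr0
    push_cast
    nlinarith
  obtain ⟨D, E, τ, N, N0, σ, i, ι, c, s, hA⟩ := hGEOA q f hf ρ n r κ hκ hr
  have hrE : r ≤ E := by have := hA.large; omega
  have hinj : ∀ j < n, Inj N (σ j) (box r) := by
    intro j hj y hy y' hy' v hv v' hv' e
    by_contra hne
    have h1 := hA.sep y hy y' hy' j hj j hj (fun h => hne (Prod.ext_iff.1 h).2)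
    have h2 : dd (σ j y) (σ j y') = dd v' v := by
      have e1 := congrArg Prod.fst e
      have e2 := congrArg Prod.snd e
      simp only [Prod.fst_add, Prod.snd_add] at e1 e2
      simp only [dd]
      omega
    have h3 := dd_box hv' hv
    omega
  have hsep1 : ∀ j < n, ∀ y ∈ N, ∀ y' ∈ N, y ≠ y' → E < dd (σ j y) (σ j y') :=
    fun j hj y hy y' hy' hne => hA.sep y hy y' hy' j hj j hj fun h => hne (Prod.ext_iff.1 h).2
  have hbc : ∀ j, Bd (c j) := fun j => bd_of_le (C := 1) fun x => by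
    have := hA.bands.sq j x
    rw [abs_le]
    constructor <;> nlinarith [sq_nonneg (s j x), sq_nonneg (c j x)]
  have hbs : ∀ j, Bd (s j) := fun j => bd_of_le (C := 1) fun x => by
    have := hA.bands.sq j x
    rw [abs_le]
    constructor <;> nlinarith [sq_nonneg (s j x), sq_nonneg (c j x)]
  have hbf : ∀ k, Bd (f k) := by
    intro k
    obtain ⟨C, hC⟩ := (hf k).isBounded.exists_norm_le
    exact ⟨C, fun x => hC _ (Set.mem_range_self x)⟩
  have hdg : ∀ g x : Z2, dd 0 g ≤ ρ → dd (x - g) x ≤ ρ := by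
    intro g x hg
    have h1 := dd_add_left (x - g) g
    rw [sub_add_cancel] at h1
    rwa [h1]
  have hbg : Bd fun x => 1 - (ι x : ℝ) / (n + 1) := by
    apply bd_of_le (C := 1)
    intro x
    have h1 : (ι x : ℝ) ≤ n := by exact_mod_cast hA.iota x
    have h2 : (0 : ℝ) < (n : ℝ) + 1 := by positivity
    have h3 : (ι x : ℝ) / (n + 1) ≤ 1 := by
      rw [div_le_one h2]; linarith
    have h4 : (0 : ℝ) ≤ (ι x : ℝ) / (n + 1) := by positivity
    rw [abs_le]
    constructor <;> linarith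
  refine ⟨D, τ, N0, VV n r N σ, i, ι, c, s, ?_⟩
  constructor
  · exact hA.tile
  · exact VV_one (Or.inl rfl)
  · -- Vmem
    intro l
    by_cases hl : l = 0 ∨ n < l
    · rw [VV_one hl]; exact one_mem _
    · rw [VV_Vop hl, Vop_eq]
      have hj : l - 1 < n := by omega
      refine sum_mem fun v hv => ?_
      refine SMulMemClass.smul_mem _ (pop_mem hPOP (adm (hinj _ hj) hv) D fun x hx => ?_)
      have h1 := hA.near (x - v) (chi_ne hx) _ hj
      have h2 := dd_add (x - v) (σ (l - 1) (x - v)) v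
      rw [sub_add_cancel] at h2
      rw [h2]; exact h1
  · -- Vnorm
    intro l
    by_cases hl : l = 0 ∨ n < l
    · rw [VV_one hl]
      exact ContinuousLinearMap.norm_id_le
    · rw [VV_Vop hl]
      have hj : l - 1 < n := by omega
      have h1 := hVN N (σ (l - 1)) (fun _ => 1 / (r : ℝ)) (box r) (hinj _ hj)
      have h2 : ∑ v ∈ box r, (1 / (r : ℝ)) ^ 2 = 1 := by
        rw [Finset.sum_const, card_box, nsmul_eq_mul]
        have : (r : ℝ) ≠ 0 := by positivity
        push_cast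
        field_simp
      rw [h2] at h1
      nlinarith [norm_nonneg (Vop N (σ (l - 1)) (fun _ => 1 / (r : ℝ)) (box r))]
  · -- copies
    intro l hl l' hl' u u' hu hu' hs hs'
    have hbu : Bd u := hu
    have hbu' : Bd u' := hu'
    constructor
    · rintro rfl
      by_cases h0 : l = 0
      · rw [VV_one (Or.inl h0), star_one, mul_one, mul_one, mu_mul hPOP hbu hbu']
      · have hn : ¬ (l = 0 ∨ n < l) := by omega
        have hj : l - 1 < n := by omega
        rw [VV_Vop hn]
        exact (hVR N N0 (σ (l - 1)) (σ (l - 1)) r E u u' hr hrE hA.inner hu hu' hs hs'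
          (hsep1 _ hj) (hsep1 _ hj)).1
    · intro hne
      by_cases h0 : l = 0
      · have h0' : ¬ (l' = 0 ∨ n < l') := by omega
        have hj : l' - 1 < n := by omega
        rw [VV_one (Or.inl h0), star_one, mul_one, VV_Vop h0']
        rw [(hVR N N0 (σ (l' - 1)) (σ (l' - 1)) r E u u' hr hrE hA.inner hu hu' hs hs'
          (hsep1 _ hj) (hsep1 _ hj)).2.2 (fun y hy z hz => hA.far y hy _ hj z hz), zero_mul]
      · have hn : ¬ (l = 0 ∨ n < l) := by omega
        have hj : l - 1 < n := by omega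
        by_cases h0' : l' = 0
        · rw [VV_one (Or.inl h0'), mul_one, VV_Vop hn]
          have h3 := (hVR N N0 (σ (l - 1)) (σ (l - 1)) r E u' u hr hrE hA.inner hu' hu hs' hs
            (hsep1 _ hj) (hsep1 _ hj)).2.2 (fun y hy z hz => hA.far y hy _ hj z hz)
          have h4 := congrArg star h3
          rw [star_mul, star_mu hPOP hbu', star_zero] at h4
          rw [mul_assoc, h4, mul_zero]
        · have hn' : ¬ (l' = 0 ∨ n < l') := by omega
          have hj' : l' - 1 < n := by omega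
          rw [VV_Vop hn, VV_Vop hn']
          exact (hVR N N0 (σ (l - 1)) (σ (l' - 1)) r E u u' hr hrE hA.inner hu hu' hs hs'
            (hsep1 _ hj) (hsep1 _ hj')).2.1 (fun y hy y' hy' =>
              hA.sep y hy y' hy' _ hj _ hj' fun h => by
                have := (Prod.ext_iff.1 h).1
                simp only at this
                omega)
  · exact hA.bands
  · exact hA.iota
  · -- gV
    intro l hl u hu hs
    have hbu : Bd u := hu
    apply ent_ext
    intro x y
    rw [ent_mul_mu hPOP hbu, ent_mu_mul hPOP hbg, ent_smul, ent_mul_mu hPOP hbu]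
    by_cases hz : (u y : ℂ) * ent (VV n r N σ l) x y = 0
    · calc (u y : ℂ) * (((1 - (ι x : ℝ) / (n + 1) : ℝ) : ℂ) * ent (VV n r N σ l) x y)
          = ((1 - (ι x : ℝ) / (n + 1) : ℝ) : ℂ) * ((u y : ℂ) * ent (VV n r N σ l) x y) := by ring
        _ = ((1 - (l : ℝ) / (n + 1) : ℝ) : ℂ) * ((u y : ℂ) * ent (VV n r N σ l) x y) := by
            rw [hz]; simp
    · have hu0 : (u y : ℂ) ≠ 0 := left_ne_zero_of_mul hz
      have hV0 : ent (VV n r N σ l) x y ≠ 0 := right_ne_zero_of_mul hz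
      have hy : y ∈ N0 := hs y (by exact_mod_cast hu0)
      have hι : ι x = l := by
        by_cases h0 : l = 0
        · rw [VV_one (Or.inl h0), ent_one] at hV0
          have hxy : x = y := by
            by_contra hxy
            exact hV0 (if_neg hxy)
          rw [hxy, hA.iota0 y hy, h0]
        · have hn : ¬ (l = 0 ∨ n < l) := by omega
          have hj : l - 1 < n := by omega
          rw [VV_Vop hn] at hV0
          obtain ⟨v, hv, hyv, hxv⟩ := ent_Vop_ne hPOP (hinj _ hj) _ x y hV0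
          rw [hxv, hA.iotaj (y - v) hyv _ hj v hv]
          omega
      rw [hι]
      ring
  · exact hA.i_var
  · exact hA.iota_var
  · exact hA.cut
  · -- commV
    intro l hl g hg
    by_cases h0 : l = 0
    · rw [VV_one (Or.inl h0), cm_one, norm_zero]
      exact hκ.le
    · have hn : ¬ (l = 0 ∨ n < l) := by omega
      have hj : l - 1 < n := by omega
      rw [VV_Vop hn]
      have h1 := hVC N (σ (l - 1)) r ρ E hr hA.large (hsep1 _ hj) g hg
      have h2 := h1.trans hrκ
      exact le_of_sq_le_sq h2 hκ.le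
  · intro j g hg
    exact norm_cm_lam hPOP (hbc j) hκ.le fun x => hA.cvar j _ _ (hdg g x hg)
  · intro j g hg
    exact norm_cm_lam hPOP (hbs j) hκ.le fun x => hA.svar j _ _ (hdg g x hg)
  · -- commf
    intro k l
    by_cases hl : l = 0 ∨ n < l
    · rw [VV_one hl, star_one, cm_one]
      exact ⟨rfl, rfl⟩
    · have hj : l - 1 < n := by omega
      rw [VV_Vop hl]
      have h1 : ∀ x y, ent (Vop N (σ (l - 1)) (fun _ => 1 / (r : ℝ)) (box r)) x y ≠ 0 →
          f k x = f k y := by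
        intro x y hxy
        obtain ⟨v, hv, hyv, hxv⟩ := ent_Vop_ne hPOP (hinj _ hj) _ x y hxy
        rw [hxv, hA.same (y - v) hyv _ hj k v hv, sub_add_cancel]
      exact ⟨cm_mulc hPOP (hbf k) _ h1, cm_mulc_star hPOP (hbf k) _ h1⟩

end Pool.Agent.Helper7_RU.R_GEO
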