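import Pool.Agent.Helper7_RU.Stm2

set_option autoImplicit false

open scoped ENNReal Matrix.Norms.L2Operator Matrix
open Pool.Agent.W659.EC

noncomputable section

namespace Pool.Agent.Helper7_RU.R_GEOA

/-- the truncated distance to the boundary -/
def del (τ : Z2 → Z2) (ρ m : ℕ) (x : Z2) : ℕ :=
  sInf {d | d = m ∨ ∃ z ∈ bdry τ ρ, d = dd x z}

theorem del_le (τ : Z2 → Z2) (ρ m : ℕ) (x : Z2) : del τ ρ m x ≤ m :=
  Nat.sInf_le (Or.inl rfl)

theorem del_le_dd (τ : Z2 → Z2) (ρ m : ℕ) (x z : Z2) (hz : z ∈ bdry τ ρ) :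
    del τ ρ m x ≤ dd x z :=
  Nat.sInf_le (Or.inr ⟨z, hz, rfl⟩)

theorem del_ex (τ : Z2 → Z2) (ρ m : ℕ) (x : Z2) (h : del τ ρ m x < m) :
    ∃ z ∈ bdry τ ρ, del τ ρ m x = dd x z := by
  have h1 : del τ ρ m x ∈ {d | d = m ∨ ∃ z ∈ bdry τ ρ, d = dd x z} :=
    Nat.sInf_mem ⟨m, Or.inl rfl⟩
  rcases h1 with h1 | h1
  · omega
  · exact h1

theorem del_tri (τ : Z2 → Z2) (ρ m : ℕ) (x y : Z2) :
    del τ ρ m x ≤ del τ ρ m y + dd x y := by
  rcases lt_or_ge (del τ ρ m y) m with h | h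
  · obtain ⟨z, hz, h1⟩ := del_ex τ ρ m y h
    have h2 := del_le_dd τ ρ m x z hz
    have h3 := dd_tri x y z
    omega
  · have := del_le τ ρ m x
    omega

/-- the values whose supremum is `ι x` -/
def vals (N : Set Z2) (σ : ℕ → Z2 → Z2) (n r L : ℕ) (x : Z2) : Set ℕ :=
  {t | ∃ y ∈ N, ∃ j < n, t = (j + 1) - (dd x (σ j y) - r) / L}

theorem vals_bdd (N : Set Z2) (σ : ℕ → Z2 → Z2) (n r L : ℕ) (x : Z2) :
    BddAbove (vals N σ n r L x) := by
  refine ⟨n, ?_⟩
  rintro t ⟨y, _, j, hj, rfl⟩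
  exact (Nat.sub_le _ _).trans hj

/-- the level `ι` -/
def iot (N : Set Z2) (σ : ℕ → Z2 → Z2) (n r L : ℕ) (x : Z2) : ℕ := sSup (vals N σ n r L x)

theorem le_iot (N : Set Z2) (σ : ℕ → Z2 → Z2) (n r L : ℕ) (x y : Z2) (hy : y ∈ N) (j : ℕ)
    (hj : j < n) : (j + 1) - (dd x (σ j y) - r) / L ≤ iot N σ n r L x :=
  le_csSup (vals_bdd N σ n r L x) ⟨y, hy, j, hj, rfl⟩

theorem iot_le (N : Set Z2) (σ : ℕ → Z2 → Z2) (n r L : ℕ) (x : Z2) (b : ℕ)
    (h : ∀ y ∈ N, ∀ j < n, (j + 1) - (dd x (σ j y) - r) / L ≤ b) : iot N σ n r L x ≤ b := by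
  apply csSup_le'
  rintro t ⟨y, hy, j, hj, rfl⟩
  exact h y hy j hj

theorem box_dd {r : ℕ} {v : Z2} (hv : v ∈ box r) (x : Z2) :
    dd (x + v) x < r ∧ dd (x - v) x < r := by
  rw [box, Finset.mem_product, Finset.mem_Ico, Finset.mem_Ico] at hv
  simp only [dd, Prod.fst_add, Prod.snd_add, Prod.fst_sub, Prod.snd_sub]
  omega

theorem zero_mem_box {r : ℕ} (hr : 0 < r) : (0 : Z2) ∈ box r := by
  rw [box, Finset.mem_product, Finset.mem_Ico, Finset.mem_Ico]
  simp only [Prod.fst_zero, Prod.snd_zero]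
  omega

theorem div_big (a L n : ℕ) (hL : 0 < L) (h : (n + 1) * L ≤ a) : n + 1 ≤ a / L :=
  (Nat.le_div_iff_mul_le hL).mpr h

theorem div_step (a b L : ℕ) (hL : 0 < L) (h : a ≤ b + L) : a / L ≤ b / L + 1 := by
  calc a / L ≤ (b + L) / L := Nat.div_le_div_right h
    _ = b / L + 1 := Nat.add_div_right b hL

/-- the sines -/
def sn (d : Z2 → ℕ) (n L : ℕ) (j : ℕ) (x : Z2) : ℝ :=
  max 0 (min 1 ((((n : ℝ) + 2 - j) * L - d x) / L))

/-- the cosines -/
def cs (d : Z2 → ℕ) (n L : ℕ) (j : ℕ) (x : Z2) : ℝ := Real.sqrt (1 - sn d n L j x ^ 2)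

theorem sn_nonneg (d : Z2 → ℕ) (n L j : ℕ) (x : Z2) : 0 ≤ sn d n L j x := le_max_left _ _

theorem sn_le_one (d : Z2 → ℕ) (n L j : ℕ) (x : Z2) : sn d n L j x ≤ 1 :=
  max_le zero_le_one (min_le_left _ _)

theorem cs_sq (d : Z2 → ℕ) (n L j : ℕ) (x : Z2) : cs d n L j x ^ 2 = 1 - sn d n L j x ^ 2 := by
  apply Real.sq_sqrt
  have h1 := sn_nonneg d n L j x
  have h2 := sn_le_one d n L j x
  nlinarith

theorem cs_nonneg (d : Z2 → ℕ) (n L j : ℕ) (x : Z2) : 0 ≤ cs d n L j x := Real.sqrt_nonneg _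

theorem sn_var (d : Z2 → ℕ) (n L j : ℕ) (hL : 0 < L) (x y : Z2) :
    |sn d n L j x - sn d n L j y| ≤ |(d x : ℝ) - d y| / L := by
  have hL0 : (0 : ℝ) < L := by exact_mod_cast hL
  have h1 : |sn d n L j x - sn d n L j y| ≤
      |(min 1 ((((n : ℝ) + 2 - j) * L - d x) / L)) - (min 1 ((((n : ℝ) + 2 - j) * L - d y) / L))| := by
    have := abs_max_sub_max_le_abs (min 1 ((((n : ℝ) + 2 - j) * L - d x) / L))
      (min 1 ((((n : ℝ) + 2 - j) * L - d y) / L)) 0
    rw [max_comm _ (0 : ℝ), max_comm _ (0 : ℝ)] at this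
    exact this
  have h2 := abs_min_sub_min_le_max (1 : ℝ) ((((n : ℝ) + 2 - j) * L - d x) / L) 1
    ((((n : ℝ) + 2 - j) * L - d y) / L)
  rw [sub_self, abs_zero, max_eq_right (abs_nonneg _)] at h2
  have h3 : (((n : ℝ) + 2 - j) * L - d x) / L - (((n : ℝ) + 2 - j) * L - d y) / L =
      -(((d x : ℝ) - d y) / L) := by
    field_simp
    ring
  rw [h3, abs_neg, abs_div, abs_of_pos hL0] at h2
  exact h1.trans h2

theorem cs_var (d : Z2 → ℕ) (n L j : ℕ) (x y : Z2) :
    (cs d n L j x - cs d n L j y) ^ 2 ≤ 2 * |sn d n L j x - sn d n L j y| := by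
  have hc : 0 ≤ cs d n L j x := cs_nonneg d n L j x
  have hc' : 0 ≤ cs d n L j y := cs_nonneg d n L j y
  have h1 : (cs d n L j x - cs d n L j y) ^ 2 ≤ |cs d n L j x ^ 2 - cs d n L j y ^ 2| := by
    rw [sq_sub_sq, abs_mul, ← sq_abs (cs d n L j x - cs d n L j y), sq]
    apply mul_le_mul_of_nonneg_right _ (abs_nonneg _)
    rw [abs_of_nonneg (add_nonneg hc hc')]
    rw [abs_le]
    constructor <;> linarith
  refine h1.trans ?_
  rw [cs_sq, cs_sq]
  have h2 : 1 - sn d n L j x ^ 2 - (1 - sn d n L j y ^ 2) =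
      -((sn d n L j x + sn d n L j y) * (sn d n L j x - sn d n L j y)) := by ring
  rw [h2, abs_neg, abs_mul]
  apply mul_le_mul_of_nonneg_right _ (abs_nonneg _)
  have h3 := sn_nonneg d n L j x
  have h4 := sn_nonneg d n L j y
  have h5 := sn_le_one d n L j x
  have h6 := sn_le_one d n L j y
  rw [abs_of_nonneg (by linarith)]
  linarith

theorem t_GEOA (hCMB : StCMB) : StGEOA := by
  intro q f hf ρ n r κ hκ hr
  -- the thickness of the bands
  obtain ⟨L0, hL0⟩ := exists_nat_ge (max ((ρ : ℝ) / κ) (2 * ρ / κ ^ 2))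
  set L : ℕ := max (max 1 ρ) L0 with hLd
  have hL1 : 1 ≤ L := (le_max_left 1 ρ).trans (le_max_left _ _)
  have hLρ : ρ ≤ L := (le_max_right 1 ρ).trans (le_max_left _ _)
  have hLL0 : (L0 : ℝ) ≤ L := by exact_mod_cast le_max_right (max 1 ρ) L0
  have hLpos : (0 : ℝ) < L := by exact_mod_cast hL1
  have hLκ : (ρ : ℝ) / L ≤ κ := by
    have h1 : (ρ : ℝ) / κ ≤ L := ((le_max_left _ _).trans hL0).trans hLL0
    rw [div_le_iff₀ hκ] at h1
    rw [div_le_iff₀ hLpos]
    linarith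
  have hLκ2 : 2 * ((ρ : ℝ) / L) ≤ κ ^ 2 := by
    have h1 : 2 * (ρ : ℝ) / κ ^ 2 ≤ L := ((le_max_right _ _).trans hL0).trans hLL0
    rw [div_le_iff₀ (by positivity)] at h1
    rw [← mul_div_assoc, div_le_iff₀ hLpos]
    linarith
  set L' : ℕ := max 1 ρ with hL'd
  have hL'1 : 0 < L' := le_max_left 1 ρ
  have hL'ρ : ρ ≤ L' := le_max_right 1 ρ
  set E : ℕ := 2 * (r + ρ) + 2 * (r + (n + 1) * L' + ρ) + 1 with hE
  set W : ℕ := (n + 1) * L + r + 2 * ρ + 1 with hW
  -- the types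
  have : ∀ k, Finite (Set.range (f k)) := fun k => (hf k).to_subtype
  let P : Z2 → (∀ k : Fin q, ↥(box r) → ↥(Set.range (f k))) :=
    fun x k v => ⟨f k (x + v), x + v, rfl⟩
  obtain ⟨D, τ, σ, h1, h2, h3⟩ := hCMB _ P n W E
  set d : Z2 → ℕ := del τ ρ ((n + 1) * L) with hd
  have hdle : ∀ x, d x ≤ (n + 1) * L := fun x => del_le τ ρ _ x
  have hdz : ∀ x z, z ∈ bdry τ ρ → d x ≤ dd x z := fun x z hz => del_le_dd τ ρ _ x z hz
  have hdex : ∀ x, d x < (n + 1) * L → ∃ z ∈ bdry τ ρ, d x = dd x z :=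
    fun x h => del_ex τ ρ _ x h
  have hdt : ∀ x y, d x ≤ d y + dd x y := fun x y => del_tri τ ρ _ x y
  have hdv : ∀ x y, dd x y ≤ ρ → |(d x : ℝ) - d y| ≤ ρ := by
    intro x y hxy
    have h4 : (d x : ℝ) ≤ d y + ρ := by exact_mod_cast (hdt x y).trans (by omega)
    have h5 : (d y : ℝ) ≤ d x + ρ := by
      have := hdt y x
      rw [dd_comm] at this
      exact_mod_cast this.trans (by omega)
    rw [abs_le]
    constructor <;> linarith
  have hsv : ∀ j x y, dd x y ≤ ρ → |sn d n L j x - sn d n L j y| ≤ (ρ : ℝ) / L := by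
    intro j x y hxy
    exact (sn_var d n L j hL1 x y).trans (div_le_div_of_nonneg_right (hdv x y hxy) hLpos.le)
  have hinner : ∀ x, d x < (n + 1) * L → ∀ v ∈ box r, x - v ∈ bdry τ W := by
    intro x hx v hv
    obtain ⟨z, ⟨y, hzy, hτ⟩, hz⟩ := hdex x hx
    have h4 := (box_dd hv x).2
    have h5 := dd_tri (x - v) x z
    have h6 := dd_tri (x - v) z y
    by_cases h7 : τ z = τ (x - v)
    · exact ⟨y, by omega, fun h => hτ (h.trans h7.symm)⟩
    · exact ⟨z, by omega, h7⟩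
  have hN0N : ∀ x, d x < (n + 1) * L → x ∈ bdry τ W := by
    intro x hx
    have := hinner x hx 0 (zero_mem_box hr)
    rwa [sub_zero] at this
  have hEn : r + (n + 1) * L' ≤ E := by omega
  have hEn2 : 2 * r + (n + 1) * L' ≤ E := by omega
  have hiota0 : ∀ x, x ∈ bdry τ W → iot (bdry τ W) σ n r L' x = 0 := by
    intro x hx
    apply Nat.le_zero.mp
    apply iot_le
    intro y hy j hj
    have h4 := (h2 y hy j hj).2.2 x hx
    rw [dd_comm] at h4
    have h5 := div_big (dd x (σ j y) - r) L' n hL'1 (by omega)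
    omega
  have hcut : ∀ x y, dd x y ≤ ρ → τ x ≠ τ y → d x = 0 := by
    intro x y hxy hτ
    have h4 := hdz x x ⟨y, hxy, fun h => hτ h.symm⟩
    rw [dd_self] at h4
    omega
  refine ⟨D, E, τ, bdry τ W, {x | d x < (n + 1) * L}, σ, fun x => (n + 1) - d x / L,
    iot (bdry τ W) σ n r L', cs d n L, sn d n L, ?_⟩
  constructor
  · exact h1
  · omega
  · intro x hx v hv
    exact hinner x hx v hv
  · intro y hy j hj
    exact (h2 y hy j hj).2.1
  · intro y hy j hj z hz
    exact (h2 y hy j hj).2.2 z (hN0N z hz)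
  · intro y hy j hj k v hv
    have h4 := (h2 y hy j hj).1
    have h5 := congrFun (congrFun h4 k) ⟨v, hv⟩
    exact congrArg Subtype.val h5
  · intro y hy y' hy' j hj j' hj' hne
    exact h3 y hy y' hy' j hj j' hj' hne
  · constructor
    · intro x
      exact Nat.sub_le _ _
    · intro x hx
      change d x < (n + 1) * L
      by_contra hlt
      push Not at hlt
      apply hx
      have := div_big (d x) L n hL1 hlt
      change (n + 1) - d x / L = 0
      omega
    · exact fun j x => cs_nonneg d n L j x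
    · exact fun j x => sn_nonneg d n L j x
    · intro j x
      rw [cs_sq]
      ring
    · intro j x hj hi
      change (n + 1) - d x / L < j at hi
      have h4 : n + 2 ≤ j + d x / L := by omega
      have h5 : ((d x / L : ℕ) : ℝ) * L ≤ d x := by exact_mod_cast Nat.div_mul_le_self (d x) L
      have h6 : (n : ℝ) + 2 ≤ j + ((d x / L : ℕ) : ℝ) := by exact_mod_cast h4
      have h7 : ((n : ℝ) + 2 - j) * L ≤ ((d x / L : ℕ) : ℝ) * L :=
        mul_le_mul_of_nonneg_right (by linarith) hLpos.le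
      have h8 : (((n : ℝ) + 2 - j) * L - d x) / L ≤ 0 :=
        div_nonpos_of_nonpos_of_nonneg (by linarith) hLpos.le
      exact max_eq_left ((min_le_right _ _).trans h8)
    · intro j x hj hi
      change j < (n + 1) - d x / L at hi
      have h4 : j + d x / L + 1 ≤ n + 1 := by omega
      have h5 : d x < (d x / L + 1) * L := by
        have := Nat.lt_div_mul_add (a := d x) (b := L) hL1
        rw [add_mul, one_mul]
        exact this
      have h5' : (d x : ℝ) < (((d x / L : ℕ) : ℝ) + 1) * L := by exact_mod_cast h5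
      have h6 : (j : ℝ) + ((d x / L : ℕ) : ℝ) + 1 ≤ n + 1 := by exact_mod_cast h4
      have h7 : (((d x / L : ℕ) : ℝ) + 1) * L ≤ ((n : ℝ) + 1 - j) * L :=
        mul_le_mul_of_nonneg_right (by linarith) hLpos.le
      have h8 : 1 ≤ (((n : ℝ) + 2 - j) * L - d x) / L := by
        rw [le_div_iff₀ hLpos]
        nlinarith
      have h9 : sn d n L j x = 1 := by
        rw [sn, min_eq_left h8]
        exact max_eq_right zero_le_one
      rw [cs, h9]
      simp
  · intro x
    apply iot_le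
    intro y hy j hj
    exact (Nat.sub_le _ _).trans hj
  · intro x hx
    exact hiota0 x (hN0N x hx)
  · intro y hy j hj v hv
    have hb := (box_dd hv (σ j y)).1
    apply le_antisymm
    · apply iot_le
      intro y' hy' j' hj'
      by_cases hne : (j, y) = (j', y')
      · have h4 : j = j' := congrArg Prod.fst hne
        rw [h4]
        exact Nat.sub_le _ _
      · have h4 := h3 y hy y' hy' j hj j' hj' hne
        have h5 := dd_tri (σ j y) (σ j y + v) (σ j' y')
        rw [dd_comm (σ j y) (σ j y + v)] at h5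
        have h6 := div_big (dd (σ j y + v) (σ j' y') - r) L' n hL'1 (by omega)
        omega
    · have h4 := le_iot (bdry τ W) σ n r L' (σ j y + v) y hy j hj
      have h5 : dd (σ j y + v) (σ j y) - r = 0 := by omega
      rw [h5, Nat.zero_div] at h4
      exact h4
  · intro x y hxy
    change (n + 1) - d x / L ≤ (n + 1) - d y / L + 1
    have h4 := hdt y x
    rw [dd_comm] at h4
    have h5 := div_step (d y) (d x) L hL1 (by omega)
    omega
  · intro x y hxy
    apply iot_le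
    intro z hz j hj
    have h4 := le_iot (bdry τ W) σ n r L' y z hz j hj
    have h5 := dd_tri y x (σ j z)
    rw [dd_comm y x] at h5
    have h6 := div_step (dd y (σ j z) - r) (dd x (σ j z) - r) L' hL'1 (by omega)
    omega
  · intro x y hxy hτ
    have h4 := hcut x y hxy hτ
    constructor
    · change (n + 1) - d x / L = n + 1
      rw [h4, Nat.zero_div]
      rfl
    · apply hiota0
      apply hN0N
      rw [h4]
      positivity
  · intro j x y hxy
    apply abs_le_of_sq_le_sq _ hκ.le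
    have h4 := cs_var d n L j x y
    have h5 := hsv j x y hxy
    linarith
  · intro j x y hxy
    exact (hsv j x y hxy).trans hLκ

end Pool.Agent.Helper7_RU.R_GEOA
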