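import Pool.Agent.Helper7_RU.Stm

set_option autoImplicit false

noncomputable section

namespace Pool.Agent.Helper7_RU.R_GRD

theorem t_GRD : StGRD := by
  classical
  intro D Y cand confl c rank A hsym hfin hA hcard
  choose s hs1 hs2 using hfin
  let lt : D → D → Prop := fun a b => rank a < rank b ∨ (rank a = rank b ∧ WellOrderingRel a b)
  have hwf : WellFounded lt := by
    have h := (Prod.Lex.instIsWellFounded (r := ((· < ·) : ℕ → ℕ → Prop))
      (s := (WellOrderingRel : D → D → Prop))).wf
    have h2 := InvImage.wf (fun d : D => (rank d, d)) h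
    refine Subrelation.wf ?_ h2
    intro a b hab
    rcases hab with hab | ⟨h1, h3⟩
    · exact Prod.Lex.left _ _ hab
    · change Prod.Lex _ _ (rank a, a) (rank b, b)
      rw [h1]
      exact Prod.Lex.right _ h3
  have hne : ∀ d, (cand d).Nonempty := fun d =>
    Finset.card_pos.1 (lt_of_le_of_lt (Nat.zero_le _) (hcard d))
  let F : ∀ d : D, (∀ d', lt d' d → Y) → Y := fun d g =>
    if h : ∃ y ∈ cand d, ∀ d' (hd : lt d' d), ¬ confl (g d' hd) y then h.choose
    else (hne d).choose
  let f : D → Y := hwf.fix F
  have hf : ∀ d, f d = F d fun d' _ => f d' := fun d => hwf.fix_eq F d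
  have hmem : ∀ d, f d ∈ cand d := by
    intro d
    rw [hf d]
    simp only [F]
    split_ifs with h
    · exact h.choose_spec.1
    · exact (hne d).choose_spec
  have hgood : ∀ d d', lt d' d → ¬ confl (f d') (f d) := by
    intro d
    have hex : ∃ y ∈ cand d, ∀ d' (hd : lt d' d), ¬ confl (f d') y := by
      by_contra hcon
      push Not at hcon
      have hsub : cand d ⊆ (A d).biUnion fun d' => s (f d') := by
        intro y hy
        obtain ⟨d', hd, hc⟩ := hcon y hy
        rw [Finset.mem_biUnion]
        refine ⟨d', hA d d' ?_ ?_ ⟨y, hy, f d', hmem d', hc⟩, hs2 _ _ hc⟩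
        · rintro rfl
          exact hwf.irrefl.irrefl _ hd
        · rcases hd with hd | hd
          · exact hd.le
          · exact hd.1.le
      have h1 := Finset.card_le_card hsub
      have h2 : ((A d).biUnion fun d' => s (f d')).card ≤ (A d).card * c :=
        Finset.card_biUnion_le_card_mul _ _ _ fun d' _ => hs1 _
      have h3 := hcard d
      rw [mul_comm] at h3
      omega
    intro d' hd
    have : f d = hex.choose := by
      rw [hf d]
      simp only [F]
      rw [dif_pos hex]
    rw [this]
    exact hex.choose_spec.2 d' hd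
  refine ⟨f, hmem, fun d d' hne' => ?_⟩
  rcases lt_trichotomy (rank d) (rank d') with h | h | h
  · exact hgood d' d (Or.inl h)
  · rcases trichotomous_of (WellOrderingRel : D → D → Prop) d d' with h2 | h2 | h2
    · exact hgood d' d (Or.inr ⟨h, h2⟩)
    · exact absurd h2 hne'
    · exact fun hc => hgood d d' (Or.inr ⟨h.symm, h2⟩) (hsym _ _ hc)
  · exact fun hc => hgood d d' (Or.inl h) (hsym _ _ hc)

end Pool.Agent.Helper7_RU.R_GRD
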