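import Pool.Agent.Helper7_RU.Stm2

set_option autoImplicit false

open scoped ENNReal Matrix.Norms.L2Operator Matrix
open Pool.Agent.W659.EC

noncomputable section

namespace Pool.Agent.Helper7_RU.R_LAD

variable {X : Type}

/-- bounded functions supported in `N0` -/
def Sp (N0 : Set X) (p : X → ℝ) : Prop := (∃ C, ∀ x, |p x| ≤ C) ∧ ∀ x, p x ≠ 0 → x ∈ N0

theorem Sp.bd {N0 : Set X} {p : X → ℝ} (h : Sp N0 p) : Bd p := h.1

theorem Sp.mul {N0 : Set X} {p q : X → ℝ} (hp : Sp N0 p) (hq : Sp N0 q) :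
    Sp N0 fun x => p x * q x :=
  ⟨hp.bd.rmul hq.bd, fun x hx => hp.2 x fun h0 => hx (by simp [h0])⟩

theorem Sp.add {N0 : Set X} {p q : X → ℝ} (hp : Sp N0 p) (hq : Sp N0 q) :
    Sp N0 fun x => p x + q x := by
  refine ⟨hp.bd.radd hq.bd, fun x hx => ?_⟩
  by_cases h0 : p x = 0
  · exact hq.2 x fun h1 => hx (by simp [h0, h1])
  · exact hp.2 x h0

theorem Sp.sub {N0 : Set X} {p q : X → ℝ} (hp : Sp N0 p) (hq : Sp N0 q) :
    Sp N0 fun x => p x - q x := by
  refine ⟨hp.bd.rsub hq.bd, fun x hx => ?_⟩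
  by_cases h0 : p x = 0
  · exact hq.2 x fun h1 => hx (by simp [h0, h1])
  · exact hp.2 x h0

/-- the operator carrying the function `p` from the copy `b` to the copy `a` -/
def K (V : ℕ → Op X) (a b : ℕ) (p : X → ℝ) : Op X := V a * mu p * star (V b)

theorem K_mul_eq {n : ℕ} {V : ℕ → Op X} {N0 : Set X} (hC : Copies n V N0) {b : ℕ} (hb : b ≤ n)
    (a d : ℕ) {p q : X → ℝ} (hp : Sp N0 p) (hq : Sp N0 q) :
    K V a b p * K V b d q = K V a d fun x => p x * q x := by
  have h1 := (hC b hb b hb p q hp.1 hq.1 hp.2 hq.2).1 rfl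
  have h2 : K V a b p * K V b d q = V a * (mu p * star (V b) * V b * mu q) * star (V d) := by
    simp only [K, mul_assoc]
  rw [h2, h1, K]

theorem K_mul_ne {n : ℕ} {V : ℕ → Op X} {N0 : Set X} (hC : Copies n V N0) {b b' : ℕ} (hb : b ≤ n)
    (hb' : b' ≤ n) (hne : b ≠ b') (a d : ℕ) {p q : X → ℝ} (hp : Sp N0 p) (hq : Sp N0 q) :
    K V a b p * K V b' d q = 0 := by
  have h1 := (hC b hb b' hb' p q hp.1 hq.1 hp.2 hq.2).2 hne
  have h2 : K V a b p * K V b' d q = V a * (mu p * star (V b) * V b' * mu q) * star (V d) := by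
    simp only [K, mul_assoc]
  rw [h2, h1, mul_zero, zero_mul]

theorem K_add (h : StPOP) (V : ℕ → Op X) (a b : ℕ) {p q : X → ℝ} (hp : Bd p) (hq : Bd q) :
    K V a b p + K V a b q = K V a b fun x => p x + q x := by
  rw [K, K, K, ← mu_add h hp hq, mul_add, add_mul]

theorem K_sub (h : StPOP) (V : ℕ → Op X) (a b : ℕ) {p q : X → ℝ} (hp : Bd p) (hq : Bd q) :
    K V a b p - K V a b q = K V a b fun x => p x - q x := by
  rw [K, K, K, ← mu_sub h hp hq, mul_sub, sub_mul]

theorem mu_zero (h : StPOP) {p : X → ℝ} (hp : ∀ x, p x = 0) : mu p = 0 := by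
  have h0 : Bd p := ⟨0, fun x => by rw [hp x, norm_zero]⟩
  have h1 := mu_sub h h0 h0
  rw [sub_self] at h1
  rw [h1]
  congr 1
  funext x
  rw [hp x, sub_zero]

theorem K_zero (h : StPOP) (V : ℕ → Op X) (a b : ℕ) {p : X → ℝ} (hp : ∀ x, p x = 0) :
    K V a b p = 0 := by
  rw [K, mu_zero h hp, mul_zero, zero_mul]

theorem K_star (h : StPOP) (V : ℕ → Op X) (a b : ℕ) {p : X → ℝ} (hp : Bd p) :
    star (K V a b p) = K V b a p := by
  rw [K, K, star_mul, star_mul, star_star, star_mu h hp, mul_assoc]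

/-- the explicit form of the rotations -/
def Ex (V : ℕ → Op X) (l l' : ℕ) (p s : X → ℝ) : Op X :=
  1 + K V l l p + K V l' l' p + K V l l' s - K V l' l s

theorem rot_Ex (V : ℕ → Op X) (l l' : ℕ) (c s : X → ℝ) :
    rot (V l) (V l') c s = Ex V l' l (fun x => c x - 1) s := by
  simp only [rot, Ex, K]
  abel

theorem star_Ex (h : StPOP) (V : ℕ → Op X) (l l' : ℕ) {p s : X → ℝ} (hp : Bd p) (hs : Bd s) :
    star (Ex V l l' p s) = Ex V l' l p s := by
  simp only [Ex, star_sub, star_add, star_one, K_star h V _ _ hp, K_star h V _ _ hs]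
  abel

theorem Ex_mul (h : StPOP) {n : ℕ} {V : ℕ → Op X} {N0 : Set X} (hC : Copies n V N0) {l l' : ℕ}
    (hl : l ≤ n) (hl' : l' ≤ n) (hne : l ≠ l') {p s : X → ℝ} (hp : Sp N0 p) (hs : Sp N0 s)
    (hps : ∀ x, (p x + 1) ^ 2 + s x ^ 2 = 1) : Ex V l l' p s * Ex V l' l p s = 1 := by
  have hne' : l' ≠ l := hne.symm
  have z1 : K V l l p + K V l l p + K V l l (fun x => p x * p x) + K V l l (fun x => s x * s x)
      = 0 := by
    rw [K_add h V l l hp.bd hp.bd, K_add h V l l (hp.bd.radd hp.bd) (hp.mul hp).bd,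
      K_add h V l l ((hp.bd.radd hp.bd).radd (hp.mul hp).bd) (hs.mul hs).bd]
    refine K_zero h V l l fun x => ?_
    have := hps x
    nlinarith
  have z2 : K V l' l' p + K V l' l' p + K V l' l' (fun x => p x * p x)
      + K V l' l' (fun x => s x * s x) = 0 := by
    rw [K_add h V l' l' hp.bd hp.bd, K_add h V l' l' (hp.bd.radd hp.bd) (hp.mul hp).bd,
      K_add h V l' l' ((hp.bd.radd hp.bd).radd (hp.mul hp).bd) (hs.mul hs).bd]
    refine K_zero h V l' l' fun x => ?_
    have := hps x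
    nlinarith
  have z3 : (fun x => p x * s x) = fun x => s x * p x := by
    funext x; ring
  simp only [Ex, mul_add, add_mul, mul_sub, sub_mul, mul_one, one_mul]
  simp only [K_mul_eq hC hl _ _ hp hp, K_mul_eq hC hl' _ _ hp hp, K_mul_eq hC hl _ _ hp hs,
    K_mul_eq hC hl' _ _ hp hs, K_mul_eq hC hl _ _ hs hp, K_mul_eq hC hl' _ _ hs hp,
    K_mul_eq hC hl _ _ hs hs, K_mul_eq hC hl' _ _ hs hs,
    K_mul_ne hC hl hl' hne _ _ hp hp, K_mul_ne hC hl' hl hne' _ _ hp hp,
    K_mul_ne hC hl hl' hne _ _ hp hs, K_mul_ne hC hl' hl hne' _ _ hp hs,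
    K_mul_ne hC hl hl' hne _ _ hs hp, K_mul_ne hC hl' hl hne' _ _ hs hp,
    K_mul_ne hC hl hl' hne _ _ hs hs, K_mul_ne hC hl' hl hne' _ _ hs hs, z3]
  rw [← sub_eq_zero]
  have z4 : (K V l l p + K V l l p + K V l l (fun x => p x * p x)
      + K V l l (fun x => s x * s x)) + (K V l' l' p + K V l' l' p
      + K V l' l' (fun x => p x * p x) + K V l' l' (fun x => s x * s x)) = 0 := by
    rw [z1, z2, add_zero]
  rw [← z4]
  abel

theorem t_ROT (hPOP : StPOP) : StROT := by
  intro X n V N0 hC l hl l' hl' hne c s hc hs hcs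
  have hbc : Bd c := ⟨1, fun x => by
    rw [Real.norm_eq_abs]; exact abs_le_one_iff_mul_self_le_one.2 (by nlinarith [hcs x, sq_nonneg (s x)])⟩
  have hbs : Bd s := ⟨1, fun x => by
    rw [Real.norm_eq_abs]; exact abs_le_one_iff_mul_self_le_one.2 (by nlinarith [hcs x, sq_nonneg (c x)])⟩
  have hp : Sp N0 fun x => c x - 1 :=
    ⟨hbc.rsub (Bd.rconst 1), fun x hx => hc x fun h1 => hx (by simp [h1])⟩
  have hs' : Sp N0 s := ⟨hbs, hs⟩
  have hps : ∀ x, ((fun x => c x - 1) x + 1) ^ 2 + s x ^ 2 = 1 := fun x => by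
    simpa using hcs x
  rw [rot_Ex, star_Ex hPOP V l' l hp.bd hs'.bd]
  exact ⟨Ex_mul hPOP hC hl hl' hne hp hs' hps, Ex_mul hPOP hC hl' hl hne.symm hp hs' hps⟩


section

variable {n : ℕ} {V : ℕ → Op X} {N0 : Set X} {i : X → ℕ} {c s : ℕ → X → ℝ}

theorem bd_one_of_sq {a b : X → ℝ} (h : ∀ x, a x ^ 2 + b x ^ 2 = 1) : Bd a :=
  ⟨1, fun x => by
    rw [Real.norm_eq_abs]
    exact abs_le_one_iff_mul_self_le_one.2 (by nlinarith [h x, sq_nonneg (b x)])⟩

theorem sp_s (hB : Bands n N0 i c s) {j : ℕ} (hj : 1 ≤ j) : Sp N0 (s j) := by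
  refine ⟨bd_one_of_sq (b := c j) fun x => by rw [add_comm]; exact hB.sq j x, fun x hx => ?_⟩
  apply hB.supp x
  intro h0
  exact hx (hB.szero j x hj (by omega))

theorem sp_p (hB : Bands n N0 i c s) {j : ℕ} (hj : 1 ≤ j) : Sp N0 fun x => c j x - 1 := by
  have hc : Bd (c j) := bd_one_of_sq (b := s j) fun x => hB.sq j x
  refine ⟨hc.rsub (Bd.rconst 1), fun x hx => ?_⟩
  refine (sp_s hB hj).2 x fun h0 => hx ?_
  have h1 := hB.sq j x
  rw [h0] at h1
  have h2 := hB.c0 j x
  have h3 : c j x = 1 := by nlinarith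
  simp [h3]

open Classical in
/-- the indicator of `l < i` -/
def chi (i : X → ℕ) (l : ℕ) (x : X) : ℝ := if l < i x then 1 else 0

/-- the truncated difference -/
def mm (i : X → ℕ) (j : ℕ) (x : X) : ℝ := ((i x - j : ℕ) : ℝ)

theorem sp_chi (hB : Bands n N0 i c s) (l : ℕ) : Sp N0 (chi i l) := by
  refine ⟨⟨1, fun x => ?_⟩, fun x hx => ?_⟩
  · unfold chi; split_ifs <;> simp
  · apply hB.supp x
    intro h0
    apply hx
    unfold chi
    rw [if_neg (by omega)]

theorem sp_mm (hB : Bands n N0 i c s) (j : ℕ) : Sp N0 (mm i j) := by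
  refine ⟨⟨(n + 1 : ℕ), fun x => ?_⟩, fun x hx => ?_⟩
  · unfold mm
    rw [abs_of_nonneg (Nat.cast_nonneg _)]
    have := hB.le x
    exact_mod_cast (by omega : i x - j ≤ n + 1)
  · apply hB.supp x
    intro h0
    apply hx
    unfold mm
    rw [h0]
    simp

/-- the sum of the lowered copies -/
def Sg (V : ℕ → Op X) (i : X → ℕ) (j : ℕ) : Op X := ∑ l ∈ Finset.range j, K V l l (chi i l)

/-- the intermediate operators -/
def Ga (V : ℕ → Op X) (i : X → ℕ) (g : X → ℝ) (n : ℕ) (j : ℕ) : Op X :=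
  mu g - ((1 / ((n : ℝ) + 1) : ℝ) : ℂ) • (Sg V i j + K V j j (mm i j))

/-- the numbers `1 - l/(n+1)` -/
def tt (n l : ℕ) : ℝ := 1 - (l : ℝ) / (n + 1)

theorem mu_K {g : X → ℝ} {a : ℕ} {f : X → ℝ}
    (hg : mu g * V a * mu f = ((1 - (a : ℝ) / (n + 1) : ℝ) : ℂ) • (V a * mu f)) (b : ℕ) :
    mu g * K V a b f = ((tt n a : ℝ) : ℂ) • K V a b f := by
  have h1 : mu g * K V a b f = (mu g * V a * mu f) * star (V b) := by
    simp only [K, mul_assoc]
  rw [h1, hg, K, tt, smul_mul_assoc]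

theorem K_mu (hPOP : StPOP) {g : X → ℝ} {b : ℕ} {f : X → ℝ} (hgb : Bd g) (hf : Bd f)
    (hg : mu g * V b * mu f = ((1 - (b : ℝ) / (n + 1) : ℝ) : ℂ) • (V b * mu f)) (a : ℕ) :
    K V a b f * mu g = ((tt n b : ℝ) : ℂ) • K V a b f := by
  have h1 : K V a b f * mu g = star (mu g * K V b a f) := by
    rw [star_mul, K_star hPOP V b a hf, star_mu hPOP hgb]
  rw [h1, mu_K hg a, star_smul, K_star hPOP V b a hf]
  congr 1
  exact Complex.conj_ofReal _

theorem tt_sub (n j : ℕ) : tt n j - tt n (j + 1) = 1 / ((n : ℝ) + 1) := by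
  unfold tt
  have : (n : ℝ) + 1 ≠ 0 := by positivity
  push_cast
  field_simp
  ring

theorem step (hPOP : StPOP) (hC : Copies n V N0) (hB : Bands n N0 i c s) {g : X → ℝ}
    (hgb : Bd g)
    (hg : ∀ l ≤ n, ∀ f : X → ℝ, (∃ C, ∀ x, |f x| ≤ C) → (∀ x, f x ≠ 0 → x ∈ N0) →
      mu g * V l * mu f = ((1 - (l : ℝ) / (n + 1) : ℝ) : ℂ) • (V l * mu f))
    {j : ℕ} (hj : j + 1 ≤ n) :
    Ex V (j + 1) j (fun x => c (j + 1) x - 1) (s (j + 1)) * Ga V i g n j =
      Ga V i g n (j + 1) * Ex V (j + 1) j (fun x => c (j + 1) x - 1) (s (j + 1)) := by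
  have hj0 : j ≤ n := by omega
  have hne : j ≠ j + 1 := by omega
  have hne' : j + 1 ≠ j := by omega
  set p : X → ℝ := fun x => c (j + 1) x - 1 with hpdef
  set q : X → ℝ := s (j + 1) with hqdef
  have hp : Sp N0 p := sp_p hB (by omega)
  have hq : Sp N0 q := sp_s hB (by omega)
  have hm := sp_mm hB j
  have hm' := sp_mm hB (j + 1)
  have hx := sp_chi hB j
  set δ : ℂ := ((1 / ((n : ℝ) + 1) : ℝ) : ℂ) with hδ
  -- commutation with mu g
  have e1 : ∀ (a b : ℕ), a ≤ n → b ≤ n → ∀ f, Sp N0 f →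
      K V a b f * mu g - mu g * K V a b f = ((tt n b - tt n a : ℝ) : ℂ) • K V a b f := by
    intro a b ha hb f hf
    rw [K_mu hPOP hgb hf.bd (hg b hb f hf.1 hf.2) a, mu_K (hg a ha f hf.1 hf.2) b, ← sub_smul]
    push_cast
    rfl
  have e2 : Ex V (j + 1) j p q * mu g - mu g * Ex V (j + 1) j p q =
      δ • (K V (j + 1) j q + K V j (j + 1) q) := by
    have h1 := e1 (j + 1) (j + 1) hj hj p hp
    have h2 := e1 j j hj0 hj0 p hp
    have h3 := e1 (j + 1) j hj hj0 q hq
    have h4 := e1 j (j + 1) hj0 hj q hq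
    rw [sub_self] at h1 h2
    rw [tt_sub] at h3
    have h5 : tt n (j + 1) - tt n j = - (1 / ((n : ℝ) + 1)) := by rw [← tt_sub n j]; ring
    rw [h5] at h4
    have h6 : Ex V (j + 1) j p q * mu g - mu g * Ex V (j + 1) j p q =
      (K V (j + 1) (j + 1) p * mu g - mu g * K V (j + 1) (j + 1) p)
      + (K V j j p * mu g - mu g * K V j j p)
      + (K V (j + 1) j q * mu g - mu g * K V (j + 1) j q)
      - (K V j (j + 1) q * mu g - mu g * K V j (j + 1) q) := by
      simp only [Ex, mul_add, add_mul, mul_sub, sub_mul, mul_one, one_mul]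
      abel
    rw [h6, h1, h2, h3, h4, hδ]
    push_cast
    simp only [zero_smul, neg_smul, smul_add, zero_add, sub_neg_eq_add]
  -- commutation with the lower copies
  have e3 : Ex V (j + 1) j p q * Sg V i j = Sg V i j := by
    unfold Sg
    rw [Finset.mul_sum]
    refine Finset.sum_congr rfl fun l hl => ?_
    rw [Finset.mem_range] at hl
    have hl0 : l ≤ n := by omega
    have hc := sp_chi hB l
    simp only [Ex, add_mul, sub_mul, one_mul]
    rw [K_mul_ne hC hj hl0 (by omega) _ _ hp hc, K_mul_ne hC hj0 hl0 (by omega) _ _ hp hc,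
      K_mul_ne hC hj0 hl0 (by omega) _ _ hq hc, K_mul_ne hC hj hl0 (by omega) _ _ hq hc]
    simp
  have e4 : Sg V i j * Ex V (j + 1) j p q = Sg V i j := by
    unfold Sg
    rw [Finset.sum_mul]
    refine Finset.sum_congr rfl fun l hl => ?_
    rw [Finset.mem_range] at hl
    have hl0 : l ≤ n := by omega
    have hc := sp_chi hB l
    simp only [Ex, mul_add, mul_sub, mul_one]
    rw [K_mul_ne hC hl0 hj (by omega) _ _ hc hp, K_mul_ne hC hl0 hj0 (by omega) _ _ hc hp,
      K_mul_ne hC hl0 hj (by omega) _ _ hc hq, K_mul_ne hC hl0 hj0 (by omega) _ _ hc hq]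
    simp
  have e5 : Ex V (j + 1) j p q * K V j j (mm i j) = K V j j (mm i j)
      + K V j j (fun x => p x * mm i j x) + K V (j + 1) j (fun x => q x * mm i j x) := by
    simp only [Ex, add_mul, sub_mul, one_mul]
    rw [K_mul_ne hC hj hj0 hne' _ _ hp hm, K_mul_eq hC hj0 _ _ hp hm,
      K_mul_eq hC hj0 _ _ hq hm, K_mul_ne hC hj hj0 hne' _ _ hq hm]
    abel
  have e6 : K V j j (chi i j) * Ex V (j + 1) j p q = K V j j (chi i j)
      + K V j j (fun x => chi i j x * p x) - K V j (j + 1) (fun x => chi i j x * q x) := by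
    simp only [Ex, mul_add, mul_sub, mul_one]
    rw [K_mul_ne hC hj0 hj hne _ _ hx hp, K_mul_eq hC hj0 _ _ hx hp,
      K_mul_ne hC hj0 hj hne _ _ hx hq, K_mul_eq hC hj0 _ _ hx hq]
    abel
  have e7 : K V (j + 1) (j + 1) (mm i (j + 1)) * Ex V (j + 1) j p q =
      K V (j + 1) (j + 1) (mm i (j + 1))
      + K V (j + 1) (j + 1) (fun x => mm i (j + 1) x * p x)
      + K V (j + 1) j (fun x => mm i (j + 1) x * q x) := by
    simp only [Ex, mul_add, mul_sub, mul_one]
    rw [K_mul_eq hC hj _ _ hm' hp, K_mul_ne hC hj hj0 hne' _ _ hm' hp,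
      K_mul_eq hC hj _ _ hm' hq, K_mul_ne hC hj hj0 hne' _ _ hm' hq]
    abel
  -- the coefficient identities
  have z1 : K V j j (mm i j) + K V j j (fun x => p x * mm i j x) - K V j j (chi i j)
      - K V j j (fun x => chi i j x * p x) = 0 := by
    rw [K_add hPOP V j j hm.bd (hp.mul hm).bd,
      K_sub hPOP V j j (hm.bd.radd (hp.mul hm).bd) hx.bd,
      K_sub hPOP V j j ((hm.bd.radd (hp.mul hm).bd).rsub hx.bd) (hx.mul hp).bd]
    refine K_zero hPOP V j j fun x => ?_
    have h1 : mm i j x + p x * mm i j x - chi i j x - chi i j x * p x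
        = c (j + 1) x * (mm i j x - chi i j x) := by
      rw [hpdef]; ring
    change mm i j x + p x * mm i j x - chi i j x - chi i j x * p x = 0
    rw [h1]
    rcases lt_trichotomy (i x) (j + 1) with h | h | h
    · have : mm i j x = 0 := by
        unfold mm; rw [Nat.sub_eq_zero_of_le (by omega)]; simp
      rw [this, chi, if_neg (by omega)]; simp
    · have : mm i j x = 1 := by
        unfold mm; rw [h]; simp
      rw [this, chi, if_pos (by omega)]; simp
    · rw [hB.czero (j + 1) x (by omega) h, zero_mul]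
  have z2 : K V (j + 1) (j + 1) (mm i (j + 1))
      + K V (j + 1) (j + 1) (fun x => mm i (j + 1) x * p x) = 0 := by
    rw [K_add hPOP V _ _ hm'.bd (hm'.mul hp).bd]
    refine K_zero hPOP V _ _ fun x => ?_
    have h1 : mm i (j + 1) x + mm i (j + 1) x * p x = mm i (j + 1) x * c (j + 1) x := by
      rw [hpdef]; ring
    rw [h1]
    by_cases h : j + 1 < i x
    · rw [hB.czero (j + 1) x (by omega) h, mul_zero]
    · have : mm i (j + 1) x = 0 := by
        unfold mm; rw [Nat.sub_eq_zero_of_le (by omega)]; simp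
      rw [this, zero_mul]
  have z3 : K V (j + 1) j q - K V (j + 1) j (fun x => q x * mm i j x)
      + K V (j + 1) j (fun x => mm i (j + 1) x * q x) = 0 := by
    rw [K_sub hPOP V _ _ hq.bd (hq.mul hm).bd,
      K_add hPOP V _ _ (hq.bd.rsub (hq.mul hm).bd) (hm'.mul hq).bd]
    refine K_zero hPOP V _ _ fun x => ?_
    by_cases h : i x < j + 1
    · rw [hqdef, hB.szero (j + 1) x (by omega) h]; simp
    · have : mm i j x = mm i (j + 1) x + 1 := by
        unfold mm
        have : i x - j = (i x - (j + 1)) + 1 := by omega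
        rw [this]; push_cast; ring
      rw [this]; ring
  have z4 : K V j (j + 1) q - K V j (j + 1) (fun x => chi i j x * q x) = 0 := by
    rw [K_sub hPOP V _ _ hq.bd (hx.mul hq).bd]
    refine K_zero hPOP V _ _ fun x => ?_
    by_cases h : i x < j + 1
    · rw [hqdef, hB.szero (j + 1) x (by omega) h]; simp
    · rw [chi, if_pos (by omega)]; ring
  -- assembly
  have hSg : Sg V i (j + 1) = Sg V i j + K V j j (chi i j) := by
    unfold Sg; rw [Finset.sum_range_succ]
  have a1 : Ex V (j + 1) j p q * Ga V i g n j - Ga V i g n (j + 1) * Ex V (j + 1) j p q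
      = (Ex V (j + 1) j p q * mu g - mu g * Ex V (j + 1) j p q)
        - δ • (Ex V (j + 1) j p q * Sg V i j + Ex V (j + 1) j p q * K V j j (mm i j)
          - Sg V i j * Ex V (j + 1) j p q - K V j j (chi i j) * Ex V (j + 1) j p q
          - K V (j + 1) (j + 1) (mm i (j + 1)) * Ex V (j + 1) j p q) := by
    unfold Ga
    rw [hSg, ← hδ]
    simp only [mul_sub, sub_mul, mul_smul_comm, smul_mul_assoc, mul_add, add_mul, smul_add,
      smul_sub]
    abel
  rw [← sub_eq_zero, a1, e2, e3, e4, e5, e6, e7, ← smul_sub]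
  have a2 : K V (j + 1) j q + K V j (j + 1) q -
      (Sg V i j + (K V j j (mm i j) + K V j j (fun x => p x * mm i j x) +
        K V (j + 1) j (fun x => q x * mm i j x)) - Sg V i j -
        (K V j j (chi i j) + K V j j (fun x => chi i j x * p x) -
          K V j (j + 1) (fun x => chi i j x * q x)) -
        (K V (j + 1) (j + 1) (mm i (j + 1)) +
          K V (j + 1) (j + 1) (fun x => mm i (j + 1) x * p x) +
          K V (j + 1) j (fun x => mm i (j + 1) x * q x))) =
      (K V (j + 1) j q - K V (j + 1) j (fun x => q x * mm i j x)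
        + K V (j + 1) j (fun x => mm i (j + 1) x * q x))
      + (K V j (j + 1) q - K V j (j + 1) (fun x => chi i j x * q x))
      - (K V j j (mm i j) + K V j j (fun x => p x * mm i j x) - K V j j (chi i j)
        - K V j j (fun x => chi i j x * p x))
      + (K V (j + 1) (j + 1) (mm i (j + 1))
        + K V (j + 1) (j + 1) (fun x => mm i (j + 1) x * p x)) := by
    abel
  rw [a2, z1, z2, z3, z4]
  simp

theorem lad_step (V : ℕ → Op X) (c s : ℕ → X → ℝ) (j : ℕ) :
    lad V c s (j + 1) = Ex V (j + 1) j (fun x => c (j + 1) x - 1) (s (j + 1)) * lad V c s j := by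
  rw [lad, rot_Ex]

theorem lad_unitary (hPOP : StPOP) (hC : Copies n V N0) (hB : Bands n N0 i c s) :
    ∀ j ≤ n, star (lad V c s j) * lad V c s j = 1 ∧ lad V c s j * star (lad V c s j) = 1 := by
  intro j
  induction j with
  | zero => intro _; simp [lad]
  | succ j ih =>
    intro hj
    obtain ⟨h1, h2⟩ := ih (by omega)
    have hp := sp_p hB (j := j + 1) (by omega)
    have hq := sp_s hB (j := j + 1) (by omega)
    have hps : ∀ x, ((fun x => c (j + 1) x - 1) x + 1) ^ 2 + s (j + 1) x ^ 2 = 1 := fun x => by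
      simpa using hB.sq (j + 1) x
    have u1 := Ex_mul hPOP hC (l := j) (l' := j + 1) (by omega) hj (by omega) hp hq hps
    have u2 := Ex_mul hPOP hC (l := j + 1) (l' := j) hj (by omega) (by omega) hp hq hps
    have hst := star_Ex hPOP V (j + 1) j hp.bd hq.bd
    rw [lad_step, star_mul, hst]
    constructor
    · calc star (lad V c s j) * Ex V j (j + 1) (fun x => c (j + 1) x - 1) (s (j + 1)) *
            (Ex V (j + 1) j (fun x => c (j + 1) x - 1) (s (j + 1)) * lad V c s j)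
          = star (lad V c s j) * (Ex V j (j + 1) (fun x => c (j + 1) x - 1) (s (j + 1)) *
            Ex V (j + 1) j (fun x => c (j + 1) x - 1) (s (j + 1))) * lad V c s j := by
            simp only [mul_assoc]
        _ = 1 := by rw [u1, mul_one, h1]
    · calc Ex V (j + 1) j (fun x => c (j + 1) x - 1) (s (j + 1)) * lad V c s j *
            (star (lad V c s j) * Ex V j (j + 1) (fun x => c (j + 1) x - 1) (s (j + 1)))
          = Ex V (j + 1) j (fun x => c (j + 1) x - 1) (s (j + 1)) *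
            (lad V c s j * star (lad V c s j)) *
            Ex V j (j + 1) (fun x => c (j + 1) x - 1) (s (j + 1)) := by
            simp only [mul_assoc]
        _ = 1 := by rw [h2, mul_one, u2]

theorem lad_Ga (hPOP : StPOP) (hC : Copies n V N0) (hB : Bands n N0 i c s) {g : X → ℝ}
    (hgb : Bd g)
    (hg : ∀ l ≤ n, ∀ f : X → ℝ, (∃ C, ∀ x, |f x| ≤ C) → (∀ x, f x ≠ 0 → x ∈ N0) →
      mu g * V l * mu f = ((1 - (l : ℝ) / (n + 1) : ℝ) : ℂ) • (V l * mu f)) :
    ∀ j ≤ n, lad V c s j * Ga V i g n 0 = Ga V i g n j * lad V c s j := by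
  intro j
  induction j with
  | zero => intro _; simp [lad]
  | succ j ih =>
    intro hj
    have h1 := ih (by omega)
    rw [lad_step, mul_assoc, h1, ← mul_assoc, step hPOP hC hB hgb hg hj, mul_assoc]

theorem Sg_proj (hPOP : StPOP) (hC : Copies n V N0) (hB : Bands n N0 i c s) :
    ‖Sg V i (n + 1)‖ ≤ 1 := by
  have h1 : star (Sg V i (n + 1)) = Sg V i (n + 1) := by
    unfold Sg
    rw [star_sum]
    exact Finset.sum_congr rfl fun l _ => K_star hPOP V l l (sp_chi hB l).bd
  have h2 : Sg V i (n + 1) * Sg V i (n + 1) = Sg V i (n + 1) := by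
    unfold Sg
    rw [Finset.sum_mul_sum]
    refine Finset.sum_congr rfl fun l hl => ?_
    rw [Finset.mem_range] at hl
    rw [Finset.sum_eq_single_of_mem l (Finset.mem_range.2 hl)]
    · rw [K_mul_eq hC (by omega) _ _ (sp_chi hB l) (sp_chi hB l)]
      congr 1
      funext x
      unfold chi
      split_ifs <;> simp
    · intro l' hl' hne
      rw [Finset.mem_range] at hl'
      exact K_mul_ne hC (by omega) (by omega) hne.symm _ _ (sp_chi hB l) (sp_chi hB l')
  have h3 := CStarRing.norm_star_mul_self (x := Sg V i (n + 1))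
  rw [h1, h2] at h3
  by_contra h4
  push Not at h4
  nlinarith

end

theorem t_LAD (hPOP : StPOP) : StLAD := by
  intro X n V N0 i c s g hV0 hC hB hg0 hg1 hg
  have hgb : Bd g := ⟨1, fun x => by rw [Real.norm_eq_abs, abs_of_nonneg (hg0 x)]; exact hg1 x⟩
  obtain ⟨u1, u2⟩ := lad_unitary hPOP hC hB n le_rfl
  refine ⟨u1, u2, ?_⟩
  have hn : (n : ℝ) + 1 ≠ 0 := by positivity
  have hm0 := sp_mm hB 0
  -- the first operator
  have e0 : mu (fun x => g x * (1 - (i x : ℝ) / (n + 1))) = Ga V i g n 0 := by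
    have h1 := hg 0 (by omega) (mm i 0) hm0.1 hm0.2
    rw [hV0, mul_one, one_mul, mu_mul hPOP hgb hm0.bd] at h1
    have h2 : ((1 - ((0 : ℕ) : ℝ) / (n + 1) : ℝ) : ℂ) = 1 := by simp
    rw [h2, one_smul] at h1
    have h3 : K V 0 0 (mm i 0) = mu fun x => g x * mm i 0 x := by
      rw [K, hV0, h1, one_mul, star_one, mul_one]
    have hb : Bd fun x => g x * mm i 0 x := hgb.rmul hm0.bd
    rw [Ga, h3, Sg, Finset.sum_range_zero, zero_add, mu_smul hPOP hb, mu_sub hPOP hgb (hb.rsmul _)]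
    congr 1
    funext x
    unfold mm
    rw [Nat.sub_zero]
    field_simp
  have e1 := lad_Ga hPOP hC hB hgb hg n le_rfl
  have e2 : K V n n (mm i n) = K V n n (chi i n) := by
    congr 1
    funext x
    unfold mm chi
    have := hB.le x
    split_ifs with h
    · have : i x - n = 1 := by omega
      rw [this]; simp
    · have : i x - n = 0 := by omega
      rw [this]; simp
  have e3 : Sg V i (n + 1) = Sg V i n + K V n n (chi i n) := by
    unfold Sg; rw [Finset.sum_range_succ]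
  rw [e0, e1, mul_assoc, u2, mul_one]
  have e4 : Ga V i g n n - mu g = -(((1 / ((n : ℝ) + 1) : ℝ) : ℂ) • Sg V i (n + 1)) := by
    rw [e3, ← e2, Ga]; abel
  rw [e4, norm_neg, norm_smul]
  have h5 : ‖((1 / ((n : ℝ) + 1) : ℝ) : ℂ)‖ = 1 / ((n : ℝ) + 1) := by
    rw [Complex.norm_real, Real.norm_eq_abs, abs_of_nonneg (by positivity)]
  rw [h5]
  have h6 := Sg_proj hPOP hC hB
  have h7 : 0 ≤ 1 / ((n : ℝ) + 1) := by positivity
  calc 1 / ((n : ℝ) + 1) * ‖Sg V i (n + 1)‖ ≤ 1 / ((n : ℝ) + 1) * 1 :=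
        mul_le_mul_of_nonneg_left h6 h7
    _ = 1 / (n + 1) := mul_one _

end Pool.Agent.Helper7_RU.R_LAD
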