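import Pool.Agent.Helper7_RU.Stm2

set_option autoImplicit false

open scoped ENNReal Matrix.Norms.L2Operator Matrix
open Pool.Agent.W659.EC

noncomputable section

namespace Pool.Agent.Helper7_RU.R_LC

theorem cm_mul {X : Type} (A B T : Op X) : cm (A * B) T = A * cm B T + cm A T * B := by
  unfold cm
  noncomm_ring

theorem norm_mul_le' {X : Type} (A B : Op X) : ‖A * B‖ ≤ ‖A‖ * ‖B‖ := norm_mul_le A B

theorem norm_mul_le_one {X : Type} {A B : Op X} (hA : ‖A‖ ≤ 1) (hB : ‖B‖ ≤ 1) : ‖A * B‖ ≤ 1 := by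
  refine (norm_mul_le A B).trans ?_
  nlinarith [norm_nonneg A, norm_nonneg B]

theorem norm_mul_left {X : Type} {A B : Op X} {κ : ℝ} (hA : ‖A‖ ≤ 1) (hB : ‖B‖ ≤ κ) :
    ‖A * B‖ ≤ κ := by
  refine (norm_mul_le A B).trans ?_
  nlinarith [norm_nonneg A, norm_nonneg B]

theorem norm_mul_right {X : Type} {A B : Op X} {κ : ℝ} (hA : ‖A‖ ≤ κ) (hB : ‖B‖ ≤ 1) :
    ‖A * B‖ ≤ κ := by
  refine (norm_mul_le A B).trans ?_
  nlinarith [norm_nonneg A, norm_nonneg B]

/-- the commutator of a product of two contractions -/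
theorem norm_cm_mul {X : Type} {A B T : Op X} {a b : ℝ} (hA : ‖A‖ ≤ 1) (hB : ‖B‖ ≤ 1)
    (h1 : ‖cm A T‖ ≤ a) (h2 : ‖cm B T‖ ≤ b) : ‖cm (A * B) T‖ ≤ a + b := by
  rw [cm_mul, add_comm]
  exact (norm_add_le _ _).trans (add_le_add (norm_mul_right h1 hB) (norm_mul_left hA h2))

theorem norm_cm_mul3 {X : Type} {A B C T : Op X} {κ : ℝ} (hA : ‖A‖ ≤ 1) (hB : ‖B‖ ≤ 1)
    (hC : ‖C‖ ≤ 1) (h1 : ‖cm A T‖ ≤ κ) (h2 : ‖cm B T‖ ≤ κ) (h3 : ‖cm C T‖ ≤ κ) :
    ‖cm (A * B * C) T‖ ≤ 3 * κ := by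
  have := norm_cm_mul (norm_mul_le_one hA hB) hC (norm_cm_mul hA hB h1 h2) h3
  linarith

theorem cm_rot {X : Type} (S S' T : Op X) (c s : X → ℝ) :
    cm (rot S S' c s) T = cm (S * mu (fun x => c x - 1) * star S) T +
      cm (S' * mu (fun x => c x - 1) * star S') T + cm (S' * mu s * star S) T -
      cm (S * mu s * star S') T := by
  unfold cm rot
  noncomm_ring

theorem norm_star_le_one {X : Type} {u : Op X} (h : ‖u‖ ≤ 1) : ‖star u‖ ≤ 1 := by
  rw [ContinuousLinearMap.star_eq_adjoint]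
  exact (ContinuousLinearMap.adjoint.norm_map u).le.trans h

theorem norm_of_isom {X : Type} {u : Op X} (h : star u * u = 1) : ‖u‖ ≤ 1 := by
  have h1 : ‖u‖ * ‖u‖ ≤ 1 := by
    rw [← CStarRing.norm_star_mul_self, h]
    exact ContinuousLinearMap.norm_id_le
  nlinarith [norm_nonneg u]

theorem t_LC (hPOP : StPOP) (hROT : StROT) : StLC := by
  intro X n V N0 i c s hcop hb hV T κ hVT hVT' hcT hsT
  have hκ : 0 ≤ κ := (norm_nonneg _).trans (hVT 0 (Nat.zero_le n))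
  have hc1 : ∀ j x, c j x ≤ 1 := fun j x => by nlinarith [hb.c0 j x, hb.sq j x, sq_nonneg (s j x)]
  have hs1 : ∀ j x, s j x ≤ 1 := fun j x => by nlinarith [hb.s0 j x, hb.sq j x, sq_nonneg (c j x)]
  have hbc : ∀ j, Bd (c j) := fun j =>
    bd_of_le (C := 1) fun x => abs_le.2 ⟨by linarith [hb.c0 j x], hc1 j x⟩
  have hsN : ∀ j x, 1 ≤ j → s j x ≠ 0 → x ∈ N0 := by
    intro j x hj hne
    refine hb.supp x fun h0 => hne (hb.szero j x hj ?_)
    omega
  have hcN : ∀ j x, 1 ≤ j → c j x ≠ 1 → x ∈ N0 := by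
    intro j x hj hne
    refine hsN j x hj fun h0 => hne ?_
    have h2 := hb.sq j x
    have h3 := hb.c0 j x
    rw [h0] at h2
    nlinarith
  -- the norms of the multiplication operators
  have hmc : ∀ j, ‖mu (fun x => c j x - 1)‖ ≤ 1 := fun j =>
    norm_mu_le hPOP zero_le_one fun x => abs_le.2 ⟨by linarith [hb.c0 j x], by linarith [hc1 j x]⟩
  have hms : ∀ j, ‖mu (s j)‖ ≤ 1 := fun j =>
    norm_mu_le hPOP zero_le_one fun x => abs_le.2 ⟨by linarith [hb.s0 j x], hs1 j x⟩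
  have hcm : ∀ j, cm (mu fun x => c j x - 1) T = cm (mu (c j)) T := by
    intro j
    rw [← mu_sub hPOP (hbc j) (Bd.rconst 1), mu_one hPOP]
    unfold cm
    noncomm_ring
  -- the rotations
  have hrot : ∀ j, j + 1 ≤ n →
      ‖cm (rot (V j) (V (j + 1)) (c (j + 1)) (s (j + 1))) T‖ ≤ 12 * κ ∧
        ‖rot (V j) (V (j + 1)) (c (j + 1)) (s (j + 1))‖ ≤ 1 := by
    intro j hj
    have hj0 : j ≤ n := by omega
    have hj1 : 1 ≤ j + 1 := by omega
    have sV : ‖star (V j)‖ ≤ 1 := norm_star_le_one (hV j hj0)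
    have sV' : ‖star (V (j + 1))‖ ≤ 1 := norm_star_le_one (hV (j + 1) hj)
    have kc : ‖cm (mu fun x => c (j + 1) x - 1) T‖ ≤ κ := by
      rw [hcm]; exact hcT (j + 1) hj1 hj
    have ks : ‖cm (mu (s (j + 1))) T‖ ≤ κ := hsT (j + 1) hj1 hj
    constructor
    · rw [cm_rot]
      have e1 := norm_cm_mul3 (hV j hj0) (hmc (j + 1)) sV (hVT j hj0) kc (hVT' j hj0)
      have e2 := norm_cm_mul3 (hV (j + 1) hj) (hmc (j + 1)) sV' (hVT (j + 1) hj) kc
        (hVT' (j + 1) hj)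
      have e3 := norm_cm_mul3 (hV (j + 1) hj) (hms (j + 1)) sV (hVT (j + 1) hj) ks (hVT' j hj0)
      have e4 := norm_cm_mul3 (hV j hj0) (hms (j + 1)) sV' (hVT j hj0) ks (hVT' (j + 1) hj)
      refine (norm_sub_le _ _).trans ?_
      refine (add_le_add (norm_add₃_le) le_rfl).trans ?_
      linarith
    · exact norm_of_isom (hROT X n V N0 hcop j hj0 (j + 1) hj (by omega) (c (j + 1)) (s (j + 1))
        (fun x => hcN (j + 1) x hj1) (fun x => hsN (j + 1) x hj1) (fun x => hb.sq (j + 1) x)).1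
  have main : ∀ j, j ≤ n → ‖cm (lad V c s j) T‖ ≤ 12 * j * κ ∧ ‖lad V c s j‖ ≤ 1 := by
    intro j
    induction j with
    | zero =>
      intro _
      constructor
      · simp [lad, cm]
      · exact ContinuousLinearMap.norm_id_le
    | succ j ih =>
      intro hj
      obtain ⟨h1, h2⟩ := ih (by omega)
      obtain ⟨h3, h4⟩ := hrot j hj
      constructor
      · have := norm_cm_mul h4 h2 h3 h1
        have e : (12 : ℝ) * ((j + 1 : ℕ) : ℝ) * κ = 12 * κ + 12 * j * κ := by push_cast; ring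
        rw [e]
        exact this
      · exact norm_mul_le_one h4 h2
  exact (main n le_rfl).1

end Pool.Agent.Helper7_RU.R_LC
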