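import Pool.Agent.Helper7_RU.Stm2
import Pool.Agent.Helper7_ND.J_ND

set_option autoImplicit false

open scoped ENNReal Matrix.Norms.L2Operator Matrix
open Pool.Agent.W659.EC

noncomputable section

namespace Pool.Agent.Helper7_RU.R_MAIN

open Pool.Agent.Helper7_ND (Sys SysAll)

/-! ## compression by a selfadjoint contraction -/

/-- compression -/
def cj (c : Op Z2) : Op Z2 →ₗ[ℂ] Op Z2 := LinearMap.mulLeft ℂ c ∘ₗ LinearMap.mulRight ℂ c

theorem cj_apply (c T : Op Z2) : cj c T = c * T * c := by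
  simp [cj, mul_assoc]

theorem isCPC_cj {c : Op Z2} (hc : star c = c) (h1 : ‖c‖ ≤ 1) : IsCPC (cj c) := by
  refine ⟨fun k M => ⟨M.map fun x => x * c, ?_⟩, fun a => ?_⟩
  · ext1 i j
    simp only [Matrix.map_apply, Matrix.mul_apply, Matrix.conjTranspose_apply, cj_apply,
      star_mul, hc, Finset.mul_sum, Finset.sum_mul, mul_assoc]
  · rw [cj_apply]
    calc ‖c * a * c‖ ≤ ‖c‖ * ‖a‖ * ‖c‖ :=
          (norm_mul_le _ _).trans (mul_le_mul_of_nonneg_right (norm_mul_le _ _) (norm_nonneg _))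
      _ ≤ 1 * ‖a‖ * 1 := by gcongr
      _ = ‖a‖ := by ring

/-! ## the star homomorphism `m ↦ U * e m * star U` into the uniform Roe algebra -/

/-- the inclusion -/
def inc : uRoe Z2 →ₗ[ℂ] Op Z2 := (uRoe Z2).subtype.toAlgHom.toLinearMap

theorem inc_apply (a : uRoe Z2) : inc a = (a : Op Z2) := rfl

theorem isCPC_inc : IsCPC inc := isCPC_hom (uRoe Z2).subtype inc fun _ => rfl

/-- conjugation of a homomorphism by a unitary -/
def up (F : FDA) (e : F.alg →⋆ₙₐ[ℂ] Op Z2) (U : Op Z2) (hU : star U * U = 1)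
    (hmem : U ∈ uRoe Z2) (he : ∀ m, e m ∈ uRoe Z2) : F.alg →⋆ₙₐ[ℂ] uRoe Z2 where
  toFun m := ⟨U * e m * star U, mul_mem (mul_mem hmem (he m)) (star_mem hmem)⟩
  map_smul' r m := by
    apply Subtype.ext
    simp [map_smul]
  map_zero' := by
    apply Subtype.ext
    simp
  map_add' m m' := by
    apply Subtype.ext
    simp [mul_add, add_mul]
  map_mul' m m' := by
    apply Subtype.ext
    simp only [map_mul, MulMemClass.mk_mul_mk]
    calc U * (e m * e m') * star U = U * e m * 1 * e m' * star U := by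
          simp only [mul_assoc, one_mul]
      _ = U * e m * (star U * U) * e m' * star U := by rw [hU]
      _ = _ := by simp only [mul_assoc]
  map_star' m := by
    apply Subtype.ext
    simp [map_star, mul_assoc]

theorem up_apply (F : FDA) (e : F.alg →⋆ₙₐ[ℂ] Op Z2) (U : Op Z2) (hU : star U * U = 1)
    (hmem : U ∈ uRoe Z2) (he : ∀ m, e m ∈ uRoe Z2) (m : F.alg) :
    ((up F e U hU hmem he m : uRoe Z2) : Op Z2) = U * e m * star U := rfl


theorem norm_op_one_le : ‖(1 : Op Z2)‖ ≤ 1 := ContinuousLinearMap.norm_id_le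

theorem norm_le_one_of_unitary {U : Op Z2} (hU : star U * U = 1) : ‖U‖ ≤ 1 := by
  have h1 : ‖U‖ * ‖U‖ ≤ 1 := by
    rw [← CStarRing.norm_star_mul_self, hU]; exact norm_op_one_le
  nlinarith [norm_nonneg U]

/-- the composed map on all operators -/
theorem norm_comp_le {F : FDA} {κ : Op Z2 →ₗ[ℂ] F.alg} (hκ : IsCPC κ) (e : F.alg →⋆ₙₐ[ℂ] Op Z2)
    {U c : Op Z2} (hU : ‖U‖ ≤ 1) (hc : ‖c‖ ≤ 1) (T : Op Z2) :
    ‖U * e (κ (c * T * c)) * star U‖ ≤ ‖T‖ := by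
  have h1 : ‖c * T * c‖ ≤ ‖T‖ := by
    calc ‖c * T * c‖ ≤ ‖c‖ * ‖T‖ * ‖c‖ :=
          (norm_mul_le _ _).trans (mul_le_mul_of_nonneg_right (norm_mul_le _ _) (norm_nonneg _))
      _ ≤ 1 * ‖T‖ * 1 := by gcongr
      _ = ‖T‖ := by ring
  have h2 : ‖e (κ (c * T * c))‖ ≤ ‖T‖ :=
    (NonUnitalStarAlgHom.norm_apply_le e _).trans ((hκ.2 _).trans h1)
  have hU' : ‖star U‖ ≤ 1 := (norm_star (E := Op Z2) U).le.trans hU
  calc ‖U * e (κ (c * T * c)) * star U‖ ≤ ‖U‖ * ‖e (κ (c * T * c))‖ * ‖star U‖ :=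
        (norm_mul_le _ _).trans (mul_le_mul_of_nonneg_right (norm_mul_le _ _) (norm_nonneg _))
    _ ≤ 1 * ‖T‖ * 1 := by gcongr
    _ = ‖T‖ := by ring

/-! ## membership of the ladder -/

theorem bands_bd {n : ℕ} {N0 : Set Z2} {i : Z2 → ℕ} {c s : ℕ → Z2 → ℝ}
    (hB : Bands n N0 i c s) (j : ℕ) : Bd (c j) ∧ Bd (s j) := by
  constructor
  · refine ⟨1, fun x => ?_⟩
    rw [Real.norm_eq_abs, abs_le]
    have h1 := hB.sq j x
    have h2 := hB.c0 j x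
    constructor
    · linarith
    · nlinarith [sq_nonneg (s j x)]
  · refine ⟨1, fun x => ?_⟩
    rw [Real.norm_eq_abs, abs_le]
    have h1 := hB.sq j x
    have h2 := hB.s0 j x
    constructor
    · linarith
    · nlinarith [sq_nonneg (c j x)]

theorem lad_mem (hPOP : StPOP) {V : ℕ → Op Z2} {c s : ℕ → Z2 → ℝ} (hV : ∀ l, V l ∈ uRoe Z2)
    (hc : ∀ j, Bd (c j)) (hs : ∀ j, Bd (s j)) : ∀ j, lad V c s j ∈ uRoe Z2 := by
  intro j
  induction j with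
  | zero => exact one_mem _
  | succ j ih =>
    refine mul_mem ?_ ih
    have hc1 : mu (fun x => c (j + 1) x - 1) ∈ uRoe Z2 :=
      mu_mem hPOP ((hc (j + 1)).rsub (Bd.rconst 1))
    have hs1 : mu (s (j + 1)) ∈ uRoe Z2 := mu_mem hPOP (hs (j + 1))
    have hS := hV j
    have hT := hV (j + 1)
    unfold rot
    exact sub_mem (add_mem (add_mem (add_mem (one_mem _)
      (mul_mem (mul_mem hS hc1) (star_mem hS))) (mul_mem (mul_mem hT hc1) (star_mem hT)))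
      (mul_mem (mul_mem hT hs1) (star_mem hS))) (mul_mem (mul_mem hS hs1) (star_mem hT))

/-! ## entries of the block diagonal operators -/

theorem ent_block (hPOP : StPOP) {w : Z2 → ℝ} {F : Z2 → ℂ} (hw : Bd w) (hF : Bd F) (g x y : Z2) :
    ent (mu w * (mulc F * lam g) * mu w) x y =
      w y * (w x * (F x * if x = y + g then 1 else 0)) := by
  rw [ent_mul_mu hPOP hw, ent_mu_mul hPOP hw, ent_mulc_mul hPOP hF, ent_lam hPOP]

theorem finite_block (hPOP : StPOP) {w : Z2 → ℝ} {F : Z2 → ℂ} (hw : Bd w) (hF : Bd F)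
    (hw' : (Set.range w).Finite) (hF' : (Set.range F).Finite) (g : Z2) :
    (Set.range fun p : Z2 × Z2 =>
      ent (mu w * (mulc F * lam g) * mu w) p.1 p.2).Finite := by
  have h1 : (Set.range fun p : Z2 × Z2 => ent (mu w * (mulc F * lam g) * mu w) p.1 p.2) ⊆
      (fun q : ℝ × ℝ × ℂ × ℂ => (q.1 : ℂ) * ((q.2.1 : ℂ) * (q.2.2.1 * q.2.2.2))) ''
        (Set.range w ×ˢ (Set.range w ×ˢ (Set.range F ×ˢ ({0, 1} : Set ℂ)))) := by
    rintro _ ⟨p, rfl⟩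
    refine ⟨(w p.2, w p.1, F p.1, if p.1 = p.2 + g then 1 else 0), ?_, ?_⟩
    · refine ⟨⟨_, rfl⟩, ⟨_, rfl⟩, ⟨_, rfl⟩, ?_⟩
      dsimp only
      split_ifs <;> simp
    · dsimp only
      rw [ent_block hPOP hw hF]
  refine Set.Finite.subset (Set.Finite.image _ ?_) h1
  exact hw'.prod (hw'.prod (hF'.prod (by simp)))

theorem zero_block (hPOP : StPOP) {w : Z2 → ℝ} {F : Z2 → ℂ} (hw : Bd w) (hF : Bd F)
    {τ : Z2 → Z2} {ρ : ℕ} (hcut : ∀ x y, dd x y ≤ ρ → τ x ≠ τ y → w x = 0) {g : Z2}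
    (hg : dd 0 g ≤ ρ) (x y : Z2) (hxy : τ x ≠ τ y) :
    ent (mu w * (mulc F * lam g) * mu w) x y = 0 := by
  rw [ent_block hPOP hw hF]
  split_ifs with e
  · rw [hcut x y (by rw [e, dd_comm, dd_add_left]; exact hg) hxy]
    simp
  · simp

theorem bd_of_finite {E : Type} [NormedAddCommGroup E] {f : Z2 → E} (h : (Set.range f).Finite) :
    Bd f := by
  obtain ⟨C, hC⟩ := h.isBounded.exists_norm_le
  exact ⟨C, fun x => hC _ ⟨x, rfl⟩⟩


theorem main_aux (hPOP : StPOP) (hLAD : StLAD) (hGEO : StGEO) (hAFB : StAFB) (hDEN : StDEN)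
    (hEST : StEST) : SysAll (uRoe Z2) (Option (Fin 1)) := by
  classical
  intro G ε hε
  have hd : ∀ a : {x // x ∈ G}, ∃ ρ0 : ℕ, ∀ ρ, ρ0 ≤ ρ → ∃ f : Z2 → Z2 → ℂ,
      (∀ g, (Set.range (f g)).Finite) ∧
        ‖((a.1 : uRoe Z2) : Op Z2) - ∑ g ∈ bl 0 ρ, mulc (f g) * lam g‖ ≤ ε / 8 :=
    fun a => hDEN (a.1 : Op Z2) a.1.2 (ε / 8) (by positivity)
  choose ρ0 hρ0 using hd
  obtain ⟨ρ, hρ⟩ : ∃ ρ, ∀ a, ρ0 a ≤ ρ :=
    ⟨Finset.univ.sup ρ0, fun a => Finset.le_sup (Finset.mem_univ a)⟩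
  choose f hf hfa using fun a => hρ0 a ρ (hρ a)
  let I : Type := {x // x ∈ G} × {g // g ∈ bl 0 ρ}
  let e : I ≃ Fin (Fintype.card I) := Fintype.equivFin I
  let ff : Fin (Fintype.card I) → Z2 → ℂ := fun k => f (e.symm k).1 (e.symm k).2.1
  have hff : ∀ k, (Set.range (ff k)).Finite := fun k => hf _ _
  have hffe : ∀ (a : {x // x ∈ G}) (g : Z2) (hg : g ∈ bl 0 ρ), ff (e (a, ⟨g, hg⟩)) = f a g := by
    intro a g hg
    simp [ff]
  have hfbd : ∀ k, Bd (ff k) := fun k => bd_of_finite (hff k)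
  choose C hC0 hC using fun k => (hfbd k).pos
  obtain ⟨K, hK0, hK⟩ : ∃ K : ℝ, 0 ≤ K ∧ ∀ k x, ‖ff k x‖ ≤ K :=
    ⟨∑ k, C k, Finset.sum_nonneg fun k _ => hC0 k, fun k x =>
      (hC k x).trans (Finset.single_le_sum (f := C) (fun k _ => hC0 k) (Finset.mem_univ k))⟩
  obtain ⟨t, ht, ht0⟩ : ∃ t : ℝ, t = (bl 0 ρ).card ∧ 0 ≤ t := ⟨_, rfl, Nat.cast_nonneg _⟩
  obtain ⟨n, hn⟩ : ∃ n : ℕ, t * (4 * K / (n + 1)) ≤ ε / 8 := by
    obtain ⟨n, hn⟩ := exists_nat_gt (t * (4 * K) / (ε / 8))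
    refine ⟨n, ?_⟩
    have hn1 : (0 : ℝ) < n + 1 := by positivity
    rw [← mul_div_assoc, div_le_iff₀ hn1]
    rw [div_lt_iff₀ (by positivity)] at hn
    nlinarith
  obtain ⟨κ, hκ, hκ'⟩ : ∃ κ : ℝ, 0 < κ ∧ t * (12 * n * κ * K) ≤ ε / 8 := by
    have h1 : 0 ≤ t * (12 * n * K) := by positivity
    refine ⟨ε / 8 / (t * (12 * n * K) + 1), by positivity, ?_⟩
    have h2 : t * (12 * n * (ε / 8 / (t * (12 * n * K) + 1)) * K) =
        (t * (12 * n * K)) * (ε / 8) / (t * (12 * n * K) + 1) := by ring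
    rw [h2, div_le_iff₀ (by positivity)]
    nlinarith
  obtain ⟨D, τ, N0, V, i, ι, c, s, geo⟩ := hGEO _ ff hff ρ n κ hκ
  have hn1 : (0 : ℝ) < n + 1 := by positivity
  -- the functions
  obtain ⟨w0, hw0⟩ : ∃ w : Z2 → ℝ,
    w = fun x => (1 - (ι x : ℝ) / (n + 1)) * (1 - (i x : ℝ) / (n + 1)) := ⟨_, rfl⟩
  obtain ⟨w1, hw1⟩ : ∃ w : Z2 → ℝ,
    w = fun x => Real.sqrt (1 - (1 - (ι x : ℝ) / (n + 1)) ^ 2) := ⟨_, rfl⟩
  have hg0 : ∀ x, (0 : ℝ) ≤ 1 - (ι x : ℝ) / (n + 1) := by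
    intro x
    rw [sub_nonneg, div_le_one hn1]
    have : (ι x : ℝ) ≤ n := by exact_mod_cast geo.iota x
    linarith
  have hg1 : ∀ x, (1 : ℝ) - (ι x : ℝ) / (n + 1) ≤ 1 := by
    intro x
    have : (0 : ℝ) ≤ (ι x : ℝ) / (n + 1) := by positivity
    linarith
  have hh0 : ∀ x, (0 : ℝ) ≤ 1 - (i x : ℝ) / (n + 1) := by
    intro x
    rw [sub_nonneg, div_le_one hn1]
    exact_mod_cast geo.bands.le x
  have hh1 : ∀ x, (1 : ℝ) - (i x : ℝ) / (n + 1) ≤ 1 := by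
    intro x
    have : (0 : ℝ) ≤ (i x : ℝ) / (n + 1) := by positivity
    linarith
  have hw0le : ∀ x, |w0 x| ≤ 1 := by
    intro x
    rw [hw0]
    dsimp only
    rw [abs_of_nonneg (mul_nonneg (hg0 x) (hh0 x))]
    exact mul_le_one₀ (hg1 x) (hh0 x) (hh1 x)
  have hw1le : ∀ x, |w1 x| ≤ 1 := by
    intro x
    rw [hw1]
    dsimp only
    rw [abs_of_nonneg (Real.sqrt_nonneg _)]
    refine Real.sqrt_le_one.2 ?_
    nlinarith [hg0 x]
  have hw0bd : Bd w0 := ⟨1, hw0le⟩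
  have hw1bd : Bd w1 := ⟨1, hw1le⟩
  have hw0fin : (Set.range w0).Finite := by
    refine Set.Finite.subset (((Set.finite_Iic n).prod (Set.finite_Iic (n + 1))).image
      fun p : ℕ × ℕ => (1 - (p.1 : ℝ) / (n + 1)) * (1 - (p.2 : ℝ) / (n + 1))) ?_
    rintro _ ⟨x, rfl⟩
    exact ⟨(ι x, i x), ⟨geo.iota x, geo.bands.le x⟩, by rw [hw0]⟩
  have hw1fin : (Set.range w1).Finite := by
    refine Set.Finite.subset ((Set.finite_Iic n).image
      fun p : ℕ => Real.sqrt (1 - (1 - (p : ℝ) / (n + 1)) ^ 2)) ?_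
    rintro _ ⟨x, rfl⟩
    exact ⟨ι x, geo.iota x, by rw [hw1]⟩
  have hcut0 : ∀ x y, dd x y ≤ ρ → τ x ≠ τ y → w0 x = 0 := by
    intro x y h1 h2
    have h3 := (geo.cut x y h1 h2).1
    rw [hw0]
    dsimp only
    rw [h3]
    push_cast
    rw [div_self hn1.ne']
    ring
  have hcut1 : ∀ x y, dd x y ≤ ρ → τ x ≠ τ y → w1 x = 0 := by
    intro x y h1 h2
    have h3 := (geo.cut x y h1 h2).2
    rw [hw1]
    dsimp only
    rw [h3]
    simp
  -- the finite-dimensional algebras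
  have hB : ∀ w : Z2 → ℝ, Bd w → (Set.range w).Finite →
      (∀ x y, dd x y ≤ ρ → τ x ≠ τ y → w x = 0) →
      ∃ (F : FDA) (κ : Op Z2 →ₗ[ℂ] F.alg) (e : F.alg →⋆ₙₐ[ℂ] Op Z2),
        IsCPC κ ∧ (∀ m, e m ∈ uRoe Z2) ∧ ∀ (k : Fin (Fintype.card I)) (g : Z2), g ∈ bl 0 ρ →
          e (κ (mu w * (mulc (ff k) * lam g) * mu w)) =
            mu w * (mulc (ff k) * lam g) * mu w := by
    intro w hwb hwf hwc
    have hA1 : ∀ b ∈ (Finset.univ ×ˢ bl 0 ρ).image fun p : Fin (Fintype.card I) × Z2 =>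
        mu w * (mulc (ff p.1) * lam p.2) * mu w,
        (Set.range fun p : Z2 × Z2 => ent b p.1 p.2).Finite := by
      intro b hb
      obtain ⟨p, -, rfl⟩ := Finset.mem_image.1 hb
      exact finite_block hPOP hwb (hfbd _) hwf (hff _) _
    have hA2 : ∀ b ∈ (Finset.univ ×ˢ bl 0 ρ).image fun p : Fin (Fintype.card I) × Z2 =>
        mu w * (mulc (ff p.1) * lam p.2) * mu w, ∀ x y, τ x ≠ τ y → ent b x y = 0 := by
      intro b hb x y hxy
      obtain ⟨p, hp, rfl⟩ := Finset.mem_image.1 hb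
      refine zero_block hPOP hwb (hfbd _) hwc ?_ x y hxy
      exact (mem_bl _ _ _).1 (Finset.mem_product.1 hp).2
    obtain ⟨F, κ, e, h1, h2, h3⟩ := hAFB τ D geo.tile _ hA1 hA2
    refine ⟨F, κ, e, h1, h2, fun k g hg => h3 _ ?_⟩
    exact Finset.mem_image.2 ⟨(k, g), Finset.mem_product.2 ⟨Finset.mem_univ _, hg⟩, rfl⟩
  obtain ⟨F0, κ0, e0, hκ0, he0, hB0⟩ := hB w0 hw0bd hw0fin hcut0
  obtain ⟨F1, κ1, e1, hκ1, he1, hB1⟩ := hB w1 hw1bd hw1fin hcut1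
  -- the unitary
  obtain ⟨hUU, -, -⟩ := hLAD Z2 n V N0 i c s (fun x => 1 - (ι x : ℝ) / (n + 1)) geo.V0 geo.copies
    geo.bands hg0 hg1 geo.gV
  obtain ⟨U, hUdef⟩ : ∃ U : Op Z2, U = lad V c s n := ⟨_, rfl⟩
  rw [← hUdef] at hUU
  have hUmem : U ∈ uRoe Z2 := by
    rw [hUdef]
    exact lad_mem hPOP geo.Vmem (fun j => (bands_bd geo.bands j).1)
      (fun j => (bands_bd geo.bands j).2) n
  have hUn : ‖U‖ ≤ 1 := norm_le_one_of_unitary hUU
  have h11 : star (1 : Op Z2) * 1 = 1 := by simp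
  have h1mem : (1 : Op Z2) ∈ uRoe Z2 := one_mem _
  have hcp0 : IsCPC (cj (mu w0)) := isCPC_cj (star_mu hPOP hw0bd)
    (norm_mu_le hPOP zero_le_one hw0le)
  have hcp1 : IsCPC (cj (mu w1)) := isCPC_cj (star_mu hPOP hw1bd)
    (norm_mu_le hPOP zero_le_one hw1le)
  have hn0 : ‖mu w0‖ ≤ 1 := norm_mu_le hPOP zero_le_one hw0le
  have hn1' : ‖mu w1‖ ≤ 1 := norm_mu_le hPOP zero_le_one hw1le
  -- the linear map on all operators
  have hest : ∀ a ∈ G, ‖U * e0 (κ0 (mu w0 * ((a : uRoe Z2) : Op Z2) * mu w0)) * star U +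
      1 * e1 (κ1 (mu w1 * (a : Op Z2) * mu w1)) * star 1 - (a : Op Z2)‖ ≤ ε := by
    intro a ha
    obtain ⟨T, hT⟩ : ∃ T : Op Z2, T = ∑ g ∈ bl 0 ρ, mulc (f ⟨a, ha⟩ g) * lam g := ⟨_, rfl⟩
    have haT : ‖(a : Op Z2) - T‖ ≤ ε / 8 := by rw [hT]; exact hfa ⟨a, ha⟩
    have hs0 : U * e0 (κ0 (mu w0 * T * mu w0)) * star U = ∑ g ∈ bl 0 ρ,
        U * (mu w0 * (mulc (f ⟨a, ha⟩ g) * lam g) * mu w0) * star U := by
      rw [hT, Finset.mul_sum, Finset.sum_mul, map_sum, map_sum, Finset.mul_sum, Finset.sum_mul]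
      refine Finset.sum_congr rfl fun g hg => ?_
      have := hB0 (e (⟨a, ha⟩, ⟨g, hg⟩)) g hg
      rw [hffe] at this
      rw [this]
    have hs1 : 1 * e1 (κ1 (mu w1 * T * mu w1)) * star 1 = ∑ g ∈ bl 0 ρ,
        mu w1 * (mulc (f ⟨a, ha⟩ g) * lam g) * mu w1 := by
      rw [hT, Finset.mul_sum, Finset.sum_mul, map_sum, map_sum, star_one, one_mul, mul_one]
      refine Finset.sum_congr rfl fun g hg => ?_
      have := hB1 (e (⟨a, ha⟩, ⟨g, hg⟩)) g hg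
      rw [hffe] at this
      rw [this]
    have h1 : ‖U * e0 (κ0 (mu w0 * T * mu w0)) * star U +
        1 * e1 (κ1 (mu w1 * T * mu w1)) * star 1 - T‖ ≤ ε / 4 := by
      have h2 : U * e0 (κ0 (mu w0 * T * mu w0)) * star U +
          1 * e1 (κ1 (mu w1 * T * mu w1)) * star 1 - T = ∑ g ∈ bl 0 ρ,
          (U * (mu w0 * (mulc (f ⟨a, ha⟩ g) * lam g) * mu w0) * star U +
            mu w1 * (mulc (f ⟨a, ha⟩ g) * lam g) * mu w1 - mulc (f ⟨a, ha⟩ g) * lam g) := by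
        rw [hs0, hs1, Finset.sum_sub_distrib, Finset.sum_add_distrib, ← hT]
      rw [h2]
      refine (norm_sum_le _ _).trans ?_
      have h3 : ∀ g ∈ bl 0 ρ,
          ‖U * (mu w0 * (mulc (f ⟨a, ha⟩ g) * lam g) * mu w0) * star U +
            mu w1 * (mulc (f ⟨a, ha⟩ g) * lam g) * mu w1 - mulc (f ⟨a, ha⟩ g) * lam g‖ ≤
          12 * n * κ * K + 4 * K / (n + 1) := by
        intro g hg
        have := hEST _ ff ρ n κ D τ N0 V i ι c s K hff hκ geo hK (e (⟨a, ha⟩, ⟨g, hg⟩)) g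
          ((mem_bl _ _ _).1 hg)
        rw [hffe] at this
        rw [hUdef, hw0, hw1]
        exact this
      refine (Finset.sum_le_sum h3).trans ?_
      rw [Finset.sum_const, nsmul_eq_mul, ← ht, mul_add]
      linarith
    have h4 : ‖U * e0 (κ0 (mu w0 * ((a : Op Z2) - T) * mu w0)) * star U‖ ≤ ε / 8 :=
      (norm_comp_le hκ0 e0 hUn hn0 _).trans haT
    have h5 : ‖1 * e1 (κ1 (mu w1 * ((a : Op Z2) - T) * mu w1)) * star 1‖ ≤ ε / 8 :=
      (norm_comp_le hκ1 e1 norm_op_one_le hn1' _).trans haT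
    have h6 : U * e0 (κ0 (mu w0 * (a : Op Z2) * mu w0)) * star U +
        1 * e1 (κ1 (mu w1 * (a : Op Z2) * mu w1)) * star 1 - (a : Op Z2) =
        U * e0 (κ0 (mu w0 * ((a : Op Z2) - T) * mu w0)) * star U +
        1 * e1 (κ1 (mu w1 * ((a : Op Z2) - T) * mu w1)) * star 1 +
        (U * e0 (κ0 (mu w0 * T * mu w0)) * star U +
        1 * e1 (κ1 (mu w1 * T * mu w1)) * star 1 - T) - ((a : Op Z2) - T) := by
      simp only [mul_sub, sub_mul, map_sub]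
      abel
    rw [h6]
    calc _ ≤ ‖U * e0 (κ0 (mu w0 * ((a : Op Z2) - T) * mu w0)) * star U‖ +
          ‖1 * e1 (κ1 (mu w1 * ((a : Op Z2) - T) * mu w1)) * star 1‖ +
          ‖U * e0 (κ0 (mu w0 * T * mu w0)) * star U +
            1 * e1 (κ1 (mu w1 * T * mu w1)) * star 1 - T‖ + ‖(a : Op Z2) - T‖ := by
          refine (norm_sub_le _ _).trans ?_
          gcongr
          refine (norm_add_le _ _).trans ?_
          gcongr
          exact norm_add_le _ _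
      _ ≤ ε / 8 + ε / 8 + ε / 4 + ε / 8 := by gcongr
      _ ≤ ε := by linarith
  refine ⟨fun j => match j with
    | none => F0
    | some _ => F1, fun j => match j with
    | none => κ0 ∘ₗ cj (mu w0) ∘ₗ inc
    | some _ => κ1 ∘ₗ cj (mu w1) ∘ₗ inc, fun j => match j with
    | none => (up F0 e0 U hUU hUmem he0 : F0.alg →ₗ[ℂ] uRoe Z2)
    | some _ => (up F1 e1 1 h11 h1mem he1 : F1.alg →ₗ[ℂ] uRoe Z2), ?_, ?_, ?_⟩
  · rintro (_ | _)
    · exact hκ0.comp (hcp0.comp isCPC_inc)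
    · exact hκ1.comp (hcp1.comp isCPC_inc)
  · rintro (_ | _)
    · exact ⟨isCPC_hom (up F0 e0 U hUU hUmem he0) _ fun _ => rfl,
        isOrderZero_hom (up F0 e0 U hUU hUmem he0) _ fun _ => rfl⟩
    · exact ⟨isCPC_hom (up F1 e1 1 h11 h1mem he1) _ fun _ => rfl,
        isOrderZero_hom (up F1 e1 1 h11 h1mem he1) _ fun _ => rfl⟩
  · intro a ha
    have := hest a ha
    rw [Fintype.sum_option, Fin.sum_univ_one]
    convert this using 1
    change ‖(U * e0 (κ0 (cj (mu w0) (inc a))) * star U +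
      1 * e1 (κ1 (cj (mu w1) (inc a))) * star 1 - (a : Op Z2))‖ = _
    rw [cj_apply, cj_apply, inc_apply]

theorem t_MAIN (hPOP : StPOP) (hLAD : StLAD) (hGEO : StGEO) (hAFB : StAFB) (hDEN : StDEN)
    (hEST : StEST) : StMAIN := by
  have h := Pool.Agent.Helper7_ND.J_ND.t_ND.2 (uRoe Z2) (Fin 1)
    (main_aux hPOP hLAD hGEO hAFB hDEN hEST)
  simpa [StMAIN] using h

end Pool.Agent.Helper7_RU.R_MAIN
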