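import Pool.Agent.Helper7_RU.Stm

/-
Project MP_80b727_an (owner helper7): the nuclear dimension of the uniform Roe algebra of ZxZ is at most 1 (asymptotic dimension 2); this
answers the question of Winter and Zacharias in the negative. URGENT: everything has to be assembled by 22:30 UTC today.
SETUP: in /workdir/pool/outputs/live: git fetch -q; then copy from origin/main to /workdir/pool at the same paths the directories
Pool/Agent/Helper7_RU/ and Pool/Agent/W659/EC/ (git archive origin/main Pool/Agent/Helper7_RU Pool/Agent/W659/EC | tar x -C /workdir/pool);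
then lake build Pool.Agent.Helper7_RU.Stm. Definitions and basic lemmas: Defs.lean (Hs, Op, dl, ent, uRoe, asdim; dl_apply, inner_dl_left, ent_star, ent_ext,
ent_mul, hasSum_apply, ...), Stm.lean (Z2, dd, bl, pop, mu, Vop, rot, lad, Copies, Bands, Geo and the statements of all parts; mem_bl, card_bl,
dd_tri, dd_comm, dist_eq, ...). Return a complete file that compiles (write it to jobs.result), no sorry, no axioms beyond the
three, following RULES.md (no banned words or characters: no double quotes, no `notation`, `macro`, `partial`, `Lean.`, and so on), all helper lemmas inside the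
namespace; do not change Defs.lean or Stm.lean. If the statement is false or lacks a hypothesis tell helper7 AT ONCE (messages + team-sql notify inbox_helper7).
If you have not finished after 40 minutes write what you have (with the sorrys) to jobs.result and say what is missing.

TARGET t_RAD : StRAD.
PROOF. Fix ζ (choose k ζ separately for each ζ, Classical.choice / choose). For ζ' with dd ζ ζ' <= 5 (ζ' in bl ζ 5, which has 121 elements by card_bl) and p : Ty let N = N(ζ',p) = the
card of the set on the right, and a_k = the card of the filtered set with Ann M w b ζ k, k < m. The annuli for different k are disjoint: M + k w <= d + b and d <= M + k w + b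
for both k < k' gives (k' - k) w <= 2 b < w. So ∑_{k<m} a_k <= N. Call k < m bad for (ζ',p) if 121 * card Ty * N < m * a_k. If there is a bad k then N > 0 and
(number of bad k) * 121 * card Ty * N < m * ∑ a_k <= m * N, so (number of bad k) * (121 * card Ty) < m. So in any case the number t(ζ',p) of bad k satisfies
121 * card Ty * t < m (also when t = 0, as m > 0). The total number of bad k over all pairs (121 * card Ty pairs, card Ty > 0 because P gives an element) is
<= ∑ t(ζ',p), and 121 * card Ty * ∑ t < 121 * card Ty * m (sum of 121 * card Ty strict inequalities), so it is < m: there is a good k < m.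
-/

set_option autoImplicit false

open scoped ENNReal Matrix.Norms.L2Operator Matrix
open Pool.Agent.W659.EC

noncomputable section

namespace Pool.Agent.Helper7_RU.R_RAD

open Classical in
theorem rad_pig {J : Type} (s : Finset J) (m C : ℕ) (hC : C = s.card) (hs : s.Nonempty)
    (bad : J → ℕ → Prop) (h : ∀ j ∈ s, C * ((Finset.range m).filter (bad j)).card < m) :
    ∃ k < m, ∀ j ∈ s, ¬ bad j k := by
  by_contra hcon
  push Not at hcon
  have h1 : Finset.range m ⊆ s.biUnion (fun j => (Finset.range m).filter (bad j)) := by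
    intro k hk
    obtain ⟨j, hj, hb⟩ := hcon k (Finset.mem_range.1 hk)
    exact Finset.mem_biUnion.2 ⟨j, hj, Finset.mem_filter.2 ⟨hk, hb⟩⟩
  have h2 : m ≤ ∑ j ∈ s, ((Finset.range m).filter (bad j)).card := by
    calc m = (Finset.range m).card := (Finset.card_range m).symm
      _ ≤ _ := Finset.card_le_card h1
      _ ≤ _ := Finset.card_biUnion_le
  have h3 : ∑ j ∈ s, C * ((Finset.range m).filter (bad j)).card < ∑ _j ∈ s, m :=
    Finset.sum_lt_sum_of_nonempty hs h
  rw [← Finset.mul_sum, Finset.sum_const, smul_eq_mul, ← hC] at h3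
  exact absurd (Nat.mul_le_mul_left C h2) (not_le.2 h3)

theorem rad_disj (M w b : ℕ) (hbw : 2 * b < w) (ζ x : Z2) (k k' : ℕ) (h : x ∈ Ann M w b ζ k)
    (h' : x ∈ Ann M w b ζ k') : ¬ k < k' := by
  intro hlt
  obtain ⟨_, h2⟩ := h
  obtain ⟨h3, _⟩ := h'
  have h4 : (k + 1) * w ≤ k' * w := Nat.mul_le_mul_right w hlt
  rw [Nat.add_mul, Nat.one_mul] at h4
  omega

open Classical in
theorem rad_sum (Ty : Type) (P : Z2 → Ty) (M w b : ℕ) (hbw : 2 * b < w) (ζ ζ' : Z2) (p : Ty)
    (B : Finset ℕ) :
    ∑ k ∈ B, ((bl (sc M ζ') (3 * M)).filter fun x => x ∈ Ann M w b ζ k ∧ P x = p).card ≤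
      ((bl (sc M ζ') (3 * M)).filter fun x => P x = p).card := by
  rw [← Finset.card_biUnion]
  · apply Finset.card_le_card
    intro x hx
    obtain ⟨k, _, hk⟩ := Finset.mem_biUnion.1 hx
    have h := Finset.mem_filter.1 hk
    exact Finset.mem_filter.2 ⟨h.1, h.2.2⟩
  · intro k _ k' _ hne
    show Disjoint _ _
    rw [Finset.disjoint_left]
    intro x hx hx'
    have h := (Finset.mem_filter.1 hx).2.1
    have h' := (Finset.mem_filter.1 hx').2.1
    rcases Nat.lt_or_gt_of_ne hne with hlt | hlt
    · exact rad_disj M w b hbw ζ x k k' h h' hlt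
    · exact rad_disj M w b hbw ζ x k' k h' h hlt

theorem t_RAD : StRAD := by
  classical
  intro Ty _ P M w b m hm hbw
  obtain ⟨bad, hbad⟩ : ∃ bad : Z2 → (Z2 × Ty) → ℕ → Prop, ∀ ζ j k, bad ζ j k ↔
      121 * Fintype.card Ty * ((bl (sc M j.1) (3 * M)).filter fun x => P x = j.2).card <
        m * ((bl (sc M j.1) (3 * M)).filter fun x => x ∈ Ann M w b ζ k ∧ P x = j.2).card :=
    ⟨_, fun _ _ _ => Iff.rfl⟩
  have key : ∀ ζ : Z2, ∃ k < m, ∀ j ∈ bl ζ 5 ×ˢ (Finset.univ : Finset Ty), ¬ bad ζ j k := by
    intro ζ
    refine rad_pig (bl ζ 5 ×ˢ (Finset.univ : Finset Ty)) m (121 * Fintype.card Ty) ?_ ?_ (bad ζ) ?_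
    · rw [Finset.card_product, card_bl, Finset.card_univ]
      norm_num
    · exact ⟨(ζ, P ζ), Finset.mem_product.2 ⟨(mem_bl _ _ _).2 (by rw [dd_self]; omega), Finset.mem_univ _⟩⟩
    · intro j _
      obtain ⟨B, hB⟩ : ∃ B : Finset ℕ, B = (Finset.range m).filter (bad ζ j) := ⟨_, rfl⟩
      rw [← hB]
      rcases B.eq_empty_or_nonempty with h0 | h0
      · rw [h0, Finset.card_empty, Nat.mul_zero]
        exact hm
      · have h1 : ∑ _k ∈ B, 121 * Fintype.card Ty * ((bl (sc M j.1) (3 * M)).filter fun x => P x = j.2).card <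
            ∑ k ∈ B, m * ((bl (sc M j.1) (3 * M)).filter fun x => x ∈ Ann M w b ζ k ∧ P x = j.2).card := by
          refine Finset.sum_lt_sum_of_nonempty h0 fun k hk => ?_
          rw [hB] at hk
          exact (hbad ζ j k).1 (Finset.mem_filter.1 hk).2
        rw [Finset.sum_const, smul_eq_mul, ← Finset.mul_sum] at h1
        have h2 := Nat.mul_le_mul_left m (rad_sum Ty P M w b hbw ζ j.1 j.2 B)
        have h3 := lt_of_lt_of_le h1 h2
        have h4 : 121 * Fintype.card Ty * B.card * ((bl (sc M j.1) (3 * M)).filter fun x => P x = j.2).card <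
            m * ((bl (sc M j.1) (3 * M)).filter fun x => P x = j.2).card := by
          calc 121 * Fintype.card Ty * B.card * ((bl (sc M j.1) (3 * M)).filter fun x => P x = j.2).card
              = B.card * (121 * Fintype.card Ty * ((bl (sc M j.1) (3 * M)).filter fun x => P x = j.2).card) := by ring
            _ < _ := h3
        exact Nat.lt_of_mul_lt_mul_right h4
  choose k hk1 hk2 using key
  refine ⟨k, hk1, fun ζ ζ' hd p => ?_⟩
  have h := hk2 ζ (ζ', p) (Finset.mem_product.2 ⟨(mem_bl _ _ _).2 hd, Finset.mem_univ _⟩)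
  rw [hbad] at h
  exact not_lt.1 h

end Pool.Agent.Helper7_RU.R_RAD
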