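import Pool.Agent.Helper7_RU.Stm2

/-! # Norms and commutators of the operators `Vop` (parts VN and VC) -/

set_option autoImplicit false

open scoped ENNReal Matrix.Norms.L2Operator Matrix
open Pool.Agent.W659.EC

noncomputable section

namespace Pool.Agent.Helper7_RU.R_VN

open Classical in
/-- the weight of the translated partial map -/
def tf (N : Set Z2) (v : Z2) : Z2 → ℂ := fun x => if x - v ∈ N then 1 else 0

/-- the translated map -/
def tph (σ : Z2 → Z2) (v : Z2) : Z2 → Z2 := fun x => σ (x - v) + v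

theorem Vop_eq (N : Set Z2) (σ : Z2 → Z2) (w : Z2 → ℝ) (s : Finset Z2) :
    Vop N σ w s = ∑ v ∈ s, (w v : ℂ) • pop (tf N v) (tph σ v) := rfl

/-- the hypothesis of separation -/
def Hyp (N : Set Z2) (σ : Z2 → Z2) (s : Finset Z2) : Prop :=
  ∀ y ∈ N, ∀ y' ∈ N, ∀ v ∈ s, ∀ v' ∈ s, σ y + v = σ y' + v' → y = y'

theorem mem_of_tf {N : Set Z2} {v x : Z2} (h : tf N v x ≠ 0) : x - v ∈ N := by
  by_contra hn
  exact h (by simp [tf, hn])

theorem norm_tf_le (N : Set Z2) (v x : Z2) : ‖tf N v x‖ ≤ 1 := by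
  unfold tf
  split_ifs <;> simp

theorem adm_t {N : Set Z2} {σ : Z2 → Z2} {s : Finset Z2} (H : Hyp N σ s) {v : Z2} (hv : v ∈ s) :
    Adm (tf N v) (tph σ v) := by
  refine ⟨⟨1, norm_tf_le N v⟩, fun x y hx hy h => ?_⟩
  have h1 := H _ (mem_of_tf hx) _ (mem_of_tf hy) v hv v hv h
  exact sub_left_injective h1

theorem star_mul_t (hPOP : StPOP) {N : Set Z2} {σ : Z2 → Z2} {s : Finset Z2} (H : Hyp N σ s)
    {v v' : Z2} (hv : v ∈ s) (hv' : v' ∈ s) (hne : v ≠ v') :
    star (pop (tf N v) (tph σ v)) * pop (tf N v') (tph σ v') = 0 := by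
  apply ent_ext
  intro x y
  rw [ent_star_pop_mul hPOP (adm_t H hv), ent_pop hPOP (adm_t H hv'), ent_zero]
  split_ifs with e
  · by_cases hx : x - v ∈ N
    · by_cases hy : y - v' ∈ N
      · exfalso
        have e' : σ (x - v) + v = σ (y - v') + v' := e
        have h1 := H _ hx _ hy v hv v' hv' e'
        rw [h1] at e'
        exact hne (add_left_cancel e')
      · simp [tf, hy]
    · simp [tf, hx]
  · simp

theorem star_mul_V (hPOP : StPOP) {N : Set Z2} {σ : Z2 → Z2} {s : Finset Z2} (H : Hyp N σ s)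
    (w : Z2 → ℝ) :
    star (Vop N σ w s) * Vop N σ w s = ∑ v ∈ s, ((w v : ℂ) * (w v : ℂ)) •
      (star (pop (tf N v) (tph σ v)) * pop (tf N v) (tph σ v)) := by
  rw [Vop_eq, star_sum, Finset.sum_mul_sum]
  refine Finset.sum_congr rfl fun v hv => ?_
  rw [Finset.sum_eq_single v]
  · rw [star_smul, smul_mul_smul_comm]
    simp
  · intro v' hv' hne
    rw [star_smul, smul_mul_smul_comm, star_mul_t hPOP H hv hv' hne.symm, smul_zero]
  · intro h
    exact absurd hv h

theorem nss (T : Op Z2) : ‖star T * T‖ = ‖T‖ * ‖T‖ := CStarRing.norm_star_mul_self (x := T)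

theorem norm_star_t (hPOP : StPOP) {N : Set Z2} {σ : Z2 → Z2} {s : Finset Z2} (H : Hyp N σ s)
    {v : Z2} (hv : v ∈ s) :
    ‖star (pop (tf N v) (tph σ v)) * pop (tf N v) (tph σ v)‖ ≤ 1 := by
  rw [nss]
  have h1 := norm_pop_le hPOP (adm_t H hv) zero_le_one (norm_tf_le N v)
  have h2 := norm_nonneg (pop (tf N v) (tph σ v))
  nlinarith

theorem t_VN (hPOP : StPOP) : StVN := by
  intro N σ w s H
  have H' : Hyp N σ s := H
  have h1 : ‖Vop N σ w s‖ ^ 2 = ‖star (Vop N σ w s) * Vop N σ w s‖ := by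
    rw [nss, pow_two]
  rw [h1, star_mul_V hPOP H' w]
  refine (norm_sum_le _ _).trans (Finset.sum_le_sum fun v hv => ?_)
  rw [norm_smul]
  have h2 : ‖(w v : ℂ) * (w v : ℂ)‖ = w v ^ 2 := by
    rw [norm_mul, Complex.norm_real, Real.norm_eq_abs, abs_mul_abs_self, pow_two]
  rw [h2]
  calc w v ^ 2 * ‖star (pop (tf N v) (tph σ v)) * pop (tf N v) (tph σ v)‖
      ≤ w v ^ 2 * 1 := by
        gcongr
        exact norm_star_t hPOP H' hv
    _ = w v ^ 2 := mul_one _

theorem ent_sum {ι : Type} (s : Finset ι) (f : ι → Op Z2) (x y : Z2) :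
    ent (∑ v ∈ s, f v) x y = ∑ v ∈ s, ent (f v) x y := by
  classical
  induction s using Finset.induction_on with
  | empty => simp
  | insert a s ha ih => rw [Finset.sum_insert ha, Finset.sum_insert ha, ent_add, ih]

theorem ent_Vop (hPOP : StPOP) {N : Set Z2} {σ : Z2 → Z2} {s : Finset Z2} (H : Hyp N σ s)
    (w : Z2 → ℝ) (x y : Z2) :
    ent (Vop N σ w s) x y = ∑ v ∈ s, (w v : ℂ) *
      (if x = σ (y - v) + v then tf N v y else 0) := by
  rw [Vop_eq, ent_sum]
  refine Finset.sum_congr rfl fun v hv => ?_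
  rw [ent_smul, ent_pop hPOP (adm_t H hv)]
  rfl

theorem cardA (r ρ : ℕ) (h : ℤ) (hh : h.natAbs ≤ ρ) :
    ((Finset.Ico (0 : ℤ) r).filter (fun a => a + h ∉ Finset.Ico (0 : ℤ) r)).card ≤ ρ := by
  rcases le_or_gt 0 h with h0 | h0
  · have h1 : (Finset.Ico (0 : ℤ) r).filter (fun a => a + h ∉ Finset.Ico (0 : ℤ) r) ⊆
        Finset.Ico ((r : ℤ) - h) r := by
      intro a
      simp only [Finset.mem_filter, Finset.mem_Ico]
      omega
    refine (Finset.card_le_card h1).trans ?_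
    rw [Int.card_Ico]
    omega
  · have h1 : (Finset.Ico (0 : ℤ) r).filter (fun a => a + h ∉ Finset.Ico (0 : ℤ) r) ⊆
        Finset.Ico 0 (-h) := by
      intro a
      simp only [Finset.mem_filter, Finset.mem_Ico]
      omega
    refine (Finset.card_le_card h1).trans ?_
    rw [Int.card_Ico]
    omega

theorem cardB (r ρ : ℕ) (g : Z2) (hg : dd 0 g ≤ ρ) :
    ((box r).filter (fun v => v + g ∉ box r)).card ≤ 2 * (r * ρ) := by
  have hg1 : g.1.natAbs ≤ ρ := by
    simp only [dd, Prod.fst_zero, Prod.snd_zero] at hg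
    omega
  have hg2 : g.2.natAbs ≤ ρ := by
    simp only [dd, Prod.fst_zero, Prod.snd_zero] at hg
    omega
  have h1 : (box r).filter (fun v => v + g ∉ box r) ⊆
      ((Finset.Ico (0 : ℤ) r).filter (fun a => a + g.1 ∉ Finset.Ico (0 : ℤ) r)) ×ˢ
        (Finset.Ico (0 : ℤ) r) ∪
      (Finset.Ico (0 : ℤ) r) ×ˢ
        ((Finset.Ico (0 : ℤ) r).filter (fun a => a + g.2 ∉ Finset.Ico (0 : ℤ) r)) := by
    intro v
    simp only [box, Finset.mem_filter, Finset.mem_product, Finset.mem_union, Finset.mem_Ico,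
      Prod.fst_add, Prod.snd_add]
    omega
  refine (Finset.card_le_card h1).trans ((Finset.card_union_le _ _).trans ?_)
  rw [Finset.card_product, Finset.card_product, Int.card_Ico]
  have h2 := cardA r ρ g.1 hg1
  have h3 := cardA r ρ g.2 hg2
  have h4 : ((r : ℤ) - 0).toNat = r := by omega
  rw [h4]
  have h5 := Nat.mul_le_mul_right r h2
  have h6 := Nat.mul_le_mul_left r h3
  nlinarith

/-- the weight of the box -/
def uw (r : ℕ) (v : Z2) : ℝ := if v ∈ box r then 1 / (r : ℝ) else 0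

theorem box_sub (r ρ : ℕ) : box r ⊆ bl 0 (r + ρ) := by
  intro v hv
  rw [mem_bl]
  simp only [box, Finset.mem_product, Finset.mem_Ico] at hv
  simp only [dd, Prod.fst_zero, Prod.snd_zero]
  omega

theorem box_shift (r ρ : ℕ) (g : Z2) (hg : dd 0 g ≤ ρ) (v : Z2) (hv : v + g ∈ box r) :
    v ∈ bl 0 (r + ρ) := by
  rw [mem_bl]
  simp only [box, Finset.mem_product, Finset.mem_Ico, Prod.fst_add, Prod.snd_add] at hv
  simp only [dd, Prod.fst_zero, Prod.snd_zero] at hg ⊢
  omega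

theorem sum_uw (r ρ : ℕ) (F : Z2 → ℂ) :
    ∑ v ∈ bl 0 (r + ρ), (uw r v : ℂ) * F v = ∑ v ∈ box r, ((1 / (r : ℝ) : ℝ) : ℂ) * F v := by
  rw [← Finset.sum_subset (box_sub r ρ)]
  · refine Finset.sum_congr rfl fun v hv => ?_
    rw [uw, if_pos hv]
  · intro v _ hv
    rw [uw, if_neg hv]
    simp

theorem sum_uw_shift (r ρ : ℕ) (g : Z2) (hg : dd 0 g ≤ ρ) (F : Z2 → ℂ) :
    ∑ v ∈ bl 0 (r + ρ), (uw r (v + g) : ℂ) * F v =
      ∑ v ∈ box r, ((1 / (r : ℝ) : ℝ) : ℂ) * F (v - g) := by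
  have h1 : ∑ v ∈ box r, ((1 / (r : ℝ) : ℝ) : ℂ) * F (v - g) =
      ∑ v ∈ (box r).image (fun v => v - g), ((1 / (r : ℝ) : ℝ) : ℂ) * F v := by
    rw [Finset.sum_image]
    intro a _ b _ hab
    exact sub_left_injective hab
  rw [h1]
  have hsub : (box r).image (fun v => v - g) ⊆ bl 0 (r + ρ) := by
    intro v hv
    rw [Finset.mem_image] at hv
    obtain ⟨a, ha, rfl⟩ := hv
    exact box_shift r ρ g hg _ (by simpa using ha)
  rw [← Finset.sum_subset hsub]
  · refine Finset.sum_congr rfl fun v hv => ?_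
    rw [Finset.mem_image] at hv
    obtain ⟨a, ha, rfl⟩ := hv
    rw [uw, if_pos (by simpa using ha)]
  · intro v _ hv
    rw [uw, if_neg]
    · simp
    · intro h
      exact hv (Finset.mem_image.2 ⟨v + g, h, by simp⟩)

theorem hyp_of_sep {N : Set Z2} {σ : Z2 → Z2} {E R : ℕ} (hR : 2 * R ≤ E)
    (hsep : ∀ y ∈ N, ∀ y' ∈ N, y ≠ y' → E < dd (σ y) (σ y')) : Hyp N σ (bl 0 R) := by
  intro y hy y' hy' v hv v' hv' h
  by_contra hne
  have h1 := hsep y hy y' hy' hne
  rw [mem_bl] at hv hv'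
  have h2 : dd (σ y) (σ y') = dd v' v := by
    have e1 : (σ y).1 + v.1 = (σ y').1 + v'.1 := congrArg Prod.fst h
    have e2 : (σ y).2 + v.2 = (σ y').2 + v'.2 := congrArg Prod.snd h
    simp only [dd]
    omega
  have h3 := dd_tri v' 0 v
  rw [dd_comm v' 0] at h3
  omega

theorem Hyp.mono {N : Set Z2} {σ : Z2 → Z2} {s t : Finset Z2} (H : Hyp N σ t) (hst : s ⊆ t) :
    Hyp N σ s := fun y hy y' hy' v hv v' hv' h => H y hy y' hy' v (hst hv) v' (hst hv') h

theorem Hyp.shift {N : Set Z2} {σ : Z2 → Z2} {s : Finset Z2} (H : Hyp N σ s) (g : Z2) :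
    Hyp N (fun y => σ y + g) s := fun y hy y' hy' v hv v' hv' h => by
  refine H y hy y' hy' v hv v' hv' ?_
  have h' : σ y + g + v = σ y' + g + v' := h
  have h1 : σ y + v + g = σ y' + v' + g := by
    rw [add_right_comm (σ y) v g, add_right_comm (σ y') v' g]
    exact h'
  exact add_right_cancel h1

theorem cm_eq (hPOP : StPOP) {N : Set Z2} {σ : Z2 → Z2} (r ρ : ℕ) (g : Z2) (hg : dd 0 g ≤ ρ)
    (H : Hyp N σ (bl 0 (r + ρ))) :
    cm (lam g) (Vop N σ (fun _ => 1 / (r : ℝ)) (box r)) =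
      Vop N (fun y => σ y + g) (fun v => uw r v - uw r (v + g)) (bl 0 (r + ρ)) := by
  apply ent_ext
  intro x y
  rw [cm, ent_sub, ent_lam_mul hPOP, ent_mul_lam hPOP, ent_Vop hPOP (H.mono (box_sub r ρ)),
    ent_Vop hPOP (H.mono (box_sub r ρ)), ent_Vop hPOP (H.shift g)]
  have h1 : ∀ v, (((uw r v - uw r (v + g) : ℝ) : ℂ)) *
      (if x = σ (y - v) + g + v then tf N v y else 0) =
      (uw r v : ℂ) * (if x = σ (y - v) + g + v then tf N v y else 0) -
      (uw r (v + g) : ℂ) * (if x = σ (y - v) + g + v then tf N v y else 0) := by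
    intro v
    push_cast
    ring
  rw [Finset.sum_congr rfl fun v _ => h1 v, Finset.sum_sub_distrib,
    sum_uw r ρ (fun v => if x = σ (y - v) + g + v then tf N v y else 0),
    sum_uw_shift r ρ g hg (fun v => if x = σ (y - v) + g + v then tf N v y else 0)]
  congr 1
  · refine Finset.sum_congr rfl fun v _ => ?_
    have h2 : (x - g = σ (y - v) + v) ↔ (x = σ (y - v) + g + v) := by
      constructor
      · intro h
        rw [add_right_comm, ← h]
        abel
      · intro h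
        rw [h]
        abel
    simp only [h2]
  · refine Finset.sum_congr rfl fun v _ => ?_
    have h3 : y + g - v = y - (v - g) := by abel
    have h4 : (x = σ (y + g - v) + v) ↔ (x = σ (y - (v - g)) + g + (v - g)) := by
      rw [h3]
      constructor
      · intro h
        rw [h]
        abel
      · intro h
        rw [h]
        abel
    have h5 : tf N v (y + g) = tf N (v - g) y := by
      unfold tf
      rw [h3]
    simp only [h4, h5]

theorem sum_sq (r ρ : ℕ) (hr : 0 < r) (g : Z2) (hg : dd 0 g ≤ ρ) :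
    ∑ v ∈ bl 0 (r + ρ), (uw r v - uw r (v + g)) ^ 2 ≤ 4 * ρ / r := by
  have h1 : ∀ v, (uw r v - uw r (v + g)) ^ 2 =
      (1 / (r : ℝ)) ^ 2 * ((if v ∈ box r ∧ v + g ∉ box r then 1 else 0) +
        (if v ∉ box r ∧ v + g ∈ box r then 1 else 0)) := by
    intro v
    unfold uw
    by_cases ha : v ∈ box r <;> by_cases hb : v + g ∈ box r <;> simp [ha, hb]
  rw [Finset.sum_congr rfl fun v _ => h1 v, ← Finset.mul_sum, Finset.sum_add_distrib,
    Finset.sum_boole, Finset.sum_boole]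
  have h2 : ((bl 0 (r + ρ)).filter fun v => v ∈ box r ∧ v + g ∉ box r).card ≤ 2 * (r * ρ) := by
    refine (Finset.card_le_card ?_).trans (cardB r ρ g hg)
    intro v hv
    rw [Finset.mem_filter] at hv ⊢
    exact hv.2
  have h3 : ((bl 0 (r + ρ)).filter fun v => v ∉ box r ∧ v + g ∈ box r).card ≤ 2 * (r * ρ) := by
    have hg' : dd 0 (-g) ≤ ρ := by
      simp only [dd, Prod.fst_zero, Prod.snd_zero, Prod.fst_neg, Prod.snd_neg] at hg ⊢
      omega
    refine le_trans ?_ (cardB r ρ (-g) hg')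
    refine Finset.card_le_card_of_injOn (fun v => v + g) ?_ ?_
    · intro v hv
      have hv' := (Finset.mem_filter.1 (Finset.mem_coe.1 hv)).2
      refine Finset.mem_coe.2 (Finset.mem_filter.2 ⟨hv'.2, ?_⟩)
      have e : v + g + -g = v := by abel
      simp only [e]
      exact hv'.1
    · intro a _ b _ hab
      exact add_right_cancel hab
  have h4 : (((bl 0 (r + ρ)).filter fun v => v ∈ box r ∧ v + g ∉ box r).card : ℝ) +
      (((bl 0 (r + ρ)).filter fun v => v ∉ box r ∧ v + g ∈ box r).card : ℝ) ≤ 4 * (r * ρ) := by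
    have h5 : (((bl 0 (r + ρ)).filter fun v => v ∈ box r ∧ v + g ∉ box r).card : ℝ) ≤
        2 * (r * ρ) := by exact_mod_cast h2
    have h6 : (((bl 0 (r + ρ)).filter fun v => v ∉ box r ∧ v + g ∈ box r).card : ℝ) ≤
        2 * (r * ρ) := by exact_mod_cast h3
    linarith
  have hr' : (0 : ℝ) < r := by exact_mod_cast hr
  calc (1 / (r : ℝ)) ^ 2 * ((((bl 0 (r + ρ)).filter fun v => v ∈ box r ∧ v + g ∉ box r).card : ℝ) +
      (((bl 0 (r + ρ)).filter fun v => v ∉ box r ∧ v + g ∈ box r).card : ℝ))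
      ≤ (1 / (r : ℝ)) ^ 2 * (4 * (r * ρ)) := mul_le_mul_of_nonneg_left h4 (by positivity)
    _ = 4 * ρ / r := by
        field_simp

theorem t_VC (hPOP : StPOP) : StVC := by
  intro N σ r ρ E hr hE hsep g hg
  have H : Hyp N σ (bl 0 (r + ρ)) := hyp_of_sep hE hsep
  rw [cm_eq hPOP r ρ g hg H]
  exact (t_VN hPOP N (fun y => σ y + g) (fun v => uw r v - uw r (v + g)) (bl 0 (r + ρ))
    (H.shift g)).trans (sum_sq r ρ hr g hg)

end Pool.Agent.Helper7_RU.R_VN
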