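import Pool.Agent.Helper7_RU.Stm2

set_option autoImplicit false

open scoped ENNReal Matrix.Norms.L2Operator Matrix
open Pool.Agent.W659.EC

noncomputable section

namespace Pool.Agent.Helper7_RU.R_VR

/-- the entry as an additive map -/
def entA {X : Type} (x y : X) : Op X →+ ℂ where
  toFun T := ent T x y
  map_zero' := ent_zero x y
  map_add' T S := ent_add T S x y

theorem ent_sum {X ι : Type} (s : Finset ι) (F : ι → Op X) (x y : X) :
    ent (∑ i ∈ s, F i) x y = ∑ i ∈ s, ent (F i) x y :=
  map_sum (entA x y) F s

theorem mem_box (r : ℕ) (v : Z2) :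
    v ∈ box r ↔ (0 ≤ v.1 ∧ v.1 < r) ∧ (0 ≤ v.2 ∧ v.2 < r) := by
  simp [box, Finset.mem_product]

theorem card_box (r : ℕ) : (box r).card = r ^ 2 := by
  simp [box, Finset.card_product, pow_two]

theorem dd_box {r : ℕ} {v v' : Z2} (h : v ∈ box r) (h' : v' ∈ box r) :
    dd v v' < r := by
  rw [mem_box] at h h'
  simp only [dd]
  omega

theorem dd_of_add_eq {a b v v' : Z2} (h : a + v = b + v') : dd a b = dd v' v := by
  have h1 := congrArg Prod.fst h
  have h2 := congrArg Prod.snd h
  simp only [Prod.fst_add, Prod.snd_add] at h1 h2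
  simp only [dd]
  omega

theorem zero_mem_box {r : ℕ} (hr : 0 < r) : (0 : Z2) ∈ box r := by
  rw [mem_box]
  simp
  omega

section

open Classical

/-- the weight -/
def wt (N : Set Z2) (v x : Z2) : ℂ := if x - v ∈ N then 1 else 0

theorem adm_wt (N : Set Z2) (σ : Z2 → Z2) (E : ℕ)
    (hs : ∀ y ∈ N, ∀ y' ∈ N, y ≠ y' → E < dd (σ y) (σ y')) (v : Z2) :
    Adm (wt N v) (fun x => σ (x - v) + v) := by
  refine ⟨⟨1, fun x => ?_⟩, fun x y hx hy hxy => ?_⟩
  · unfold wt
    split_ifs <;> simp
  · have hxN : x - v ∈ N := by
      by_contra hc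
      exact hx (if_neg hc)
    have hyN : y - v ∈ N := by
      by_contra hc
      exact hy (if_neg hc)
    by_contra hne
    have h1 : x - v ≠ y - v := fun e => hne (sub_left_injective e)
    have h2 := hs _ hxN _ hyN h1
    have h3 : σ (x - v) = σ (y - v) := add_right_cancel hxy
    rw [h3, dd_self] at h2
    omega

theorem Vop_eq (N : Set Z2) (σ : Z2 → Z2) (w : Z2 → ℝ) (s : Finset Z2) :
    Vop N σ w s = ∑ v ∈ s, (w v : ℂ) • pop (wt N v) (fun x => σ (x - v) + v) := by
  unfold Vop wt
  refine Finset.sum_congr rfl fun v _ => ?_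
  congr 2

theorem ent_Vop (hPOP : StPOP) (N : Set Z2) (σ : Z2 → Z2) (E : ℕ)
    (hs : ∀ y ∈ N, ∀ y' ∈ N, y ≠ y' → E < dd (σ y) (σ y')) (w : Z2 → ℝ) (s : Finset Z2)
    (x y : Z2) :
    ent (Vop N σ w s) x y =
      ∑ v ∈ s, (w v : ℂ) * (if x = σ (y - v) + v then wt N v y else 0) := by
  rw [Vop_eq, ent_sum]
  refine Finset.sum_congr rfl fun v _ => ?_
  rw [ent_smul, ent_pop hPOP (adm_wt N σ E hs v)]

theorem ent_star_Vop_mul (hPOP : StPOP) (N : Set Z2) (σ : Z2 → Z2) (E : ℕ)
    (hs : ∀ y ∈ N, ∀ y' ∈ N, y ≠ y' → E < dd (σ y) (σ y')) (w : Z2 → ℝ) (s : Finset Z2)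
    (S : Op Z2) (x y : Z2) :
    ent (star (Vop N σ w s) * S) x y =
      ∑ v ∈ s, (w v : ℂ) * (wt N v x * ent S (σ (x - v) + v) y) := by
  rw [Vop_eq, star_sum, Finset.sum_mul, ent_sum]
  refine Finset.sum_congr rfl fun v _ => ?_
  rw [star_smul, smul_mul_assoc, ent_smul, ent_star_pop_mul hPOP (adm_wt N σ E hs v)]
  have h1 : star ((w v : ℝ) : ℂ) = ((w v : ℝ) : ℂ) := Complex.conj_ofReal _
  have h2 : (starRingEnd ℂ) (wt N v x) = wt N v x := by
    unfold wt
    split_ifs <;> simp
  rw [h1, h2]

theorem t_VR2 (hPOP : StPOP) : StVR2 := by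
  intro N N0 σ σ' r E f f' hr hrE hin hf hf' hfs hfs' hs hs'
  have hbf : Bd f := hf
  have hbf' : Bd f' := hf'
  refine ⟨?_, ?_, ?_⟩
  · apply ent_ext
    intro x y
    rw [ent_mul_mu hPOP hbf', mul_assoc, ent_mu_mul hPOP hbf,
      ent_star_Vop_mul hPOP N σ E hs, ent_mu hPOP (hbf.rmul hbf')]
    by_cases hx : f x = 0
    · by_cases hxy : x = y
      · subst hxy
        rw [if_pos rfl, hx]
        simp
      · rw [if_neg hxy, hx]
        simp
    by_cases hy : f' y = 0
    · rw [hy]
      by_cases hxy : x = y
      · subst hxy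
        rw [if_pos rfl]
        simp
      · rw [if_neg hxy]
        simp
    have hxN := hfs x hx
    have hyN := hfs' y hy
    have key : (∑ v ∈ box r, (((1 / (r : ℝ) : ℝ)) : ℂ) * (wt N v x *
        ent (Vop N σ (fun _ => 1 / (r : ℝ)) (box r)) (σ (x - v) + v) y)) =
        if x = y then 1 else 0 := by
      have hterm : ∀ v ∈ box r, (((1 / (r : ℝ) : ℝ)) : ℂ) * (wt N v x *
          ent (Vop N σ (fun _ => 1 / (r : ℝ)) (box r)) (σ (x - v) + v) y) =
          (1 / (r : ℂ)) ^ 2 * (if x = y then 1 else 0) := by
        intro v hv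
        have hw1 : wt N v x = 1 := if_pos (hin x hxN v hv)
        rw [hw1, ent_Vop hPOP N σ E hs, one_mul]
        have hsum : (∑ v' ∈ box r, (((1 / (r : ℝ) : ℝ)) : ℂ) *
            (if σ (x - v) + v = σ (y - v') + v' then wt N v' y else 0)) =
            (1 / (r : ℂ)) * (if x = y then 1 else 0) := by
          have h2 : ∀ v' ∈ box r, (((1 / (r : ℝ) : ℝ)) : ℂ) *
              (if σ (x - v) + v = σ (y - v') + v' then wt N v' y else 0) =
              if v' = v then (1 / (r : ℂ)) * (if x = y then 1 else 0) else 0 := by
            intro v' hv'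
            have hw2 : wt N v' y = 1 := if_pos (hin y hyN v' hv')
            rw [hw2]
            by_cases he : σ (x - v) + v = σ (y - v') + v'
            · have h3 : x - v = y - v' := by
                by_contra hne
                have h4 := hs _ (hin x hxN v hv) _ (hin y hyN v' hv') hne
                rw [dd_of_add_eq he] at h4
                have h5 := dd_box hv' hv
                omega
              have h4 : v = v' := by
                rw [h3] at he
                exact add_left_cancel he
              have h5 : x = y := by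
                rw [h4] at h3
                exact sub_left_injective h3
              rw [if_pos he, if_pos h4.symm, if_pos h5]
              push_cast
              ring
            · rw [if_neg he]
              by_cases hvv : v' = v
              · rw [if_pos hvv]
                have h5 : x ≠ y := by
                  rintro rfl
                  exact he (by rw [hvv])
                rw [if_neg h5]
                simp
              · rw [if_neg hvv]
                simp
          rw [Finset.sum_congr rfl h2, Finset.sum_ite_eq' (box r) v, if_pos hv]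
        rw [hsum]
        push_cast
        ring
      rw [Finset.sum_congr rfl hterm, Finset.sum_const, card_box, nsmul_eq_mul]
      have hr0 : (r : ℂ) ≠ 0 := by exact_mod_cast hr.ne'
      push_cast
      field_simp
    rw [key]
    by_cases hxy : x = y
    · subst hxy
      rw [if_pos rfl, if_pos rfl]
      push_cast
      ring
    · rw [if_neg hxy, if_neg hxy]
      simp
  · intro hsep
    apply ent_ext
    intro x y
    rw [ent_mul_mu hPOP hbf', mul_assoc, ent_mu_mul hPOP hbf,
      ent_star_Vop_mul hPOP N σ E hs, ent_zero]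
    have key : (∑ v ∈ box r, (((1 / (r : ℝ) : ℝ)) : ℂ) * (wt N v x *
        ent (Vop N σ' (fun _ => 1 / (r : ℝ)) (box r)) (σ (x - v) + v) y)) = 0 := by
      refine Finset.sum_eq_zero fun v hv => ?_
      rw [ent_Vop hPOP N σ' E hs']
      by_cases hxN : x - v ∈ N
      · have hz : (∑ v' ∈ box r, (((1 / (r : ℝ) : ℝ)) : ℂ) *
            (if σ (x - v) + v = σ' (y - v') + v' then wt N v' y else 0)) = 0 := by
          refine Finset.sum_eq_zero fun v' hv' => ?_
          by_cases hyN : y - v' ∈ N
          · have he : ¬ (σ (x - v) + v = σ' (y - v') + v') := by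
              intro he
              have h4 := hsep _ hxN _ hyN
              rw [dd_of_add_eq he] at h4
              have h5 := dd_box hv' hv
              omega
            rw [if_neg he, mul_zero]
          · have hw : wt N v' y = 0 := if_neg hyN
            rw [hw]
            simp
        rw [hz]
        simp
      · have hw : wt N v x = 0 := if_neg hxN
        rw [hw]
        simp
    rw [key]
    simp
  · intro hfar
    apply ent_ext
    intro x y
    rw [ent_mu_mul hPOP hbf, ent_Vop hPOP N σ E hs, ent_zero]
    by_cases hx : f x = 0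
    · rw [hx]
      simp
    have hxN := hfs x hx
    have hz : (∑ v ∈ box r, (((1 / (r : ℝ) : ℝ)) : ℂ) *
        (if x = σ (y - v) + v then wt N v y else 0)) = 0 := by
      refine Finset.sum_eq_zero fun v hv => ?_
      by_cases hyN : y - v ∈ N
      · have he : ¬ (x = σ (y - v) + v) := by
          intro he
          have h4 := hfar _ hyN x hxN
          have h5 : dd (σ (y - v)) x = dd 0 v := by
            rw [he, dd_add_left]
          have h6 := dd_box (zero_mem_box hr) hv
          omega
        rw [if_neg he, mul_zero]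
      · have hw : wt N v y = 0 := if_neg hyN
        rw [hw]
        simp
    rw [hz, mul_zero]

end

end Pool.Agent.Helper7_RU.R_VR
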