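import Pool.Agent.Helper7_RU.R_ASD
import Pool.Agent.Helper7_RU.R_GRD
import Pool.Agent.Helper7_RU.R_RAD
import Pool.Agent.Helper7_RU.R_CMB
import Pool.Agent.Helper7_RU.R_POP
import Pool.Agent.Helper7_RU.R_VN
import Pool.Agent.Helper7_RU.R_VR
import Pool.Agent.Helper7_RU.R_LAD
import Pool.Agent.Helper7_RU.R_LC
import Pool.Agent.Helper7_RU.R_GEOA
import Pool.Agent.Helper7_RU.R_GEO
import Pool.Agent.Helper7_RU.R_AFB
import Pool.Agent.Helper7_RU.R_DEN
import Pool.Agent.Helper7_RU.R_EST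
import Pool.Agent.Helper7_RU.R_MAIN

/-! # The nuclear dimension of the uniform Roe algebra of the plane: assembly -/

set_option autoImplicit false

open Pool.Agent.W659.EC

noncomputable section

namespace Pool.Agent.Helper7_RU

theorem all_POP : StPOP := R_POP.t_POP

theorem all_GEO : StGEO :=
  R_GEO.t_GEO all_POP (R_GEOA.t_GEOA (R_CMB.t_CMB R_GRD.t_GRD R_RAD.t_RAD))
    (R_VR.t_VR2 all_POP) (R_VN.t_VN all_POP) (R_VN.t_VC all_POP)

theorem all_LAD : StLAD := R_LAD.t_LAD all_POP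

theorem all_LC : StLC := R_LC.t_LC all_POP (R_LAD.t_ROT all_POP)

theorem all_MAIN : nucDim (uRoe (ℤ × ℤ)) ≤ 1 :=
  R_MAIN.t_MAIN all_POP all_LAD all_GEO (R_AFB.t_AFB all_POP) (R_DEN.t_DEN all_POP)
    (R_EST.t_EST all_POP all_LAD all_LC)

theorem bddGeom_plane : BddGeom (ℤ × ℤ) := by
  intro r _
  obtain ⟨R, hR⟩ := exists_nat_ge r
  refine ⟨(2 * R + 1) ^ 2, fun x => ?_⟩
  have hsub : Metric.closedBall x r ⊆ (bl x R : Set Z2) := by
    intro y hy
    rw [Finset.mem_coe, mem_bl, dd_comm]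
    rw [Metric.mem_closedBall, dist_eq] at hy
    exact_mod_cast hy.trans hR
  calc (Metric.closedBall x r).encard ≤ (bl x R : Set Z2).encard := Set.encard_le_encard hsub
    _ = ((bl x R).card : ℕ∞) := Set.encard_coe_eq_coe_finsetCard _
    _ = (((2 * R + 1) ^ 2 : ℕ) : ℕ∞) := by rw [card_bl]

end Pool.Agent.Helper7_RU
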