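import Pool.Agent.Helper7_RU.Stm

/-! # Calculus with weighted partial translations -/

set_option autoImplicit false

open scoped ENNReal Matrix.Norms.L2Operator Matrix
open Pool.Agent.W659.EC

noncomputable section

namespace Pool.Agent.Helper7_RU

variable {X : Type}

/-- bounded functions -/
def Bd {E : Type} [Norm E] (f : X → E) : Prop := ∃ C : ℝ, ∀ x, ‖f x‖ ≤ C

/-- bounded and injective on the support -/
def Adm (f : X → ℂ) (φ : X → X) : Prop :=
  Bd f ∧ ∀ x y, f x ≠ 0 → f y ≠ 0 → φ x = φ y → x = y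

theorem Bd.pos {E : Type} [NormedAddCommGroup E] {f : X → E} (h : Bd f) :
    ∃ C : ℝ, 0 ≤ C ∧ ∀ x, ‖f x‖ ≤ C := by
  obtain ⟨C, hC⟩ := h
  exact ⟨max C 0, le_max_right _ _, fun x => (hC x).trans (le_max_left _ _)⟩

theorem pop_dl (h : StPOP) {f : X → ℂ} {φ : X → X} (hf : Adm f φ) (x : X) :
    pop f φ (dl x) = f x • dl (φ x) := by
  obtain ⟨C, hC0, hC⟩ := hf.1.pos
  exact (h X f φ C hC0 hC hf.2).1 x

theorem norm_pop_le (h : StPOP) {f : X → ℂ} {φ : X → X} (hf : Adm f φ) {C : ℝ} (hC0 : 0 ≤ C)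
    (hC : ∀ x, ‖f x‖ ≤ C) : ‖pop f φ‖ ≤ C :=
  (h X f φ C hC0 hC hf.2).2

theorem ent_pop [DecidableEq X] (h : StPOP) {f : X → ℂ} {φ : X → X} (hf : Adm f φ) (x y : X) :
    ent (pop f φ) x y = if x = φ y then f y else 0 := by
  unfold ent
  rw [pop_dl h hf]
  change f y * (dl (φ y) : Hs X) x = _
  rw [dl_apply]
  split_ifs <;> simp

theorem ent_mul_pop (h : StPOP) {f : X → ℂ} {φ : X → X} (hf : Adm f φ) (S : Op X) (x y : X) :
    ent (S * pop f φ) x y = f y * ent S x (φ y) := by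
  unfold ent
  rw [ContinuousLinearMap.mul_def, ContinuousLinearMap.comp_apply, pop_dl h hf, map_smul]
  rfl

theorem ent_star_pop [DecidableEq X] (h : StPOP) {f : X → ℂ} {φ : X → X} (hf : Adm f φ)
    (x y : X) : ent (star (pop f φ)) x y = if y = φ x then (starRingEnd ℂ) (f x) else 0 := by
  rw [ent_star, ent_pop h hf]
  split_ifs <;> simp

theorem ent_star_pop_mul (h : StPOP) {f : X → ℂ} {φ : X → X} (hf : Adm f φ) (S : Op X)
    (x y : X) : ent (star (pop f φ) * S) x y = (starRingEnd ℂ) (f x) * ent S (φ x) y := by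
  have h1 : star (pop f φ) * S = star (star S * pop f φ) := by rw [star_mul, star_star]
  rw [h1, ent_star, ent_mul_pop h hf, map_mul, ent_star]
  simp

/-! ## multiplication operators -/

theorem adm_id {f : X → ℂ} (hf : Bd f) : Adm f id := ⟨hf, fun _ _ _ _ e => e⟩

theorem ent_mulc [DecidableEq X] (h : StPOP) {f : X → ℂ} (hf : Bd f) (x y : X) :
    ent (mulc f) x y = if x = y then f y else 0 := ent_pop h (adm_id hf) x y

theorem ent_mul_mulc (h : StPOP) {f : X → ℂ} (hf : Bd f) (S : Op X) (x y : X) :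
    ent (S * mulc f) x y = f y * ent S x y := ent_mul_pop h (adm_id hf) S x y

theorem star_mulc (h : StPOP) {f : X → ℂ} (hf : Bd f) :
    star (mulc f) = mulc fun x => (starRingEnd ℂ) (f x) := by
  classical
  have hf' : Bd fun x => (starRingEnd ℂ) (f x) := by
    obtain ⟨C, hC⟩ := hf
    exact ⟨C, fun x => by simpa using hC x⟩
  apply ent_ext
  intro x y
  rw [ent_star, ent_mulc h hf, ent_mulc h hf']
  by_cases hxy : x = y
  · subst hxy; simp
  · rw [if_neg hxy, if_neg (Ne.symm hxy), map_zero]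

theorem ent_mulc_mul (h : StPOP) {f : X → ℂ} (hf : Bd f) (S : Op X) (x y : X) :
    ent (mulc f * S) x y = f x * ent S x y := by
  have h1 : mulc f * S = star (star S * star (mulc f)) := by
    rw [star_mul, star_star, star_star]
  have hf' : Bd fun x => (starRingEnd ℂ) (f x) := by
    obtain ⟨C, hC⟩ := hf
    exact ⟨C, fun x => by simpa using hC x⟩
  rw [h1, ent_star, star_mulc h hf, ent_mul_mulc h hf', map_mul, ent_star]
  simp

theorem norm_mulc_le (h : StPOP) {f : X → ℂ} {C : ℝ} (hC0 : 0 ≤ C) (hC : ∀ x, ‖f x‖ ≤ C) :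
    ‖mulc f‖ ≤ C := norm_pop_le h (adm_id ⟨C, hC⟩) hC0 hC

theorem Bd.mul {f g : X → ℂ} (hf : Bd f) (hg : Bd g) : Bd fun x => f x * g x := by
  obtain ⟨C, hC0, hC⟩ := hf.pos
  obtain ⟨C', _, hC'⟩ := hg.pos
  exact ⟨C * C', fun x => by
    rw [norm_mul]; exact mul_le_mul (hC x) (hC' x) (norm_nonneg _) hC0⟩

theorem Bd.add {f g : X → ℂ} (hf : Bd f) (hg : Bd g) : Bd fun x => f x + g x := by
  obtain ⟨C, _, hC⟩ := hf.pos
  obtain ⟨C', _, hC'⟩ := hg.pos
  exact ⟨C + C', fun x => (norm_add_le _ _).trans (add_le_add (hC x) (hC' x))⟩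

theorem mulc_mul (h : StPOP) {f g : X → ℂ} (hf : Bd f) (hg : Bd g) :
    mulc f * mulc g = mulc fun x => f x * g x := by
  classical
  apply ent_ext
  intro x y
  rw [ent_mulc_mul h hf, ent_mulc h hg, ent_mulc h (hf.mul hg)]
  split_ifs with e
  · rw [e]
  · rw [mul_zero]

theorem mulc_add (h : StPOP) {f g : X → ℂ} (hf : Bd f) (hg : Bd g) :
    mulc f + mulc g = mulc fun x => f x + g x := by
  classical
  apply ent_ext
  intro x y
  rw [ent_add, ent_mulc h hf, ent_mulc h hg, ent_mulc h (hf.add hg)]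
  split_ifs <;> simp

theorem mulc_one (h : StPOP) : mulc (fun _ : X => (1 : ℂ)) = 1 := by
  classical
  apply ent_ext
  intro x y
  rw [ent_mulc h ⟨1, by simp⟩, ent_one]

/-! ## real functions -/

/-- bounded real functions -/
theorem Bd.ofReal {f : X → ℝ} (hf : Bd f) : Bd fun x => (f x : ℂ) := by
  obtain ⟨C, hC⟩ := hf
  exact ⟨C, fun x => by simpa using hC x⟩

theorem bd_of_le {f : X → ℝ} {C : ℝ} (h : ∀ x, |f x| ≤ C) : Bd f := ⟨C, h⟩

theorem bd_iff {f : X → ℝ} : Bd f ↔ ∃ C, ∀ x, |f x| ≤ C := Iff.rfl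

theorem Bd.rmul {f g : X → ℝ} (hf : Bd f) (hg : Bd g) : Bd fun x => f x * g x := by
  obtain ⟨C, hC0, hC⟩ := hf.pos
  obtain ⟨C', _, hC'⟩ := hg.pos
  exact ⟨C * C', fun x => by
    rw [norm_mul]; exact mul_le_mul (hC x) (hC' x) (norm_nonneg _) hC0⟩

theorem Bd.radd {f g : X → ℝ} (hf : Bd f) (hg : Bd g) : Bd fun x => f x + g x := by
  obtain ⟨C, _, hC⟩ := hf.pos
  obtain ⟨C', _, hC'⟩ := hg.pos
  exact ⟨C + C', fun x => (norm_add_le _ _).trans (add_le_add (hC x) (hC' x))⟩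

theorem Bd.rsub {f g : X → ℝ} (hf : Bd f) (hg : Bd g) : Bd fun x => f x - g x := by
  obtain ⟨C, _, hC⟩ := hf.pos
  obtain ⟨C', _, hC'⟩ := hg.pos
  exact ⟨C + C', fun x => (norm_sub_le _ _).trans (add_le_add (hC x) (hC' x))⟩

theorem Bd.rconst (c : ℝ) : Bd fun _ : X => c := ⟨‖c‖, fun _ => le_rfl⟩

theorem Bd.rsmul {f : X → ℝ} (c : ℝ) (hf : Bd f) : Bd fun x => c * f x := (Bd.rconst c).rmul hf

theorem ent_mu [DecidableEq X] (h : StPOP) {f : X → ℝ} (hf : Bd f) (x y : X) :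
    ent (mu f) x y = if x = y then (f y : ℂ) else 0 := ent_mulc h hf.ofReal x y

theorem ent_mul_mu (h : StPOP) {f : X → ℝ} (hf : Bd f) (S : Op X) (x y : X) :
    ent (S * mu f) x y = f y * ent S x y := ent_mul_mulc h hf.ofReal S x y

theorem ent_mu_mul (h : StPOP) {f : X → ℝ} (hf : Bd f) (S : Op X) (x y : X) :
    ent (mu f * S) x y = f x * ent S x y := ent_mulc_mul h hf.ofReal S x y

theorem star_mu (h : StPOP) {f : X → ℝ} (hf : Bd f) : star (mu f) = mu f := by
  rw [mu, star_mulc h hf.ofReal]; simp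

theorem norm_mu_le (h : StPOP) {f : X → ℝ} {C : ℝ} (hC0 : 0 ≤ C) (hC : ∀ x, |f x| ≤ C) :
    ‖mu f‖ ≤ C := norm_mulc_le h hC0 fun x => by simpa using hC x

theorem mu_mul (h : StPOP) {f g : X → ℝ} (hf : Bd f) (hg : Bd g) :
    mu f * mu g = mu fun x => f x * g x := by
  rw [mu, mu, mulc_mul h hf.ofReal hg.ofReal, mu]
  congr 1; funext x; push_cast; rfl

theorem mu_add (h : StPOP) {f g : X → ℝ} (hf : Bd f) (hg : Bd g) :
    mu f + mu g = mu fun x => f x + g x := by
  rw [mu, mu, mulc_add h hf.ofReal hg.ofReal, mu]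
  congr 1; funext x; push_cast; rfl

theorem mu_one (h : StPOP) : mu (fun _ : X => (1 : ℝ)) = 1 := by
  rw [mu]; simpa using mulc_one h

theorem mu_smul (h : StPOP) {f : X → ℝ} (hf : Bd f) (c : ℝ) :
    (c : ℂ) • mu f = mu fun x => c * f x := by
  classical
  apply ent_ext
  intro x y
  rw [ent_smul, ent_mu h hf, ent_mu h (hf.rsmul c)]
  split_ifs <;> simp

theorem mu_sub (h : StPOP) {f g : X → ℝ} (hf : Bd f) (hg : Bd g) :
    mu f - mu g = mu fun x => f x - g x := by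
  classical
  apply ent_ext
  intro x y
  rw [ent_sub, ent_mu h hf, ent_mu h hg, ent_mu h (hf.rsub hg)]
  split_ifs <;> simp

theorem mu_comm (h : StPOP) {f g : X → ℝ} (hf : Bd f) (hg : Bd g) :
    mu f * mu g = mu g * mu f := by
  rw [mu_mul h hf hg, mu_mul h hg hf]
  congr 1; funext x; ring

theorem mulc_comm (h : StPOP) {f g : X → ℂ} (hf : Bd f) (hg : Bd g) :
    mulc f * mulc g = mulc g * mulc f := by
  rw [mulc_mul h hf hg, mulc_mul h hg hf]
  congr 1; funext x; ring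

/-! ## translations of the plane -/

theorem adm_lam (g : Z2) : Adm (fun _ : Z2 => (1 : ℂ)) fun x => x + g :=
  ⟨⟨1, by simp⟩, fun _ _ _ _ e => add_right_cancel e⟩

theorem ent_lam (h : StPOP) (g x y : Z2) : ent (lam g) x y = if x = y + g then 1 else 0 :=
  ent_pop h (adm_lam g) x y

theorem ent_mul_lam (h : StPOP) (g : Z2) (S : Op Z2) (x y : Z2) :
    ent (S * lam g) x y = ent S x (y + g) := by
  rw [lam, ent_mul_pop h (adm_lam g), one_mul]

theorem star_lam (h : StPOP) (g : Z2) : star (lam g) = lam (-g) := by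
  apply ent_ext
  intro x y
  rw [ent_star, ent_lam h, ent_lam h]
  by_cases hxy : y = x + g
  · rw [if_pos hxy, if_pos (by rw [hxy]; abel), map_one]
  · rw [if_neg hxy, if_neg, map_zero]
    rintro rfl
    exact hxy (by abel)

theorem ent_lam_mul (h : StPOP) (g : Z2) (S : Op Z2) (x y : Z2) :
    ent (lam g * S) x y = ent S (x - g) y := by
  have h1 : lam g * S = star (star S * lam (-g)) := by
    rw [star_mul, star_star, star_lam h, neg_neg]
  rw [h1, ent_star, ent_mul_lam h, ent_star]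
  simp [sub_eq_add_neg]

theorem norm_lam_le (h : StPOP) (g : Z2) : ‖lam g‖ ≤ 1 :=
  norm_pop_le h (adm_lam g) zero_le_one (by simp)

theorem lam_zero (h : StPOP) : lam 0 = 1 := by
  apply ent_ext
  intro x y
  rw [ent_lam h, ent_one, add_zero]

/-! ## membership in the uniform Roe algebra -/

theorem finProp_mem {T : Op Z2} (R : ℕ) (hT : ∀ x y, R < dd x y → ent T x y = 0) :
    T ∈ uRoe Z2 := by
  refine (mem_uRoe T).2 (subset_closure ⟨R, fun x y h => hT x y ?_⟩)
  rw [dist_eq] at h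
  exact_mod_cast h

theorem pop_mem (h : StPOP) {f : Z2 → ℂ} {φ : Z2 → Z2} (hf : Adm f φ) (R : ℕ)
    (hR : ∀ x, f x ≠ 0 → dd x (φ x) ≤ R) : pop f φ ∈ uRoe Z2 := by
  refine finProp_mem R fun x y hxy => ?_
  rw [ent_pop h hf]
  split_ifs with e
  · by_contra hne
    have := hR y hne
    rw [e, dd_comm] at hxy
    omega
  · rfl

theorem mulc_mem (h : StPOP) {f : Z2 → ℂ} (hf : Bd f) : mulc f ∈ uRoe Z2 :=
  pop_mem h (adm_id hf) 0 fun x _ => by simp [dd_self]

theorem mu_mem (h : StPOP) {f : Z2 → ℝ} (hf : Bd f) : mu f ∈ uRoe Z2 := mulc_mem h hf.ofReal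

theorem lam_mem (h : StPOP) (g : Z2) : lam g ∈ uRoe Z2 :=
  pop_mem h (adm_lam g) (dd 0 g) fun x _ => (dd_add_left x g).le

end Pool.Agent.Helper7_RU
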