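import Mathlib
import Pool.Agent.W659.EC.Defs

/-! # Uniform Roe algebras and asymptotic dimension: definitions -/

set_option autoImplicit false

open scoped ENNReal

noncomputable section

namespace Pool.Agent.Helper7_RU

/-- the Hilbert space `ℓ²(X)` -/
abbrev Hs (X : Type) : Type := lp (fun _ : X => ℂ) 2

/-- the bounded operators on `ℓ²(X)` -/
abbrev Op (X : Type) : Type := Hs X →L[ℂ] Hs X

/-- the basis vector at `x` -/
def dl {X : Type} (x : X) : Hs X := open Classical in lp.single 2 x (1 : ℂ)

/-- the matrix entry `⟨T δ_y, δ_x⟩`, that is, the coordinate at `x` of `T δ_y` -/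
def ent {X : Type} (T : Op X) (x y : X) : ℂ := (T (dl y) : Hs X) x

theorem dl_apply_self {X : Type} (x : X) : (dl x : Hs X) x = 1 := by
  classical
  simp [dl, lp.single_apply]

theorem dl_apply_ne {X : Type} {x y : X} (h : y ≠ x) : (dl x : Hs X) y = 0 := by
  classical
  simp [dl, lp.single_apply, h]

theorem dl_apply {X : Type} [DecidableEq X] (x y : X) :
    (dl x : Hs X) y = if y = x then 1 else 0 := by
  split_ifs with h
  · rw [h]; exact dl_apply_self x
  · exact dl_apply_ne h

theorem inner_dl_left {X : Type} (x : X) (v : Hs X) : inner ℂ (dl x) v = v x := by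
  classical
  rw [lp.inner_eq_tsum, tsum_eq_single x]
  · simp [dl_apply_self]
  · intro y hy
    simp [dl_apply_ne hy]

theorem inner_dl_right {X : Type} (x : X) (v : Hs X) :
    inner ℂ v (dl x) = (starRingEnd ℂ) (v x) := by
  rw [← inner_conj_symm, inner_dl_left]

theorem norm_dl {X : Type} (x : X) : ‖(dl x : Hs X)‖ = 1 := by
  classical
  rw [dl, lp.norm_single (by norm_num)]
  simp

theorem ent_star {X : Type} (T : Op X) (x y : X) :
    ent (star T) x y = (starRingEnd ℂ) (ent T y x) := by
  unfold ent
  rw [← inner_dl_left, ContinuousLinearMap.star_eq_adjoint,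
    ContinuousLinearMap.adjoint_inner_right, inner_dl_right]

theorem single_eq_smul {X : Type} [DecidableEq X] (x : X) (c : ℂ) :
    (lp.single 2 x c : Hs X) = c • dl x := by
  ext y
  rcases eq_or_ne y x with rfl | h
  · simp [dl_apply_self]
  · simp [dl_apply_ne h, lp.single_apply, h]

/-- a vector is the sum of its coordinates times the basis vectors -/
theorem hs_hasSum {X : Type} (v : Hs X) : HasSum (fun x => v x • dl x) v := by
  classical
  have h := lp.hasSum_single (E := fun _ : X => ℂ) (p := 2) (by norm_num) v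
  simpa only [single_eq_smul] using h

/-- the coordinate functional -/
theorem hasSum_coord {X Y : Type} {f : Y → Hs X} {v : Hs X} (h : HasSum f v) (x : X) :
    HasSum (fun i => (f i : Hs X) x) ((v : Hs X) x) := by
  have := h.mapL (innerSL ℂ (dl x : Hs X))
  simpa [inner_dl_left] using this

theorem hasSum_apply {X : Type} (T : Op X) (v : Hs X) (x : X) :
    HasSum (fun z => v z * ent T x z) ((T v : Hs X) x) := by
  have h1 := (hs_hasSum v).mapL T
  have h2 := hasSum_coord h1 x
  simpa [ent] using h2

/-- operators with equal entries are equal -/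
theorem ent_ext {X : Type} {T S : Op X} (h : ∀ x y, ent T x y = ent S x y) : T = S := by
  ext v x
  have h1 := hasSum_apply T v x
  have h2 := hasSum_apply S v x
  simp only [h] at h1
  exact h1.unique h2

theorem ent_mul {X : Type} (T S : Op X) (x y : X) :
    HasSum (fun z => ent S z y * ent T x z) (ent (T * S) x y) := by
  have := hasSum_apply T (S (dl y)) x
  exact this

@[simp] theorem ent_add {X : Type} (T S : Op X) (x y : X) :
    ent (T + S) x y = ent T x y + ent S x y := rfl

@[simp] theorem ent_sub {X : Type} (T S : Op X) (x y : X) :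
    ent (T - S) x y = ent T x y - ent S x y := rfl

@[simp] theorem ent_neg {X : Type} (T : Op X) (x y : X) :
    ent (-T) x y = -ent T x y := rfl

@[simp] theorem ent_zero {X : Type} (x y : X) : ent (0 : Op X) x y = 0 := rfl

@[simp] theorem ent_smul {X : Type} (c : ℂ) (T : Op X) (x y : X) :
    ent (c • T) x y = c * ent T x y := rfl

theorem ent_one {X : Type} [DecidableEq X] (x y : X) :
    ent (1 : Op X) x y = if x = y then 1 else 0 := by
  unfold ent
  rw [show (1 : Op X) (dl y) = dl y from rfl, dl_apply]

theorem norm_ent_le {X : Type} (T : Op X) (x y : X) : ‖ent T x y‖ ≤ ‖T‖ := by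
  calc ‖ent T x y‖ = ‖inner ℂ (dl x : Hs X) (T (dl y))‖ := by rw [inner_dl_left, ent]
    _ ≤ ‖(dl x : Hs X)‖ * ‖T (dl y)‖ := norm_inner_le_norm _ _
    _ ≤ 1 * (‖T‖ * 1) := by
        rw [norm_dl]
        gcongr
        exact (T.le_opNorm _).trans (by rw [norm_dl])
    _ = ‖T‖ := by ring

/-- operators of finite propagation -/
def FinProp {X : Type} [MetricSpace X] (T : Op X) : Prop :=
  ∃ R : ℝ, ∀ x y : X, R < dist x y → ent T x y = 0

theorem FinProp.mul {X : Type} [MetricSpace X] {T S : Op X} (hT : FinProp T) (hS : FinProp S) :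
    FinProp (T * S) := by
  obtain ⟨R, hR⟩ := hT
  obtain ⟨R', hR'⟩ := hS
  refine ⟨R + R', fun x y h => ?_⟩
  have h0 := ent_mul T S x y
  have h1 : (fun z => ent S z y * ent T x z) = fun _ => 0 := by
    funext z
    rcases lt_or_ge R (dist x z) with hz | hz
    · rw [hR x z hz, mul_zero]
    · rw [hR' z y, zero_mul]
      have := dist_triangle x z y
      linarith
  rw [h1] at h0
  exact h0.unique hasSum_zero

theorem FinProp.add {X : Type} [MetricSpace X] {T S : Op X} (hT : FinProp T) (hS : FinProp S) :
    FinProp (T + S) := by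
  obtain ⟨R, hR⟩ := hT
  obtain ⟨R', hR'⟩ := hS
  refine ⟨max R R', fun x y h => ?_⟩
  rw [ent_add, hR x y (lt_of_le_of_lt (le_max_left _ _) h),
    hR' x y (lt_of_le_of_lt (le_max_right _ _) h), add_zero]

theorem FinProp.algebraMap {X : Type} [MetricSpace X] (c : ℂ) :
    FinProp (algebraMap ℂ (Op X) c) := by
  classical
  refine ⟨0, fun x y h => ?_⟩
  rw [Algebra.algebraMap_eq_smul_one, ent_smul, ent_one, if_neg, mul_zero]
  rintro rfl
  simp at h

theorem FinProp.star {X : Type} [MetricSpace X] {T : Op X} (hT : FinProp T) :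
    FinProp (star T) := by
  obtain ⟨R, hR⟩ := hT
  refine ⟨R, fun x y h => ?_⟩
  rw [ent_star, hR y x (by rwa [dist_comm]), map_zero]

/-- the *-algebra of operators of finite propagation -/
def finPropAlg (X : Type) [MetricSpace X] : StarSubalgebra ℂ (Op X) where
  carrier := {T | FinProp T}
  mul_mem' := FinProp.mul
  add_mem' := FinProp.add
  algebraMap_mem' := FinProp.algebraMap
  star_mem' := FinProp.star

/-- the uniform Roe algebra `C*_u(X)`: the norm closure of the operators of finite propagation -/
def uRoe (X : Type) [MetricSpace X] : StarSubalgebra ℂ (Op X) := (finPropAlg X).topologicalClosure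

theorem mem_uRoe {X : Type} [MetricSpace X] (T : Op X) :
    T ∈ uRoe X ↔ T ∈ closure {S : Op X | FinProp S} := Iff.rfl

instance (X : Type) [MetricSpace X] : IsClosed (uRoe X : Set (Op X)) :=
  (finPropAlg X).isClosed_topologicalClosure

instance (X : Type) [MetricSpace X] : CStarAlgebra (uRoe X) := StarSubalgebra.cstarAlgebra (uRoe X)

/-- bounded geometry: for every radius, the balls of this radius have boundedly many points -/
def BddGeom (X : Type) [MetricSpace X] : Prop :=
  ∀ r : ℝ, 0 < r → ∃ C : ℕ, ∀ x : X, (Metric.closedBall x r).encard ≤ C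

/-- the asymptotic dimension is at most `n`: for every `R > 0` there is a cover of `X` by sets of
uniformly bounded diameter such that every ball of radius `R` meets at most `n + 1` members -/
def AsdimLE (X : Type) [MetricSpace X] (n : ℕ) : Prop :=
  ∀ R : ℝ, 0 < R → ∃ 𝒰 : Set (Set X), ⋃₀ 𝒰 = Set.univ ∧
    (∃ D : ℝ, ∀ U ∈ 𝒰, ∀ x ∈ U, ∀ y ∈ U, dist x y ≤ D) ∧
    ∀ x : X, {U ∈ 𝒰 | (U ∩ Metric.closedBall x R).Nonempty}.encard ≤ (n + 1 : ℕ)

/-- the asymptotic dimension: the least `n` as above, `⊤` if there is none -/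
def asdim (X : Type) [MetricSpace X] : ℕ∞ := ⨅ (n : ℕ) (_ : AsdimLE X n), (n : ℕ∞)

end Pool.Agent.Helper7_RU
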