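import Pool.Agent.Helper7_RU.All

/-! # The uniform Roe algebra: definitions used in the final statement -/

set_option autoImplicit false

open Pool.Agent.W659.EC

noncomputable section

namespace Pool.Agent.Helper7_RU.Fin

/-- the *-subalgebras of a C*-algebra -/
abbrev StarSub (A : Type) [CStarAlgebra A] : Type := StarSubalgebra ℂ A

/-- the norm closure of a *-subalgebra -/
def Clos {A : Type} [CStarAlgebra A] (S : StarSub A) : Type := S.topologicalClosure

theorem isClosed_clos {A : Type} [CStarAlgebra A] (S : StarSub A) :
    IsClosed (S.topologicalClosure : Set A) := S.isClosed_topologicalClosure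

/-- the norm closure of a *-subalgebra is a C*-algebra -/
instance cstarClos {A : Type} [CStarAlgebra A] (S : StarSub A) : CStarAlgebra (Clos S) :=
  StarSubalgebra.cstarAlgebra (h_closed := isClosed_clos S) S.topologicalClosure

/-- the Hilbert space `ℓ²(X)` -/
def L2 (X : Type) : Type := lp (fun _ : X => ℂ) 2

/-- the norm of `ℓ²(X)` -/
instance normL2 (X : Type) : NormedAddCommGroup (L2 X) :=
  lp.normedAddCommGroup (E := fun _ : X => ℂ) (p := 2)

/-- the inner product of `ℓ²(X)` -/
instance innerL2 (X : Type) : InnerProductSpace ℂ (L2 X) :=
  lp.instInnerProductSpace (G := fun _ : X => ℂ)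

instance completeL2 (X : Type) : CompleteSpace (L2 X) :=
  lp.completeSpace (E := fun _ : X => ℂ) (p := 2)

/-- the C*-algebra of bounded operators on `ℓ²(X)` -/
def B2 (X : Type) : Type := L2 X →L[ℂ] L2 X

/-- its C*-algebra structure (adjoints, operator norm) -/
instance cstarB2 (X : Type) : CStarAlgebra (B2 X) :=
  instCStarAlgebraContinuousLinearMapComplexIdOfCompleteSpace (E := L2 X)

/-- the basis vector `δ_x` -/
def delta {X : Type} (x : X) : L2 X := open Classical in lp.single 2 x (1 : ℂ)

/-- the coordinate at `x` of a vector -/
def coord {X : Type} (v : lp (fun _ : X => ℂ) 2) (x : X) : ℂ := v x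

/-- the matrix entry `⟨T δ_y, δ_x⟩`, that is, the coordinate at `x` of `T δ_y` -/
def entry {X : Type} (T : L2 X →L[ℂ] L2 X) (x y : X) : ℂ := coord (T (delta y)) x

/-- operators of finite propagation -/
def FinPropagation {X : Type} [MetricSpace X] (T : B2 X) : Prop :=
  ∃ R : ℝ, ∀ x y : X, R < dist x y → entry T x y = 0

theorem FinPropagation.mul {X : Type} [MetricSpace X] {T S : B2 X} (hT : FinPropagation T)
    (hS : FinPropagation S) : FinPropagation (T * S) := FinProp.mul hT hS

theorem FinPropagation.add {X : Type} [MetricSpace X] {T S : B2 X} (hT : FinPropagation T)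
    (hS : FinPropagation S) : FinPropagation (T + S) := FinProp.add hT hS

theorem FinPropagation.algebraMap {X : Type} [MetricSpace X] (c : ℂ) :
    FinPropagation (algebraMap ℂ (B2 X) c) := FinProp.algebraMap c

theorem FinPropagation.star {X : Type} [MetricSpace X] {T : B2 X} (hT : FinPropagation T) :
    FinPropagation (star T) := FinProp.star hT

/-- the *-algebra of operators of finite propagation -/
def finPropagation (X : Type) [MetricSpace X] : StarSub (B2 X) where
  carrier := {T | FinPropagation T}
  mul_mem' := FinPropagation.mul
  add_mem' := FinPropagation.add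
  algebraMap_mem' := FinPropagation.algebraMap
  star_mem' := FinPropagation.star

/-- the uniform Roe algebra `C*_u(X)`: the norm closure of the operators of finite propagation -/
abbrev CuStar (X : Type) [MetricSpace X] : Type := Clos (finPropagation X)

set_option maxHeartbeats 1000000 in
theorem main : nucDim (CuStar (ℤ × ℤ)) ≤ 1 := all_MAIN

end Pool.Agent.Helper7_RU.Fin
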