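import Pool.Agent.Helper7_RU.Stm

/-
Project MP_80b727_an (owner helper7): the nuclear dimension of the uniform Roe algebra of ZxZ is at most 1 (asymptotic dimension 2); this
answers the question of Winter and Zacharias in the negative. URGENT: everything has to be assembled by 22:30 UTC today.
SETUP: in /workdir/pool/outputs/live: git fetch -q; then copy from origin/main to /workdir/pool at the same paths the directories
Pool/Agent/Helper7_RU/ and Pool/Agent/W659/EC/ (git archive origin/main Pool/Agent/Helper7_RU Pool/Agent/W659/EC | tar x -C /workdir/pool);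
then lake build Pool.Agent.Helper7_RU.Stm. Definitions and basic lemmas: Defs.lean (Hs, Op, dl, ent, uRoe, asdim; dl_apply, inner_dl_left, ent_star, ent_ext,
ent_mul, hasSum_apply, ...), Stm.lean (Z2, dd, bl, pop, mu, Vop, rot, lad, Copies, Bands, Geo and the statements of all parts; mem_bl, card_bl,
dd_tri, dd_comm, dist_eq, ...). Return a complete file that compiles (write it to jobs.result), no sorry, no axioms beyond the
three, following RULES.md (no banned words or characters: no double quotes, no `notation`, `macro`, `partial`, `Lean.`, and so on), all helper lemmas inside the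
namespace; do not change Defs.lean or Stm.lean. If the statement is false or lacks a hypothesis tell helper7 AT ONCE (messages + team-sql notify inbox_helper7).
If you have not finished after 40 minutes write what you have (with the sorrys) to jobs.result and say what is missing.

TARGET t_ASD : StASD.
PROOF. Suppose AsdimLE (ℤ × ℤ) 0 or AsdimLE (ℤ × ℤ) 1 (asdim is an infimum over naturals; 2 <= asdim iff AsdimLE fails for n = 0, 1; AsdimLE 0 -> AsdimLE 1
trivially). Use R = 1 (closed ball of radius 1 = 3x3 square): cover 𝒰, diameters <= D, every closed ball of radius 1 meets at most 2 members. Choose V x in 𝒰 with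
x in V x. Let L be a natural number > D, L >= 1. Label a member U (a set) by ℓ(U) in {0,1,2}: let F0 = {x | x.1 = 0} (left), F1 = {x | x.2 = 0} (bottom), F2 = {x |
x.1 = L or x.2 = L} (top and right); ℓ(U) = the least i with U ∩ Fi ∩ [0,L]^2 = ∅. It exists: a member cannot meet F0, F1 and F2 inside [0,L]^2, since a point of F0 and a
point with x.1 = L have distance >= L > D, and a point of F1 and one with x.2 = L too. Let c(x) = ℓ(V x) for x in [0,L]^2. Then c(x) ≠ i if x in Fi. In every unit
square [a,a+1]x[b,b+1] at most two labels occur, since its 4 points are in the closed ball of radius 1 around (a,b) and V takes at most two values on this ball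
(three different labels give three different members meeting the ball: encard >= 3 > 2).
SPERNER: for labels c : {0..L}^2 -> {0,1,2} let e(x,y) in ZMod 2 be 1 iff {c x, c y} = {0,1}. For a triangle x,y,z with at most 2 labels e(x,y)+e(y,z)+e(z,x) = 0 (check the
cases; decide), so for a unit square with corners p,q,r,s in cyclic order (two triangles with a common diagonal) e(p,q)+e(q,r)+e(r,s)+e(s,p) = 0. Summing over all unit
squares (a,b), 0 <= a,b < L, in ZMod 2 and telescoping (Finset.sum_range_succ, induction, or Finset.sum_comm and Finset.sum_range_sub'): the sum of e over the four sides is 0. On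
the left side labels are in {1,2}, on the bottom in {0,2}: e = 0 there. On top and right labels are in {0,1}; with u(x) = 1 if c x = 1 else 0 one has e(x,y) =
u(x)+u(y), so these sides give u(0,L)+u(L,L)+u(L,L)+u(L,0) = u(0,L)+u(L,0) = 1 + 0 ((0,L) is in F0 and F2: label 1; (L,0) in F1 and F2: label 0). So 1 = 0.
-/

set_option autoImplicit false

open scoped ENNReal Matrix.Norms.L2Operator Matrix
open Pool.Agent.W659.EC

noncomputable section

namespace Pool.Agent.Helper7_RU.R_ASD

/-- edge indicator -/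
def e (i j : Fin 3) : ZMod 2 := if (i = 0 ∧ j = 1) ∨ (i = 1 ∧ j = 0) then 1 else 0

/-- label one indicator -/
def u (i : Fin 3) : ZMod 2 := if i = 1 then 1 else 0

theorem e_comm : ∀ i j : Fin 3, e i j = e j i := by decide

theorem sq : ∀ p q r s k : Fin 3, p ≠ k → q ≠ k → r ≠ k → s ≠ k →
    (e p q - e s r) + (e q r - e p s) = 0 := by decide

theorem e_bot : ∀ i j : Fin 3, i ≠ 1 → j ≠ 1 → e i j = 0 := by decide

theorem e_left : ∀ i j : Fin 3, i ≠ 0 → j ≠ 0 → e i j = 0 := by decide

theorem e_top : ∀ i j : Fin 3, i ≠ 2 → j ≠ 2 → e i j = u j - u i := by decide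

theorem u_one : ∀ i : Fin 3, i ≠ 0 → i ≠ 2 → u i = 1 := by decide

theorem u_zero : ∀ i : Fin 3, i ≠ 1 → u i = 0 := by decide

theorem two_zero : ∀ x : ZMod 2, x - 1 + (x - 0) ≠ 0 := by decide

theorem two_zero' : ∀ x : ZMod 2, -(x - 1) + (x - 0) ≠ 0 := by decide

theorem sperner (L : ℕ) (c : ℕ → ℕ → Fin 3) (h0 : ∀ b ≤ L, c 0 b ≠ 0) (h1 : ∀ a ≤ L, c a 0 ≠ 1)
    (h2 : ∀ b ≤ L, c L b ≠ 2) (h3 : ∀ a ≤ L, c a L ≠ 2)
    (hsq : ∀ a < L, ∀ b < L, ∃ k, c a b ≠ k ∧ c (a + 1) b ≠ k ∧ c (a + 1) (b + 1) ≠ k ∧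
      c a (b + 1) ≠ k) : False := by
  have hS : ∑ a ∈ Finset.range L, ∑ b ∈ Finset.range L,
      ((e (c a b) (c (a + 1) b) - e (c a (b + 1)) (c (a + 1) (b + 1))) +
        (e (c (a + 1) b) (c (a + 1) (b + 1)) - e (c a b) (c a (b + 1)))) = 0 := by
    apply Finset.sum_eq_zero
    intro a ha
    apply Finset.sum_eq_zero
    intro b hb
    obtain ⟨k, k1, k2, k3, k4⟩ := hsq a (Finset.mem_range.mp ha) b (Finset.mem_range.mp hb)
    exact sq _ _ _ _ k k1 k2 k3 k4
  have e1 : ∑ a ∈ Finset.range L, ∑ b ∈ Finset.range L,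
      (e (c a b) (c (a + 1) b) - e (c a (b + 1)) (c (a + 1) (b + 1))) =
      -(u (c L L) - u (c 0 L)) := by
    have : ∀ a ∈ Finset.range L, ∑ b ∈ Finset.range L,
        (e (c a b) (c (a + 1) b) - e (c a (b + 1)) (c (a + 1) (b + 1))) =
        -(u (c (a + 1) L) - u (c a L)) := by
      intro a ha
      have ha' := Finset.mem_range.mp ha
      rw [Finset.sum_range_sub' (fun b => e (c a b) (c (a + 1) b)) L,
        e_bot _ _ (h1 a (by omega)) (h1 (a + 1) (by omega)),
        e_top _ _ (h3 a (by omega)) (h3 (a + 1) (by omega)), zero_sub]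
    rw [Finset.sum_congr rfl this, Finset.sum_neg_distrib,
      Finset.sum_range_sub (fun a => u (c a L)) L]
  have e2 : ∑ a ∈ Finset.range L, ∑ b ∈ Finset.range L,
      (e (c (a + 1) b) (c (a + 1) (b + 1)) - e (c a b) (c a (b + 1))) =
      u (c L L) - u (c L 0) := by
    rw [Finset.sum_comm]
    have : ∀ b ∈ Finset.range L, ∑ a ∈ Finset.range L,
        (e (c (a + 1) b) (c (a + 1) (b + 1)) - e (c a b) (c a (b + 1))) =
        u (c L (b + 1)) - u (c L b) := by
      intro b hb
      have hb' := Finset.mem_range.mp hb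
      rw [Finset.sum_range_sub (fun a => e (c a b) (c a (b + 1))) L,
        e_left _ _ (h0 b (by omega)) (h0 (b + 1) (by omega)),
        e_top _ _ (h2 b (by omega)) (h2 (b + 1) (by omega)), sub_zero]
    rw [Finset.sum_congr rfl this, Finset.sum_range_sub (fun b => u (c L b)) L]
  simp only [Finset.sum_add_distrib] at hS
  rw [e1, e2, u_one _ (h0 L le_rfl) (h3 0 (Nat.zero_le _)), u_zero _ (h1 L le_rfl)] at hS
  exact two_zero' _ hS

/-- the sides -/
def F (L : ℕ) (i : Fin 3) (x : Z2) : Prop :=
  (i = 0 ∧ x.1 = 0) ∨ (i = 1 ∧ x.2 = 0) ∨ (i = 2 ∧ (x.1 = L ∨ x.2 = L))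

/-- the box -/
def bx (L : ℕ) (x : Z2) : Prop := 0 ≤ x.1 ∧ x.1 ≤ L ∧ 0 ≤ x.2 ∧ x.2 ≤ L

theorem lab_ex (L : ℕ) (D : ℝ) (hD : D < L) (U : Set Z2) (hU : ∀ x ∈ U, ∀ y ∈ U, dist x y ≤ D) :
    ∃ i : Fin 3, ∀ x ∈ U, bx L x → ¬ F L i x := by
  by_contra hcon
  push Not at hcon
  obtain ⟨x0, hx0, -, hf0⟩ := hcon 0
  obtain ⟨x1, hx1, -, hf1⟩ := hcon 1
  obtain ⟨x2, hx2, -, hf2⟩ := hcon 2
  have g0 : x0.1 = 0 := by
    rcases hf0 with h | h | h
    · exact h.2
    · exact absurd h.1 (by decide)
    · exact absurd h.1 (by decide)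
  have g1 : x1.2 = 0 := by
    rcases hf1 with h | h | h
    · exact absurd h.1 (by decide)
    · exact h.2
    · exact absurd h.1 (by decide)
  have g2 : x2.1 = L ∨ x2.2 = L := by
    rcases hf2 with h | h | h
    · exact absurd h.1 (by decide)
    · exact absurd h.1 (by decide)
    · exact h.2
  have key : ∀ x y : Z2, x ∈ U → y ∈ U → dd x y < L := by
    intro x y hx hy
    have h := hU x hx y hy
    rw [dist_eq] at h
    exact_mod_cast lt_of_le_of_lt h hD
  rcases g2 with g2 | g2
  · have := key x0 x2 hx0 hx2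
    simp only [dd] at this
    omega
  · have := key x1 x2 hx1 hx2
    simp only [dd] at this
    omega

theorem not_one : ¬ AsdimLE Z2 1 := by
  classical
  intro h
  obtain ⟨𝒰, hcov, ⟨D, hD⟩, hmult⟩ := h 1 one_pos
  obtain ⟨L, hL⟩ := exists_nat_gt D
  have hV : ∀ x : Z2, ∃ U ∈ 𝒰, x ∈ U := by
    intro x
    have : x ∈ ⋃₀ 𝒰 := by rw [hcov]; trivial
    exact this
  choose V hVU hVx using hV
  have hlab : ∀ U : Set Z2, ∃ i : Fin 3, U ∈ 𝒰 → ∀ x ∈ U, bx L x → ¬ F L i x := by
    intro U
    by_cases hU : U ∈ 𝒰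
    · obtain ⟨i, hi⟩ := lab_ex L D hL U (hD U hU)
      exact ⟨i, fun _ => hi⟩
    · exact ⟨0, fun h => absurd h hU⟩
  choose lab hlab using hlab
  have hc : ∀ (x : Z2) (i : Fin 3), bx L x → F L i x → lab (V x) ≠ i := by
    intro x i hx hF hi
    exact hlab (V x) (hVU x) x (hVx x) hx (hi ▸ hF)
  refine sperner L (fun a b => lab (V ((a : ℤ), (b : ℤ)))) ?_ ?_ ?_ ?_ ?_
  · intro b hb
    apply hc
    · simp only [bx]; omega
    · simp [F]
  · intro a ha
    apply hc
    · simp only [bx]; omega
    · simp [F]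
  · intro b hb
    apply hc
    · simp only [bx]; omega
    · simp [F]
  · intro a ha
    apply hc
    · simp only [bx]; omega
    · simp [F]
  · intro a ha b hb
    by_contra hcon
    push Not at hcon
    have h4 : ∀ k : Fin 3, ∃ x : Z2, dd x ((a : ℤ), (b : ℤ)) ≤ 1 ∧ lab (V x) = k := by
      intro k
      have hk := hcon k
      by_cases k1 : lab (V ((a : ℤ), (b : ℤ))) = k
      · exact ⟨_, by simp [dd], k1⟩
      by_cases k2 : lab (V (((a + 1 : ℕ) : ℤ), (b : ℤ))) = k
      · exact ⟨_, by simp only [dd]; omega, k2⟩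
      by_cases k3 : lab (V (((a + 1 : ℕ) : ℤ), ((b + 1 : ℕ) : ℤ))) = k
      · exact ⟨_, by simp only [dd]; omega, k3⟩
      · exact ⟨_, by simp only [dd]; omega, hk k1 k2 k3⟩
    choose y hy hyk using h4
    have hinj : Function.Injective (fun k => V (y k)) := by
      intro k k' hkk
      rw [← hyk k, ← hyk k']
      exact congrArg lab hkk
    have h5 : Set.range (fun k => V (y k)) ⊆
        {U ∈ 𝒰 | (U ∩ Metric.closedBall ((a : ℤ), (b : ℤ)) 1).Nonempty} := by
      rintro _ ⟨k, rfl⟩
      refine ⟨hVU _, y k, hVx _, ?_⟩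
      rw [Metric.mem_closedBall]
      have := dist_eq (y k) ((a : ℤ), (b : ℤ))
      rw [this]
      exact_mod_cast hy k
    have h6 := (Set.encard_le_encard h5).trans (hmult ((a : ℤ), (b : ℤ)))
    rw [← Set.image_univ, hinj.encard_image, Set.encard_univ] at h6
    simp only [ENat.card_eq_coe_fintype_card, Fintype.card_fin] at h6
    norm_num at h6

theorem t_ASD : StASD := by
  unfold StASD asdim
  refine le_iInf₂ ?_
  intro n hn
  by_contra hlt
  have hn1 : n ≤ 1 := by
    have : (n : ℕ∞) < ((2 : ℕ) : ℕ∞) := not_le.mp hlt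
    have := Nat.cast_lt.mp this
    omega
  apply not_one
  intro R hR
  obtain ⟨𝒰, h1, h2, h3⟩ := hn R hR
  refine ⟨𝒰, h1, h2, fun x => (h3 x).trans ?_⟩
  exact_mod_cast Nat.succ_le_succ hn1

end Pool.Agent.Helper7_RU.R_ASD
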