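import Pool.Agent.Helper7_RU.Stm2

set_option autoImplicit false

open scoped ENNReal Matrix.Norms.L2Operator Matrix
open Pool.Agent.W659.EC

noncomputable section

namespace Pool.Agent.Helper7_RU.R_EST

theorem R_EST_cm_mul {X : Type} (S M L : Op X) (h : cm M S = 0) :
    cm S (M * L) = M * cm S L := by
  unfold cm at *
  have h1 : M * S = S * M := sub_eq_zero.1 h
  rw [mul_sub, ← mul_assoc, ← h1, mul_assoc, mul_assoc]

theorem R_EST_cm_norm {X : Type} (S T : Op X) : ‖cm S T‖ = ‖cm T S‖ := by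
  unfold cm
  exact norm_sub_rev _ _

theorem R_EST_ineq (u v Δ : ℝ) (hu0 : 0 ≤ u) (hu1 : u ≤ 1) (hv0 : 0 ≤ v) (hv1 : v ≤ 1)
    (h : |u - v| ≤ Δ) :
    |u * v + Real.sqrt (1 - u ^ 2) * Real.sqrt (1 - v ^ 2) - 1| ≤ 3 / 2 * Δ := by
  obtain ⟨u', hu'⟩ : ∃ u', u' = Real.sqrt (1 - u ^ 2) := ⟨_, rfl⟩
  obtain ⟨v', hv'⟩ : ∃ v', v' = Real.sqrt (1 - v ^ 2) := ⟨_, rfl⟩
  rw [← hu', ← hv']
  have hu'0 : 0 ≤ u' := by rw [hu']; exact Real.sqrt_nonneg _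
  have hv'0 : 0 ≤ v' := by rw [hv']; exact Real.sqrt_nonneg _
  have hu2 : u' ^ 2 = 1 - u ^ 2 := by rw [hu']; exact Real.sq_sqrt (by nlinarith)
  have hv2 : v' ^ 2 = 1 - v ^ 2 := by rw [hv']; exact Real.sq_sqrt (by nlinarith)
  have e : 1 - (u * v + u' * v') = ((u - v) ^ 2 + (u' - v') ^ 2) / 2 := by nlinarith
  have h1 : (u - v) ^ 2 ≤ |u - v| := by
    rw [← sq_abs]
    have h5 : |u - v| ≤ 1 := by rw [abs_le]; constructor <;> linarith
    nlinarith [abs_nonneg (u - v)]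
  have h2 : (u' - v') ^ 2 ≤ 2 * |u - v| := by
    have a1 : (u' - v') ^ 2 ≤ |u' - v'| * (u' + v') := by
      rw [← sq_abs, pow_two]
      apply mul_le_mul_of_nonneg_left _ (abs_nonneg _)
      rw [abs_le]; constructor <;> linarith
    have a2 : |u' - v'| * (u' + v') = |u - v| * (u + v) := by
      have b1 : |u' - v'| * (u' + v') = |(u' - v') * (u' + v')| := by
        rw [abs_mul, abs_of_nonneg (by linarith : 0 ≤ u' + v')]
      have b2 : |u - v| * (u + v) = |(u - v) * (u + v)| := by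
        rw [abs_mul, abs_of_nonneg (by linarith : 0 ≤ u + v)]
      rw [b1, b2]
      have b3 : (u' - v') * (u' + v') = -((u - v) * (u + v)) := by nlinarith
      rw [b3, abs_neg]
    rw [a2] at a1
    nlinarith [abs_nonneg (u - v)]
  have h3 : u * v + u' * v' - 1 ≤ 0 := by nlinarith [sq_nonneg (u - v), sq_nonneg (u' - v')]
  rw [abs_of_nonpos h3]
  linarith [e]

theorem R_EST_abs {A : Type} [NormedRing A] [StarRing A] [CStarRing A] (h1n : ‖(1 : A)‖ ≤ 1)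
    (U G a m0 : A) (Δ κ' K : ℝ) (hU1 : star U * U = 1)
    (hU2 : U * star U = 1) (hG : ‖G‖ ≤ 1) (hm : ‖m0‖ ≤ 1) (ha : ‖a‖ ≤ K) (hK : 0 ≤ K)
    (hP : ‖U * G * star U - m0‖ ≤ Δ) (hc : ‖U * a - a * U‖ ≤ κ') :
    ‖U * (G * a * G) * star U - m0 * a * m0‖ ≤ κ' + 2 * K * Δ := by
  have hU : ‖U‖ ≤ 1 := by
    have h1 : ‖star U * U‖ = ‖U‖ * ‖U‖ := CStarRing.norm_star_mul_self
    rw [hU1] at h1
    have h3 : ‖U‖ * ‖U‖ ≤ 1 * 1 := by rw [← h1, one_mul]; exact h1n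
    exact (mul_self_le_mul_self_iff (norm_nonneg U) zero_le_one).2 h3
  have hUs : ‖star U‖ ≤ 1 := by rw [norm_star]; exact hU
  obtain ⟨P, hPd⟩ : ∃ P, P = U * G * star U := ⟨_, rfl⟩
  obtain ⟨Q, hQd⟩ : ∃ Q, Q = U * a * star U := ⟨_, rfl⟩
  have hΔ0 : 0 ≤ Δ := (norm_nonneg _).trans hP
  have hκ0 : 0 ≤ κ' := (norm_nonneg _).trans hc
  have sand : ∀ (T : A) (C : ℝ), 0 ≤ C → ‖T‖ ≤ C → ‖U * T * star U‖ ≤ C := by
    intro T C hC hT
    calc ‖U * T * star U‖ ≤ ‖U * T‖ * ‖star U‖ := norm_mul_le _ _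
      _ ≤ (‖U‖ * ‖T‖) * ‖star U‖ := by gcongr; exact norm_mul_le _ _
      _ ≤ (1 * C) * 1 := by gcongr
      _ = C := by ring
  have hPn : ‖P‖ ≤ 1 := by rw [hPd]; exact sand G 1 zero_le_one hG
  have hQn : ‖Q‖ ≤ K := by rw [hQd]; exact sand a K hK ha
  have hx : ∀ x : A, star U * (U * x) = x := fun x => by rw [← mul_assoc, hU1, one_mul]
  have e1 : U * (G * a * G) * star U = P * Q * P := by
    rw [hPd, hQd]
    simp only [mul_assoc, hx]
  have e2 : Q - a = (U * a - a * U) * star U := by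
    rw [hQd, sub_mul, mul_assoc a U, hU2, mul_one]
  have e3 : P * Q * P - m0 * a * m0 = (P - m0) * Q * P + m0 * (Q - a) * P + m0 * a * (P - m0) := by
    noncomm_ring
  rw [e1, e3]
  rw [← hPd] at hP
  have hQa : ‖Q - a‖ ≤ κ' := by
    rw [e2]
    calc ‖(U * a - a * U) * star U‖ ≤ ‖U * a - a * U‖ * ‖star U‖ := norm_mul_le _ _
      _ ≤ κ' * 1 := by gcongr
      _ = κ' := mul_one _
  have t1 : ‖(P - m0) * Q * P‖ ≤ Δ * K := by
    calc ‖(P - m0) * Q * P‖ ≤ ‖(P - m0) * Q‖ * ‖P‖ := norm_mul_le _ _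
      _ ≤ (‖P - m0‖ * ‖Q‖) * ‖P‖ := by gcongr; exact norm_mul_le _ _
      _ ≤ (Δ * K) * 1 := by gcongr
      _ = Δ * K := by ring
  have t2 : ‖m0 * (Q - a) * P‖ ≤ κ' := by
    calc ‖m0 * (Q - a) * P‖ ≤ ‖m0 * (Q - a)‖ * ‖P‖ := norm_mul_le _ _
      _ ≤ (‖m0‖ * ‖Q - a‖) * ‖P‖ := by gcongr; exact norm_mul_le _ _
      _ ≤ (1 * κ') * 1 := by gcongr
      _ = κ' := by ring
  have t3 : ‖m0 * a * (P - m0)‖ ≤ K * Δ := by
    calc ‖m0 * a * (P - m0)‖ ≤ ‖m0 * a‖ * ‖P - m0‖ := norm_mul_le _ _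
      _ ≤ (‖m0‖ * ‖a‖) * ‖P - m0‖ := by gcongr; exact norm_mul_le _ _
      _ ≤ (1 * K) * Δ := by gcongr
      _ = K * Δ := by ring
  calc ‖(P - m0) * Q * P + m0 * (Q - a) * P + m0 * a * (P - m0)‖
      ≤ ‖(P - m0) * Q * P‖ + ‖m0 * (Q - a) * P‖ + ‖m0 * a * (P - m0)‖ := norm_add₃_le
    _ ≤ Δ * K + κ' + K * Δ := by linarith
    _ = κ' + 2 * K * Δ := by ring

theorem t_EST (hPOP : StPOP) (hLAD : StLAD) (hLC : StLC) : StEST := by
  intro q f ρ n κ D τ N0 V i ι c s K hfin hκ hG hK k g hg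
  have hK0 : 0 ≤ K := (norm_nonneg _).trans (hK k 0)
  have hn : (0 : ℝ) < (n : ℝ) + 1 := by positivity
  -- the functions
  obtain ⟨g0, hg0⟩ : ∃ g0 : Z2 → ℝ, g0 = fun x => 1 - (ι x : ℝ) / (n + 1) := ⟨_, rfl⟩
  have g0x : ∀ x, g0 x = 1 - (ι x : ℝ) / (n + 1) := fun x => by rw [hg0]
  have hg00 : ∀ x, 0 ≤ g0 x := by
    intro x
    rw [g0x, sub_nonneg, div_le_one hn]
    have h1 : (ι x : ℝ) ≤ n := by exact_mod_cast hG.iota x
    linarith
  have hg01 : ∀ x, g0 x ≤ 1 := by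
    intro x
    rw [g0x]
    have : 0 ≤ (ι x : ℝ) / (n + 1) := by positivity
    linarith
  have hh0 : ∀ x, 0 ≤ 1 - (i x : ℝ) / (n + 1) := by
    intro x
    rw [sub_nonneg, div_le_one hn]
    exact_mod_cast hG.bands.le x
  have hh1 : ∀ x, 1 - (i x : ℝ) / (n + 1) ≤ 1 := by
    intro x
    have : 0 ≤ (i x : ℝ) / (n + 1) := by positivity
    linarith
  have hbg0 : Bd g0 := ⟨1, fun x => by rw [Real.norm_of_nonneg (hg00 x)]; exact hg01 x⟩
  have hbf : Bd (f k) := ⟨K, hK k⟩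
  have hg'0 : ∀ x, 0 ≤ Real.sqrt (1 - g0 x ^ 2) := fun x => Real.sqrt_nonneg _
  have hg'1 : ∀ x, Real.sqrt (1 - g0 x ^ 2) ≤ 1 := by
    intro x
    rw [Real.sqrt_le_one]
    have := sq_nonneg (g0 x)
    linarith
  have hbg' : Bd fun x => Real.sqrt (1 - g0 x ^ 2) :=
    ⟨1, fun x => by rw [Real.norm_of_nonneg (hg'0 x)]; exact hg'1 x⟩
  -- the term
  obtain ⟨M, hM⟩ : ∃ M, M = mulc (f k) := ⟨_, rfl⟩
  obtain ⟨L, hL⟩ : ∃ L, L = lam g := ⟨_, rfl⟩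
  have hMn : ‖M‖ ≤ K := by rw [hM]; exact norm_mulc_le hPOP hK0 (hK k)
  have hLn : ‖L‖ ≤ 1 := by rw [hL]; exact norm_lam_le hPOP g
  have han : ‖M * L‖ ≤ K := by
    calc ‖M * L‖ ≤ ‖M‖ * ‖L‖ := norm_mul_le _ _
      _ ≤ K * 1 := by gcongr
      _ = K := mul_one _
  -- commutators
  have hcmM : ∀ S : Op Z2, cm M S = 0 → ‖cm S L‖ ≤ κ → ‖cm S (M * L)‖ ≤ κ * K := by
    intro S h1 h2
    rw [R_EST_cm_mul S M L h1]
    calc ‖M * cm S L‖ ≤ ‖M‖ * ‖cm S L‖ := norm_mul_le _ _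
      _ ≤ K * κ := by gcongr
      _ = κ * K := mul_comm _ _
  have hddn : dd 0 (-g) ≤ ρ := by
    have : dd 0 (-g) = dd 0 g := by
      simp only [dd, Prod.fst_zero, Prod.snd_zero, Prod.fst_neg, Prod.snd_neg]
      omega
    rw [this]; exact hg
  have hcV : ∀ l ≤ n, ‖cm (V l) (M * L)‖ ≤ κ * K := by
    intro l hl
    apply hcmM
    · rw [hM]; exact (hG.commf k l).1
    · rw [R_EST_cm_norm, hL]; exact hG.commV l hl g hg
  have hcVs : ∀ l ≤ n, ‖cm (star (V l)) (M * L)‖ ≤ κ * K := by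
    intro l hl
    apply hcmM
    · rw [hM]; exact (hG.commf k l).2
    · have e : star (cm (star (V l)) L) = cm (lam (-g)) (V l) := by
        unfold cm
        rw [star_sub, star_mul, star_mul, star_star, hL, star_lam hPOP]
      rw [← norm_star, e]
      exact hG.commV l hl (-g) hddn
  have hbc : ∀ j, Bd (c j) := by
    intro j
    refine ⟨1, fun x => ?_⟩
    rw [Real.norm_of_nonneg (hG.bands.c0 j x)]
    nlinarith [hG.bands.sq j x, hG.bands.c0 j x, hG.bands.s0 j x, sq_nonneg (s j x)]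
  have hbs : ∀ j, Bd (s j) := by
    intro j
    refine ⟨1, fun x => ?_⟩
    rw [Real.norm_of_nonneg (hG.bands.s0 j x)]
    nlinarith [hG.bands.sq j x, hG.bands.c0 j x, hG.bands.s0 j x, sq_nonneg (c j x)]
  have hcmu : ∀ w : Z2 → ℝ, Bd w → cm M (mu w) = 0 := by
    intro w hw
    unfold cm
    rw [hM, mu, mulc_comm hPOP hbf hw.ofReal, sub_self]
  have hcc : ∀ j, 1 ≤ j → j ≤ n → ‖cm (mu (c j)) (M * L)‖ ≤ κ * K := by
    intro j _ _
    apply hcmM _ (hcmu _ (hbc j))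
    rw [R_EST_cm_norm, hL]; exact hG.commc j g hg
  have hcs : ∀ j, 1 ≤ j → j ≤ n → ‖cm (mu (s j)) (M * L)‖ ≤ κ * K := by
    intro j _ _
    apply hcmM _ (hcmu _ (hbs j))
    rw [R_EST_cm_norm, hL]; exact hG.comms j g hg
  have hcU := hLC Z2 n V N0 i c s hG.copies hG.bands (fun l _ => hG.Vnorm l) (M * L) (κ * K)
    hcV hcVs hcc hcs
  -- the ladder
  have hgV : ∀ l ≤ n, ∀ f : Z2 → ℝ, (∃ C, ∀ x, |f x| ≤ C) → (∀ x, f x ≠ 0 → x ∈ N0) →
      mu g0 * V l * mu f = ((1 - (l : ℝ) / (n + 1) : ℝ) : ℂ) • (V l * mu f) := by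
    rw [hg0]; exact hG.gV
  obtain ⟨hU1, hU2, hUG⟩ := hLAD Z2 n V N0 i c s g0 hG.V0 hG.copies hG.bands hg00 hg01 hgV
  obtain ⟨U, hU⟩ : ∃ U, U = lad V c s n := ⟨_, rfl⟩
  rw [← hU] at hU1 hU2 hUG hcU
  obtain ⟨G, hGd⟩ : ∃ G : Op Z2, G = mu (fun x => g0 x * (1 - (i x : ℝ) / (n + 1))) := ⟨_, rfl⟩
  rw [← hGd] at hUG
  have hGn : ‖G‖ ≤ 1 := by
    rw [hGd]
    apply norm_mu_le hPOP zero_le_one
    intro x
    rw [abs_of_nonneg (mul_nonneg (hg00 x) (hh0 x))]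
    calc g0 x * (1 - (i x : ℝ) / (n + 1)) ≤ 1 * 1 :=
          mul_le_mul (hg01 x) (hh1 x) (hh0 x) zero_le_one
      _ = 1 := one_mul _
  have hm0 : ‖mu g0‖ ≤ 1 := by
    apply norm_mu_le hPOP zero_le_one
    intro x
    rw [abs_of_nonneg (hg00 x)]; exact hg01 x
  have step1 := R_EST_abs (A := Op Z2) ContinuousLinearMap.norm_id_le U G (M * L) (mu g0) (1 / ((n : ℝ) + 1)) (12 * n * (κ * K)) K hU1 hU2 hGn hm0 han
    hK0 hUG hcU
  -- the second step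
  obtain ⟨F, hF⟩ : ∃ F : Z2 → ℂ, F = fun x => f k x *
      ((g0 x * g0 (x - g) + Real.sqrt (1 - g0 x ^ 2) * Real.sqrt (1 - g0 (x - g) ^ 2) - 1 : ℝ) : ℂ) :=
    ⟨_, rfl⟩
  have hFn : ∀ x, ‖F x‖ ≤ K * (3 / 2 * (1 / ((n : ℝ) + 1))) := by
    intro x
    rw [hF]
    simp only [norm_mul, Complex.norm_real, Real.norm_eq_abs]
    apply mul_le_mul (hK k x) _ (abs_nonneg _) hK0
    apply R_EST_ineq _ _ _ (hg00 _) (hg01 _) (hg00 _) (hg01 _)
    have hd : dd x (x - g) ≤ ρ := by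
      have : dd x (x - g) = dd 0 g := by
        rw [dd_comm]
        have := dd_add_left (x - g) g
        rw [sub_add_cancel] at this
        exact this
      rw [this]; exact hg
    have h1 := hG.iota_var x (x - g) hd
    have h2 := hG.iota_var (x - g) x (by rw [dd_comm]; exact hd)
    have h1' : (ι x : ℝ) ≤ ι (x - g) + 1 := by exact_mod_cast h1
    have h2' : (ι (x - g) : ℝ) ≤ ι x + 1 := by exact_mod_cast h2
    rw [g0x, g0x]
    have e : 1 - (ι x : ℝ) / (n + 1) - (1 - (ι (x - g) : ℝ) / (n + 1)) =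
        ((ι (x - g) : ℝ) - ι x) / (n + 1) := by ring
    rw [e, abs_div, abs_of_pos hn]
    gcongr
    rw [abs_le]; constructor <;> linarith
  have hbF : Bd F := ⟨_, hFn⟩
  have step2 : mu g0 * (M * L) * mu g0 + mu (fun x => Real.sqrt (1 - g0 x ^ 2)) * (M * L) *
      mu (fun x => Real.sqrt (1 - g0 x ^ 2)) - M * L = mulc F * L := by
    apply ent_ext
    intro x y
    rw [ent_sub, ent_add, ent_mul_mu hPOP hbg0, ent_mul_mu hPOP hbg', ent_mu_mul hPOP hbg0,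
      ent_mu_mul hPOP hbg', hM, ent_mulc_mul hPOP hbf, ent_mulc_mul hPOP hbF, hL, ent_lam hPOP]
    split_ifs with hxy
    · have hy : y = x - g := by rw [hxy]; abel
      rw [hF, hy]
      push_cast
      ring
    · simp
  have step3 : ‖mulc F * L‖ ≤ K * (3 / 2 * (1 / ((n : ℝ) + 1))) := by
    have h0 : 0 ≤ K * (3 / 2 * (1 / ((n : ℝ) + 1))) := by positivity
    calc ‖mulc F * L‖ ≤ ‖mulc F‖ * ‖L‖ := norm_mul_le _ _
      _ ≤ K * (3 / 2 * (1 / ((n : ℝ) + 1))) * 1 := by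
        gcongr
        exact norm_mulc_le hPOP h0 hFn
      _ = _ := mul_one _
  -- the end
  have hgoal : ‖U * (G * (M * L) * G) * star U + mu (fun x => Real.sqrt (1 - g0 x ^ 2)) * (M * L) *
      mu (fun x => Real.sqrt (1 - g0 x ^ 2)) - M * L‖ ≤ 12 * n * κ * K + 4 * K / (n + 1) := by
    have e : U * (G * (M * L) * G) * star U + mu (fun x => Real.sqrt (1 - g0 x ^ 2)) * (M * L) *
        mu (fun x => Real.sqrt (1 - g0 x ^ 2)) - M * L =
        (U * (G * (M * L) * G) * star U - mu g0 * (M * L) * mu g0) + mulc F * L := by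
      rw [← step2]; abel
    rw [e]
    refine (norm_add_le _ _).trans ?_
    have h1 : 0 ≤ K / ((n : ℝ) + 1) := by positivity
    have e1 : K * (3 / 2 * (1 / ((n : ℝ) + 1))) = 3 / 2 * (K / ((n : ℝ) + 1)) := by ring
    have e2 : 2 * K * (1 / ((n : ℝ) + 1)) = 2 * (K / ((n : ℝ) + 1)) := by ring
    have e3 : 4 * K / ((n : ℝ) + 1) = 4 * (K / ((n : ℝ) + 1)) := by ring
    rw [e1] at step3
    rw [e2] at step1
    rw [e3]
    have e4 : 12 * (n : ℝ) * κ * K = 12 * n * (κ * K) := by ring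
    rw [e4]
    linarith
  rw [hU, hGd, hM, hL, hg0] at hgoal
  exact hgoal

end Pool.Agent.Helper7_RU.R_EST
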