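import Pool.Agent.Helper7_RU.Defs

/-! # Nuclear dimension of the uniform Roe algebra of `ℤ²`: statements of the parts -/

set_option autoImplicit false

open scoped ENNReal Matrix.Norms.L2Operator Matrix
open Pool.Agent.W659.EC

noncomputable section

namespace Pool.Agent.Helper7_RU

/-- the plane, with the sup metric -/
abbrev Z2 : Type := ℤ × ℤ

/-- the sup distance, as a natural number -/
def dd (x y : Z2) : ℕ := max (x.1 - y.1).natAbs (x.2 - y.2).natAbs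

/-- the ball of radius `R`, a square -/
def bl (x : Z2) (R : ℕ) : Finset Z2 :=
  Finset.Icc (x.1 - R) (x.1 + R) ×ˢ Finset.Icc (x.2 - R) (x.2 + R)

theorem mem_bl (x y : Z2) (R : ℕ) : y ∈ bl x R ↔ dd x y ≤ R := by
  simp only [bl, dd, Finset.mem_product, Finset.mem_Icc]
  omega

theorem card_bl (x : Z2) (R : ℕ) : (bl x R).card = (2 * R + 1) ^ 2 := by
  simp only [bl, Finset.card_product, Int.card_Icc]
  rw [pow_two]
  congr 1 <;> omega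

theorem dd_self (x : Z2) : dd x x = 0 := by simp [dd]

theorem dd_comm (x y : Z2) : dd x y = dd y x := by
  simp only [dd]; omega

theorem dd_tri (x y z : Z2) : dd x z ≤ dd x y + dd y z := by
  simp only [dd]; omega

theorem dd_eq_zero (x y : Z2) : dd x y = 0 ↔ x = y := by
  rw [Prod.ext_iff]
  simp only [dd]; omega

theorem dd_add (x y v : Z2) : dd (x + v) (y + v) = dd x y := by
  simp only [dd, Prod.fst_add, Prod.snd_add]; omega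

theorem dd_add_left (x v : Z2) : dd x (x + v) = dd 0 v := by
  simp only [dd, Prod.fst_add, Prod.snd_add, Prod.fst_zero, Prod.snd_zero]; omega

theorem dist_eq (x y : Z2) : dist x y = dd x y := by
  rw [Prod.dist_eq, Int.dist_eq, Int.dist_eq, dd, Nat.cast_max, Nat.cast_natAbs, Nat.cast_natAbs]
  push_cast
  rfl

/-! ## Asymptotic dimension -/

/-- ASD: the asymptotic dimension of the plane is at least 2 -/
def StASD : Prop := 2 ≤ asdim Z2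

/-! ## Combinatorics -/

/-- GRD: a greedy choice -/
def StGRD : Prop :=
  ∀ (D Y : Type) (cand : D → Finset Y) (confl : Y → Y → Prop) (c : ℕ) (rank : D → ℕ)
    (A : D → Finset D),
    (∀ y y', confl y y' → confl y' y) →
    (∀ y', ∃ s : Finset Y, s.card ≤ c ∧ ∀ y, confl y' y → y ∈ s) →
    (∀ d d', d' ≠ d → rank d' ≤ rank d →
      (∃ y ∈ cand d, ∃ y' ∈ cand d', confl y' y) → d' ∈ A d) →
    (∀ d, c * (A d).card < (cand d).card) →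
    ∃ f : D → Y, (∀ d, f d ∈ cand d) ∧ ∀ d d', d ≠ d' → ¬ confl (f d) (f d')

/-- the scaled point -/
def sc (M : ℕ) (ζ : Z2) : Z2 := ((M : ℤ) * ζ.1, (M : ℤ) * ζ.2)

/-- the annulus of thickness `b` around the square of centre `M ζ` and radius `M + k w` -/
def Ann (M w b : ℕ) (ζ : Z2) (k : ℕ) : Set Z2 :=
  {x | M + k * w ≤ dd (sc M ζ) x + b ∧ dd (sc M ζ) x ≤ M + k * w + b}

open Classical in
/-- RAD: radii such that the annuli contain few points of each type near each centre -/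
def StRAD : Prop :=
  ∀ (Ty : Type) [Fintype Ty] (P : Z2 → Ty) (M w b m : ℕ), 0 < m → 2 * b < w →
    ∃ k : Z2 → ℕ, (∀ ζ, k ζ < m) ∧ ∀ ζ ζ' : Z2, dd ζ ζ' ≤ 5 → ∀ p : Ty,
      m * ((bl (sc M ζ') (3 * M)).filter fun x => x ∈ Ann M w b ζ (k ζ) ∧ P x = p).card ≤
        121 * Fintype.card Ty * ((bl (sc M ζ') (3 * M)).filter fun x => P x = p).card

/-- the points at distance at most `W` from a point with another label -/
def bdry (τ : Z2 → Z2) (W : ℕ) : Set Z2 := {x | ∃ y, dd x y ≤ W ∧ τ y ≠ τ x}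

/-- CMB: tiles and private copies of the points near their boundaries -/
def StCMB : Prop :=
  ∀ (Ty : Type) [Finite Ty] (P : Z2 → Ty) (n W E : ℕ),
    ∃ (D : ℕ) (τ : Z2 → Z2) (σ : ℕ → Z2 → Z2),
      (∀ x y, τ x = τ y → dd x y ≤ D) ∧
      (∀ x ∈ bdry τ W, ∀ j < n, P (σ j x) = P x ∧ dd x (σ j x) ≤ D ∧
        ∀ w ∈ bdry τ W, E < dd (σ j x) w) ∧
      (∀ x ∈ bdry τ W, ∀ y ∈ bdry τ W, ∀ i < n, ∀ j < n, (i, x) ≠ (j, y) →
        E < dd (σ i x) (σ j y))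

/-! ## Weighted partial translations -/

open Classical in
/-- the operator with `δ_x ↦ f(x) δ_{φ(x)}` -/
def pop {X : Type} (f : X → ℂ) (φ : X → X) : Op X :=
  if h : ∃ T : Op X, ∀ x, T (dl x) = f x • dl (φ x) then h.choose else 0

/-- POP: these operators exist -/
def StPOP : Prop :=
  ∀ (X : Type) (f : X → ℂ) (φ : X → X) (C : ℝ), 0 ≤ C → (∀ x, ‖f x‖ ≤ C) →
    (∀ x y, f x ≠ 0 → f y ≠ 0 → φ x = φ y → x = y) →
    (∀ x, pop f φ (dl x) = f x • dl (φ x)) ∧ ‖pop f φ‖ ≤ C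

/-- multiplication operators -/
def mulc {X : Type} (f : X → ℂ) : Op X := pop f id

/-- multiplication by a real function -/
def mu {X : Type} (f : X → ℝ) : Op X := mulc fun x => (f x : ℂ)

/-- translations -/
def lam (g : Z2) : Op Z2 := pop (fun _ => 1) fun x => x + g

/-- commutators -/
def cm {X : Type} (S T : Op X) : Op X := S * T - T * S

open Classical in
/-- the operator `δ_x ↦ ∑_{v ∈ s, x - v ∈ N} w(v) δ_{σ(x - v) + v}` -/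
def Vop (N : Set Z2) (σ : Z2 → Z2) (w : Z2 → ℝ) (s : Finset Z2) : Op Z2 :=
  ∑ v ∈ s, (w v : ℂ) • pop (fun x => if x - v ∈ N then 1 else 0) fun x => σ (x - v) + v

/-- VN: norm of `Vop` -/
def StVN : Prop :=
  ∀ (N : Set Z2) (σ : Z2 → Z2) (w : Z2 → ℝ) (s : Finset Z2),
    (∀ y ∈ N, ∀ y' ∈ N, ∀ v ∈ s, ∀ v' ∈ s, σ y + v = σ y' + v' → y = y') →
    ‖Vop N σ w s‖ ^ 2 ≤ ∑ v ∈ s, w v ^ 2

/-- the square `[0, r)²` -/
def box (r : ℕ) : Finset Z2 := Finset.Ico 0 (r : ℤ) ×ˢ Finset.Ico 0 (r : ℤ)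

/-- VC: commutators of `Vop` with translations -/
def StVC : Prop :=
  ∀ (N : Set Z2) (σ : Z2 → Z2) (r ρ E : ℕ), 0 < r → 2 * (r + ρ) ≤ E →
    (∀ y ∈ N, ∀ y' ∈ N, y ≠ y' → E < dd (σ y) (σ y')) →
    ∀ g : Z2, dd 0 g ≤ ρ →
      ‖cm (lam g) (Vop N σ (fun _ => 1 / (r : ℝ)) (box r))‖ ^ 2 ≤ 4 * ρ / r

/-- VR: relations between the operators `Vop` -/
def StVR : Prop :=
  ∀ (N N0 : Set Z2) (σ σ' : Z2 → Z2) (r E : ℕ) (f f' : Z2 → ℝ), 0 < r → r ≤ E →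
    (∀ x ∈ N0, ∀ v ∈ box r, x - v ∈ N) →
    (∃ C, ∀ x, |f x| ≤ C) → (∃ C, ∀ x, |f' x| ≤ C) →
    (∀ x, f x ≠ 0 → x ∈ N0) → (∀ x, f' x ≠ 0 → x ∈ N0) →
    ((∀ y ∈ N, ∀ y' ∈ N, y ≠ y' → E < dd (σ y) (σ y')) →
      mu f * star (Vop N σ (fun _ => 1 / (r : ℝ)) (box r)) *
        Vop N σ (fun _ => 1 / (r : ℝ)) (box r) * mu f' = mu fun x => f x * f' x) ∧
    ((∀ y ∈ N, ∀ y' ∈ N, E < dd (σ y) (σ' y')) →
      mu f * star (Vop N σ (fun _ => 1 / (r : ℝ)) (box r)) *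
        Vop N σ' (fun _ => 1 / (r : ℝ)) (box r) * mu f' = 0) ∧
    ((∀ y ∈ N, ∀ z ∈ N0, E < dd (σ y) z) →
      mu f * Vop N σ (fun _ => 1 / (r : ℝ)) (box r) = 0)

/-! ## Rotations and ladders -/

/-- the rotation of the copies `S` and `T` of the functions, with cosine `c` and sine `s` -/
def rot {X : Type} (S T : Op X) (c s : X → ℝ) : Op X :=
  1 + S * mu (fun x => c x - 1) * star S + T * mu (fun x => c x - 1) * star T
    + T * mu s * star S - S * mu s * star T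

/-- the product of the rotations of the copies `0` and `1`, `1` and `2`, ... -/
def lad {X : Type} (V : ℕ → Op X) (c s : ℕ → X → ℝ) : ℕ → Op X
  | 0 => 1
  | j + 1 => rot (V j) (V (j + 1)) (c (j + 1)) (s (j + 1)) * lad V c s j

/-- copies of the bounded functions on `N0` -/
def Copies {X : Type} (n : ℕ) (V : ℕ → Op X) (N0 : Set X) : Prop :=
  ∀ l ≤ n, ∀ l' ≤ n, ∀ f f' : X → ℝ, (∃ C, ∀ x, |f x| ≤ C) → (∃ C, ∀ x, |f' x| ≤ C) →
    (∀ x, f x ≠ 0 → x ∈ N0) → (∀ x, f' x ≠ 0 → x ∈ N0) →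
    (l = l' → mu f * star (V l) * V l' * mu f' = mu fun x => f x * f' x) ∧
    (l ≠ l' → mu f * star (V l) * V l' * mu f' = 0)

/-- the conditions on the band number `i`, the cosines `c` and the sines `s` -/
structure Bands {X : Type} (n : ℕ) (N0 : Set X) (i : X → ℕ) (c s : ℕ → X → ℝ) : Prop where
  le : ∀ x, i x ≤ n + 1
  supp : ∀ x, i x ≠ 0 → x ∈ N0
  c0 : ∀ j x, 0 ≤ c j x
  s0 : ∀ j x, 0 ≤ s j x
  sq : ∀ j x, c j x ^ 2 + s j x ^ 2 = 1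
  szero : ∀ j x, 1 ≤ j → i x < j → s j x = 0
  czero : ∀ j x, 1 ≤ j → j < i x → c j x = 0

/-- LAD: the ladder lowers `g` on `N0` to `g h`, up to `1/(n+1)` -/
def StLAD : Prop :=
  ∀ (X : Type) (n : ℕ) (V : ℕ → Op X) (N0 : Set X) (i : X → ℕ) (c s : ℕ → X → ℝ) (g : X → ℝ),
    V 0 = 1 → Copies n V N0 → Bands n N0 i c s → (∀ x, 0 ≤ g x) → (∀ x, g x ≤ 1) →
    (∀ l ≤ n, ∀ f : X → ℝ, (∃ C, ∀ x, |f x| ≤ C) → (∀ x, f x ≠ 0 → x ∈ N0) →
      mu g * V l * mu f = ((1 - (l : ℝ) / (n + 1) : ℝ) : ℂ) • (V l * mu f)) →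
    star (lad V c s n) * lad V c s n = 1 ∧ lad V c s n * star (lad V c s n) = 1 ∧
    ‖lad V c s n * mu (fun x => g x * (1 - (i x : ℝ) / (n + 1))) * star (lad V c s n) - mu g‖ ≤
      1 / (n + 1)

/-- LC: commutators of the ladder -/
def StLC : Prop :=
  ∀ (X : Type) (n : ℕ) (V : ℕ → Op X) (N0 : Set X) (i : X → ℕ) (c s : ℕ → X → ℝ),
    Copies n V N0 → Bands n N0 i c s → (∀ l ≤ n, ‖V l‖ ≤ 1) →
    ∀ (T : Op X) (κ : ℝ), (∀ l ≤ n, ‖cm (V l) T‖ ≤ κ) → (∀ l ≤ n, ‖cm (star (V l)) T‖ ≤ κ) →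
      (∀ j, 1 ≤ j → j ≤ n → ‖cm (mu (c j)) T‖ ≤ κ) →
      (∀ j, 1 ≤ j → j ≤ n → ‖cm (mu (s j)) T‖ ≤ κ) →
      ‖cm (lad V c s n) T‖ ≤ 12 * n * κ

/-! ## Geometry -/

/-- all that is needed from the geometry, for finitely many functions `f k` of finite range -/
structure Geo (q : ℕ) (f : Fin q → Z2 → ℂ) (ρ n : ℕ) (κ : ℝ) (D : ℕ) (τ : Z2 → Z2)
    (N0 : Set Z2) (V : ℕ → Op Z2) (i ι : Z2 → ℕ) (c s : ℕ → Z2 → ℝ) : Prop where
  tile : ∀ x y, τ x = τ y → dd x y ≤ D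
  V0 : V 0 = 1
  Vmem : ∀ l, V l ∈ uRoe Z2
  Vnorm : ∀ l, ‖V l‖ ≤ 1
  copies : Copies n V N0
  bands : Bands n N0 i c s
  iota : ∀ x, ι x ≤ n
  gV : ∀ l ≤ n, ∀ f : Z2 → ℝ, (∃ C, ∀ x, |f x| ≤ C) → (∀ x, f x ≠ 0 → x ∈ N0) →
      mu (fun x => 1 - (ι x : ℝ) / (n + 1)) * V l * mu f =
        ((1 - (l : ℝ) / (n + 1) : ℝ) : ℂ) • (V l * mu f)
  i_var : ∀ x y, dd x y ≤ ρ → i x ≤ i y + 1
  iota_var : ∀ x y, dd x y ≤ ρ → ι x ≤ ι y + 1
  cut : ∀ x y, dd x y ≤ ρ → τ x ≠ τ y → i x = n + 1 ∧ ι x = 0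
  commV : ∀ l ≤ n, ∀ g, dd 0 g ≤ ρ → ‖cm (lam g) (V l)‖ ≤ κ
  commc : ∀ j, ∀ g, dd 0 g ≤ ρ → ‖cm (lam g) (mu (c j))‖ ≤ κ
  comms : ∀ j, ∀ g, dd 0 g ≤ ρ → ‖cm (lam g) (mu (s j))‖ ≤ κ
  commf : ∀ k l, cm (mulc (f k)) (V l) = 0 ∧ cm (mulc (f k)) (star (V l)) = 0

/-- GEO: the geometric data exist -/
def StGEO : Prop :=
  ∀ (q : ℕ) (f : Fin q → Z2 → ℂ), (∀ k, (Set.range (f k)).Finite) →
    ∀ (ρ n : ℕ) (κ : ℝ), 0 < κ → ∃ (D : ℕ) (τ : Z2 → Z2) (N0 : Set Z2) (V : ℕ → Op Z2)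
      (i ι : Z2 → ℕ) (c s : ℕ → Z2 → ℝ), Geo q f ρ n κ D τ N0 V i ι c s

/-! ## Block diagonal operators and density -/

/-- AFB: finitely many block diagonal operators with finitely many entries lie in a
finite-dimensional algebra, which is the range of a completely positive contraction -/
def StAFB : Prop :=
  ∀ (τ : Z2 → Z2) (D : ℕ), (∀ x y, τ x = τ y → dd x y ≤ D) → ∀ B : Finset (Op Z2),
    (∀ b ∈ B, (Set.range fun p : Z2 × Z2 => ent b p.1 p.2).Finite) →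
    (∀ b ∈ B, ∀ x y, τ x ≠ τ y → ent b x y = 0) →
    ∃ (F : FDA) (κ : Op Z2 →ₗ[ℂ] F.alg) (e : F.alg →⋆ₙₐ[ℂ] Op Z2),
      IsCPC κ ∧ (∀ m, e m ∈ uRoe Z2) ∧ ∀ b ∈ B, e (κ b) = b

/-- DEN: density of the finite sums of `M_f λ_g` with `f` of finite range -/
def StDEN : Prop :=
  ∀ a ∈ uRoe Z2, ∀ ε : ℝ, 0 < ε → ∃ ρ0 : ℕ, ∀ ρ, ρ0 ≤ ρ → ∃ f : Z2 → Z2 → ℂ,
    (∀ g, (Set.range (f g)).Finite) ∧ ‖a - ∑ g ∈ bl 0 ρ, mulc (f g) * lam g‖ ≤ ε

/-- EST: the two-coloured decomposition of one term -/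
def StEST : Prop :=
  ∀ (q : ℕ) (f : Fin q → Z2 → ℂ) (ρ n : ℕ) (κ : ℝ) (D : ℕ) (τ : Z2 → Z2)
    (N0 : Set Z2) (V : ℕ → Op Z2) (i ι : Z2 → ℕ) (c s : ℕ → Z2 → ℝ) (K : ℝ),
    (∀ k, (Set.range (f k)).Finite) → 0 < κ →
    Geo q f ρ n κ D τ N0 V i ι c s → (∀ k x, ‖f k x‖ ≤ K) → ∀ (k : Fin q) (g : Z2),
    dd 0 g ≤ ρ →
    ‖lad V c s n * (mu (fun x => (1 - (ι x : ℝ) / (n + 1)) * (1 - (i x : ℝ) / (n + 1))) *
        (mulc (f k) * lam g) *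
        mu (fun x => (1 - (ι x : ℝ) / (n + 1)) * (1 - (i x : ℝ) / (n + 1)))) *
        star (lad V c s n) +
      mu (fun x => Real.sqrt (1 - (1 - (ι x : ℝ) / (n + 1)) ^ 2)) * (mulc (f k) * lam g) *
        mu (fun x => Real.sqrt (1 - (1 - (ι x : ℝ) / (n + 1)) ^ 2)) -
      mulc (f k) * lam g‖ ≤ 12 * n * κ * K + 4 * K / (n + 1)

/-- MAIN: the nuclear dimension of the uniform Roe algebra of the plane is at most 1 -/
def StMAIN : Prop := nucDim (uRoe Z2) ≤ 1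

end Pool.Agent.Helper7_RU
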