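import Pool.Agent.Helper7_RU.Cal

/-! # Further statements of parts -/

set_option autoImplicit false

open scoped ENNReal Matrix.Norms.L2Operator Matrix
open Pool.Agent.W659.EC

noncomputable section

namespace Pool.Agent.Helper7_RU

/-- VR2: relations between the operators `Vop` with separated maps -/
def StVR2 : Prop :=
  ∀ (N N0 : Set Z2) (σ σ' : Z2 → Z2) (r E : ℕ) (f f' : Z2 → ℝ), 0 < r → r ≤ E →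
    (∀ x ∈ N0, ∀ v ∈ box r, x - v ∈ N) →
    (∃ C, ∀ x, |f x| ≤ C) → (∃ C, ∀ x, |f' x| ≤ C) →
    (∀ x, f x ≠ 0 → x ∈ N0) → (∀ x, f' x ≠ 0 → x ∈ N0) →
    (∀ y ∈ N, ∀ y' ∈ N, y ≠ y' → E < dd (σ y) (σ y')) →
    (∀ y ∈ N, ∀ y' ∈ N, y ≠ y' → E < dd (σ' y) (σ' y')) →
    (mu f * star (Vop N σ (fun _ => 1 / (r : ℝ)) (box r)) *
        Vop N σ (fun _ => 1 / (r : ℝ)) (box r) * mu f' = mu fun x => f x * f' x) ∧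
    ((∀ y ∈ N, ∀ y' ∈ N, E < dd (σ y) (σ' y')) →
      mu f * star (Vop N σ (fun _ => 1 / (r : ℝ)) (box r)) *
        Vop N σ' (fun _ => 1 / (r : ℝ)) (box r) * mu f' = 0) ∧
    ((∀ y ∈ N, ∀ z ∈ N0, E < dd (σ y) z) →
      mu f * Vop N σ (fun _ => 1 / (r : ℝ)) (box r) = 0)

/-- ROT: rotations are unitary -/
def StROT : Prop :=
  ∀ (X : Type) (n : ℕ) (V : ℕ → Op X) (N0 : Set X), Copies n V N0 →
    ∀ l ≤ n, ∀ l' ≤ n, l ≠ l' → ∀ c s : X → ℝ, (∀ x, c x ≠ 1 → x ∈ N0) → (∀ x, s x ≠ 0 → x ∈ N0) →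
      (∀ x, c x ^ 2 + s x ^ 2 = 1) →
      star (rot (V l) (V l') c s) * rot (V l) (V l') c s = 1 ∧
        rot (V l) (V l') c s * star (rot (V l) (V l') c s) = 1

/-- the functions and maps from which the geometric data are made -/
structure GeoA (q : ℕ) (f : Fin q → Z2 → ℂ) (ρ n r : ℕ) (κ : ℝ) (D E : ℕ) (τ : Z2 → Z2)
    (N N0 : Set Z2) (σ : ℕ → Z2 → Z2) (i ι : Z2 → ℕ) (c s : ℕ → Z2 → ℝ) : Prop where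
  tile : ∀ x y, τ x = τ y → dd x y ≤ D
  large : 2 * (r + ρ) ≤ E
  inner : ∀ x ∈ N0, ∀ v ∈ box r, x - v ∈ N
  near : ∀ y ∈ N, ∀ j < n, dd y (σ j y) ≤ D
  far : ∀ y ∈ N, ∀ j < n, ∀ z ∈ N0, E < dd (σ j y) z
  same : ∀ y ∈ N, ∀ j < n, ∀ k, ∀ v ∈ box r, f k (σ j y + v) = f k (y + v)
  sep : ∀ y ∈ N, ∀ y' ∈ N, ∀ j < n, ∀ j' < n, (j, y) ≠ (j', y') → E < dd (σ j y) (σ j' y')
  bands : Bands n N0 i c s
  iota : ∀ x, ι x ≤ n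
  iota0 : ∀ x ∈ N0, ι x = 0
  iotaj : ∀ y ∈ N, ∀ j < n, ∀ v ∈ box r, ι (σ j y + v) = j + 1
  i_var : ∀ x y, dd x y ≤ ρ → i x ≤ i y + 1
  iota_var : ∀ x y, dd x y ≤ ρ → ι x ≤ ι y + 1
  cut : ∀ x y, dd x y ≤ ρ → τ x ≠ τ y → i x = n + 1 ∧ ι x = 0
  cvar : ∀ j x y, dd x y ≤ ρ → |c j x - c j y| ≤ κ
  svar : ∀ j x y, dd x y ≤ ρ → |s j x - s j y| ≤ κ

/-- GEOA: they exist -/
def StGEOA : Prop :=
  ∀ (q : ℕ) (f : Fin q → Z2 → ℂ), (∀ k, (Set.range (f k)).Finite) →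
    ∀ (ρ n r : ℕ) (κ : ℝ), 0 < κ → 0 < r → ∃ (D E : ℕ) (τ : Z2 → Z2) (N N0 : Set Z2)
      (σ : ℕ → Z2 → Z2) (i ι : Z2 → ℕ) (c s : ℕ → Z2 → ℝ),
      GeoA q f ρ n r κ D E τ N N0 σ i ι c s

end Pool.Agent.Helper7_RU
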